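import Pool.Agent.LibU36.C5
import Pool.Agent.LibFG33.Defs

/-! The spectral statistics are the same after the transport. -/

open MeasureTheory Set Filter Topology
open scoped ContDiff unitInterval

namespace U36

open BGS BR

variable {Γ : Type} [Group Γ] [MulAction Γ Pl] {D : Set Pl} {e : Pl ≃ Pl}

theorem x_push (hX : Surface Γ D) (he : Df e) (m : Mt Γ D) (k : ℕ) :
    x (push hX he m) k = x m k := by
  unfold x
  rw [lvl_push]

theorem lam_push (hX : Surface Γ D) (he : Df e) (m : Mt Γ D) (k : ℕ) :
    FG33.lam (push hX he m) k = FG33.lam m k := by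
  unfold FG33.lam
  rw [x_push]

theorem stat_push (hX : Surface Γ D) (he : Df e) (m : Mt Γ D) (a : ℝ → ℂ) (l τ : ℝ) :
    FG33.stat (push hX he m) a l τ = FG33.stat m a l τ := by
  unfold FG33.stat
  simp only [lam_push]

theorem goe_push (hX : Surface Γ D) (he : Df e) (m : Mt Γ D) {L : ℝ → ℝ}
    (h : FG33.GOEWindows (push hX he m) L) : FG33.GOEWindows m L := by
  intro a ha
  have h1 := h a ha
  simp only [stat_push] at h1
  exact h1

end U36
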