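import Pool.Agent.LibU36.C7
import Pool.Agent.LibU36.C8

/-! From surfaces `mH / Γ` to all conformal classes. -/

open MeasureTheory Set Filter Topology
open scoped ContDiff unitInterval

namespace U36

open BGS BR

/-- A property of metrics that depends only on the levels, for almost all values of a random
conformal factor: if it holds for all groups of isometries of the hyperbolic plane then it holds in
all conformal classes. -/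
theorem transfer {κ : Type} [MeasurableSpace κ] (μ : Measure κ)
    (P : ∀ (Γ : Type) [Group Γ] [MulAction Γ Pl] (D : Set Pl), Mt Γ D → Prop)
    (hP : ∀ (Γ : Type) [Group Γ] [MulAction Γ Pl] (D : Set Pl) (e : Pl ≃ Pl)
      (hX : Surface Γ D) (he : Df e) (m : Mt Γ D),
      P (CjG Γ e) (e '' D) (push hX he m) → P Γ D m)
    (h : ∀ (Γ : Type) [Group Γ] [MulAction Γ Pl] (D : Set Pl), Surface Γ D → Ori Γ → B36.Hyp Γ →
      ∃ φ : κ → Pl → ℝ, Fld Γ φ ∧ (∀ z, Measurable fun ξ => φ ξ z) ∧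
        ∀ ψ ∈ Test Γ, ∀ s : ℝ, 0 < s → s ≤ 1 → ∀ᵐ ξ ∂μ, ∀ m' : Mt Γ D,
          (∃ q : ℝ, 0 < q ∧ ∀ z, m'.1.1 z = (q * Real.exp (ψ z + s * φ ξ z)) • B36.mH z) →
            P Γ D m')
    {Γ : Type} [Group Γ] [MulAction Γ Pl] {D : Set Pl} (hX : Surface Γ D) (hO : Ori Γ)
    (m0 : Mt Γ D) :
    ∃ φ : κ → Pl → ℝ, (∀ ξ, φ ξ ∈ Test Γ) ∧ (∀ z, Measurable fun ξ => φ ξ z) ∧
      (∀ m : Mt Γ D, ∀ U ∈ 𝓝 m, ∃ s₀ : ℝ, 0 < s₀ ∧ ∀ s : ℝ, 0 < s → s ≤ s₀ → ∀ ξ,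
        ∃ m' ∈ U, ∃ q : ℝ, 0 < q ∧ ∀ z, m'.1.1 z = (q * Real.exp (s * φ ξ z)) • m.1.1 z) ∧
      ∀ ψ ∈ Test Γ, ∀ s : ℝ, 0 < s → s ≤ 1 → ∀ᵐ ξ ∂μ, ∀ m' : Mt Γ D,
        (∃ q : ℝ, 0 < q ∧ ∀ z, m'.1.1 z = (q * Real.exp (ψ z + s * φ ξ z)) • m0.1.1 z) →
          P Γ D m' := by
  obtain ⟨e, w, hu⟩ := exists_unif hX hO m0
  obtain ⟨φ, hF, hM, hA⟩ := h (CjG Γ e) (e '' D) hu.surf hu.ori hu.hyp
  have hF' := Fld_comp hu.df hF
  refine ⟨fun ξ z => φ ξ (e z), hF'.test, fun z => hM (e z),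
    fun m U hU => Fld_near hX hF' m hU, fun ψ hψ s hs hs1 => ?_⟩
  have h1 := hA (fun z => ψ (e.symm z) - w (e.symm z))
    (cj_test hu.df (u := fun z => ψ z - w z)
      ⟨hψ.1.sub hu.test.1, fun γ z => by
        show ψ (γ • z) - w (γ • z) = ψ z - w z
        rw [hψ.2, hu.test.2]⟩) s hs hs1
  filter_upwards [h1] with ξ hξ m' hm'
  obtain ⟨q, hq, hm'⟩ := hm'
  refine hP Γ D e hX hu.df m' (hξ _ ⟨q, hq, fun z => ?_⟩)
  rw [push_conf hX hu m' hm' z, Equiv.apply_symm_apply]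
  congr 3
  ring

end U36
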