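import Pool.Agent.LibU36.DefsB

/-! ROW B2 : horocyclic coordinates. SHORT/MEDIUM. PLAN. `XH`, `YH` in DefsB. `exp x = exp s * cosh η` for `x = s + log (cosh η)`; `exp x * y = sinh η`; `Real.arsinh_sinh`, `Real.sinh_arsinh`, `Real.tanh_eq_sinh_div_cosh`, `Real.cosh_pos`. Derivatives: `dx = ds + tanh η dη`, `dy = exp (-s) ((1 / cosh² η) dη - tanh η ds)`
(`HasFDerivAt` of each component; `tanh = sinh / cosh`), so `dx² + exp (2 x) dy² = cosh² η ds² + dη²` with `cosh² - sinh² = 1` (`field_simp`, `ring` or `nlinarith`); the determinant is `exp (-s)` (`PER_det` in LibBGR/Per). -/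

open MeasureTheory Set Filter Topology
open scoped ContDiff unitInterval

namespace U36

open BGS BR

theorem B2_tanh : Real.tanh = fun t => Real.sinh t / Real.cosh t :=
  funext fun t => Real.tanh_eq_sinh_div_cosh t

theorem B2_dtanh (t : ℝ) : HasDerivAt Real.tanh (1 / Real.cosh t ^ 2) t := by
  rw [B2_tanh]
  have h := (Real.hasDerivAt_sinh t).div (Real.hasDerivAt_cosh t) (Real.cosh_pos t).ne'
  refine h.congr_deriv ?_
  congr 1
  have := Real.cosh_sq t
  nlinarith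

theorem B2_dlog (t : ℝ) : HasDerivAt (fun t => Real.log (Real.cosh t)) (Real.tanh t) t := by
  have h := (Real.hasDerivAt_cosh t).log (Real.cosh_pos t).ne'
  refine h.congr_deriv ?_
  rw [Real.tanh_eq_sinh_div_cosh]

theorem XH_smooth : ContDiff ℝ ∞ XH := by
  unfold XH
  have h1 : ContDiff ℝ ∞ fun p : Pl => Real.cosh p.2 := Real.contDiff_cosh.comp contDiff_snd
  have h2 : ContDiff ℝ ∞ fun p : Pl => Real.sinh p.2 := Real.contDiff_sinh.comp contDiff_snd
  have h3 : ContDiff ℝ ∞ fun p : Pl => Real.tanh p.2 := by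
    simp only [Real.tanh_eq_sinh_div_cosh]
    exact h2.div h1 fun p => (Real.cosh_pos p.2).ne'
  have h4 : ContDiff ℝ ∞ fun p : Pl => Real.exp (-p.1) := contDiff_fst.neg.exp
  exact (contDiff_fst.add (h1.log fun p => (Real.cosh_pos p.2).ne')).prodMk (h3.mul h4)

theorem YH_smooth : ContDiff ℝ ∞ YH := by
  unfold YH
  have h0 : ContDiff ℝ ∞ fun z : Pl => Real.arsinh (Real.exp z.1 * z.2) :=
    (contDiff_fst.exp.mul contDiff_snd).arsinh
  have h1 : ContDiff ℝ ∞ fun z : Pl => Real.cosh (Real.arsinh (Real.exp z.1 * z.2)) :=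
    Real.contDiff_cosh.comp h0
  exact (contDiff_fst.sub (h1.log fun p => (Real.cosh_pos _).ne')).prodMk h0

theorem YH_XH (p : Pl) : YH (XH p) = p := by
  have hc := Real.cosh_pos p.2
  have e1 : Real.exp (p.1 + Real.log (Real.cosh p.2)) * (Real.tanh p.2 * Real.exp (-p.1)) = Real.sinh p.2 := by
    rw [Real.exp_add, Real.exp_log hc, Real.tanh_eq_sinh_div_cosh, Real.exp_neg]
    have := Real.exp_pos p.1
    field_simp
  have e2 : Real.arsinh (Real.exp (p.1 + Real.log (Real.cosh p.2)) * (Real.tanh p.2 * Real.exp (-p.1))) = p.2 := by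
    rw [e1, Real.arsinh_sinh]
  unfold YH XH
  simp only [e2]
  ext <;> simp

theorem XH_YH (z : Pl) : XH (YH z) = z := by
  unfold YH XH
  have hc := Real.cosh_pos (Real.arsinh (Real.exp z.1 * z.2))
  ext
  · simp
  · simp only
    rw [neg_sub, Real.exp_sub, Real.exp_log hc, Real.tanh_eq_sinh_div_cosh, Real.sinh_arsinh]
    have := Real.exp_pos z.1
    field_simp

theorem B2_fd (p w : Pl) : fderiv ℝ XH p w =
    (w.1 + Real.tanh p.2 * w.2, Real.exp (-p.1) * (w.2 / Real.cosh p.2 ^ 2 - Real.tanh p.2 * w.1)) := by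
  have h1 : HasFDerivAt (fun p : Pl => p.1) (ContinuousLinearMap.fst ℝ ℝ ℝ) p := hasFDerivAt_fst
  have h2 : HasFDerivAt (fun p : Pl => p.2) (ContinuousLinearMap.snd ℝ ℝ ℝ) p := hasFDerivAt_snd
  have h3 := (B2_dlog p.2).comp_hasFDerivAt p h2
  have h4 := (B2_dtanh p.2).comp_hasFDerivAt p h2
  have h5 := h1.neg.exp
  have h6 := (h1.add h3).prodMk (h4.mul h5)
  have h7 : HasFDerivAt XH _ p := h6
  rw [h7.fderiv]
  ext
  · simp
  · simp
    ring

theorem XH_met (p w : Pl) : qf (B36.mH (XH p)) (fderiv ℝ XH p w) =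
    (w.1 * Real.cosh p.2) ^ 2 + w.2 ^ 2 := by
  rw [B2_fd]
  have hc := Real.cosh_pos p.2
  have hs := Real.cosh_sq p.2
  have he : Real.exp (2 * (p.1 + Real.log (Real.cosh p.2))) = Real.exp p.1 ^ 2 * Real.cosh p.2 ^ 2 := by
    rw [← Real.exp_log hc, ← Real.exp_nat_mul, ← Real.exp_nat_mul, ← Real.exp_add, Real.exp_log hc]
    congr 1
    push_cast
    ring
  unfold qf B36.mH XH
  simp only
  rw [he, Real.exp_neg, Real.tanh_eq_sinh_div_cosh]
  have := Real.exp_pos p.1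
  field_simp
  have h2 : Real.sinh p.2 ^ 2 = Real.cosh p.2 ^ 2 - 1 := by linarith
  ring_nf
  have h4 : Real.sinh p.2 ^ 2 = Real.cosh p.2 ^ 2 - 1 := by linarith
  rw [h4]
  ring

theorem XH_dpos (p : Pl) : 0 < (fderiv ℝ XH p).det := by
  rw [PER_det, B2_fd, B2_fd]
  have hc := Real.cosh_pos p.2
  have hs := Real.cosh_sq p.2
  have e : (1 + Real.tanh p.2 * 0) * (Real.exp (-p.1) * (1 / Real.cosh p.2 ^ 2 - Real.tanh p.2 * 0)) -
      (0 + Real.tanh p.2 * 1) * (Real.exp (-p.1) * (0 / Real.cosh p.2 ^ 2 - Real.tanh p.2 * 1)) =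
      Real.exp (-p.1) := by
    rw [Real.tanh_eq_sinh_div_cosh]
    field_simp
    have h3 : Real.cosh p.2 ^ 3 = Real.cosh p.2 * (Real.sinh p.2 ^ 2 + 1) := by rw [← hs]; ring
    rw [h3]
    ring
  simp only
  rw [e]
  exact Real.exp_pos _

end U36
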