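import Pool.Agent.LibU36.DefsB

/-! ROW B3 : diffeomorphisms of the plane. SHORT/MEDIUM. PLAN. `Df_of`: the inverse is smooth: model H1j in LibBR70 (`contDiffAt_symm` / `to_localInverse` for `Vx`): at every point `ContDiffAt.toOpenPartialHomeomorph`, the local inverse agrees with the inverse near `f z` (injectivity and `map_nhds`), the derivative is an equivalence since `det ≠ 0`
(`ContinuousLinearEquiv` from `LinearEquiv.ofIsUnitDet` or `ContinuousLinearMap.toContinuousLinearEquivOfDetNeZero`). `Df_symm`: `fderiv e.symm (e z) ∘ fderiv e z = id` so the product of the determinants is 1. `Df_trans`: chain rule, `det` multiplicative (`ContinuousLinearMap.det`, `LinearMap.det_comp`). `exists_e`: not in this row. -/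

open MeasureTheory Set Filter Topology
open scoped ContDiff unitInterval

namespace U36

open BGS BR

theorem B3_det_comp (A B : Pl →L[ℝ] Pl) : (A.comp B).det = A.det * B.det :=
  LinearMap.det_comp (A : Pl →ₗ[ℝ] Pl) (B : Pl →ₗ[ℝ] Pl)

theorem B3_inv (e : Pl ≃ Pl) (hf : ContDiff ℝ ∞ e) (hd : ∀ z, (fderiv ℝ e z).det ≠ 0) :
    ContDiff ℝ ∞ e.symm := by
  rw [contDiff_iff_contDiffAt]
  intro q
  have hq := e.apply_symm_apply q
  set a := e.symm q with ha
  let A : Pl ≃L[ℝ] Pl := (fderiv ℝ e a).toContinuousLinearEquivOfDetNeZero (hd a)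
  have hA : (A : Pl →L[ℝ] Pl) = fderiv ℝ e a :=
    ContinuousLinearMap.coe_toContinuousLinearEquivOfDetNeZero _ _
  have hf' : HasFDerivAt e (A : Pl →L[ℝ] Pl) a := by
    rw [hA]
    exact (hf.differentiable (by simp) a).hasFDerivAt
  have hn : (∞ : WithTop ℕ∞) ≠ 0 := by simp
  have hc : ContDiffAt ℝ ∞ e a := hf.contDiffAt
  have h1 := hc.to_localInverse hf' hn
  have h2 := (hc.hasStrictFDerivAt' hf' hn).eventually_right_inverse
  rw [hq] at h1 h2
  refine h1.congr_of_eventuallyEq ?_
  filter_upwards [h2] with y hy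
  exact e.injective ((e.apply_symm_apply y).trans hy.symm)

theorem Df_of {f : Pl → Pl} (hf : ContDiff ℝ ∞ f) (hb : Function.Bijective f)
    (hd : ∀ z, 0 < (fderiv ℝ f z).det) : Df (Equiv.ofBijective f hb) :=
  ⟨hf, B3_inv (Equiv.ofBijective f hb) hf fun z => (hd z).ne', hd⟩

/-- The derivatives of the two maps are inverse to each other. -/
theorem B3_left {e : Pl ≃ Pl} (he : Df e) (z : Pl) :
    (fderiv ℝ e.symm (e z)).comp (fderiv ℝ e z) = ContinuousLinearMap.id ℝ Pl := by
  have h1 : HasFDerivAt e (fderiv ℝ e z) z := (he.smooth.differentiable (by simp) z).hasFDerivAt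
  have h2 : HasFDerivAt e.symm (fderiv ℝ e.symm (e z)) (e z) :=
    (he.smooth'.differentiable (by simp) (e z)).hasFDerivAt
  have h3 := h2.comp z h1
  have h4 : (e.symm : Pl → Pl) ∘ e = id := funext fun y => e.symm_apply_apply y
  rw [h4] at h3
  exact h3.unique (hasFDerivAt_id z)

theorem B3_right {e : Pl ≃ Pl} (he : Df e) (z : Pl) :
    (fderiv ℝ e z).comp (fderiv ℝ e.symm (e z)) = ContinuousLinearMap.id ℝ Pl := by
  have h1 : HasFDerivAt e (fderiv ℝ e z) (e.symm (e z)) := by
    rw [e.symm_apply_apply]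
    exact (he.smooth.differentiable (by simp) z).hasFDerivAt
  have h2 : HasFDerivAt e.symm (fderiv ℝ e.symm (e z)) (e z) :=
    (he.smooth'.differentiable (by simp) (e z)).hasFDerivAt
  have h3 := h1.comp (e z) h2
  have h4 : (e : Pl → Pl) ∘ e.symm = id := funext fun y => e.apply_symm_apply y
  rw [h4] at h3
  exact h3.unique (hasFDerivAt_id (e z))

theorem Df_symm {e : Pl ≃ Pl} (he : Df e) : Df e.symm := by
  refine ⟨he.smooth', he.smooth, fun z => ?_⟩
  have h1 := congrArg ContinuousLinearMap.det (B3_left he (e.symm z))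
  rw [B3_det_comp, e.apply_symm_apply] at h1
  have h2 : (ContinuousLinearMap.id ℝ Pl).det = 1 := LinearMap.det_id
  rw [h2] at h1
  have h3 := he.det (e.symm z)
  by_contra h4
  push Not at h4
  have h5 := mul_nonpos_of_nonpos_of_nonneg h4 h3.le
  linarith

theorem Df_trans {e f : Pl ≃ Pl} (he : Df e) (hf : Df f) : Df (e.trans f) := by
  refine ⟨hf.smooth.comp he.smooth, he.smooth'.comp hf.smooth', fun z => ?_⟩
  have h1 : HasFDerivAt e (fderiv ℝ e z) z := (he.smooth.differentiable (by simp) z).hasFDerivAt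
  have h2 : HasFDerivAt f (fderiv ℝ f (e z)) (e z) :=
    (hf.smooth.differentiable (by simp) (e z)).hasFDerivAt
  have h3 : HasFDerivAt (e.trans f) ((fderiv ℝ f (e z)).comp (fderiv ℝ e z)) z := h2.comp z h1
  rw [h3.fderiv, B3_det_comp]
  exact mul_pos (hf.det _) (he.det z)

/-- The derivatives of the two maps are inverse to each other. -/
theorem Df_left {e : Pl ≃ Pl} (he : Df e) (z v : Pl) :
    fderiv ℝ e.symm (e z) (fderiv ℝ e z v) = v := by
  have h1 := congrArg (fun A : Pl →L[ℝ] Pl => A v) (B3_left he z)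
  exact h1

theorem Df_right {e : Pl ≃ Pl} (he : Df e) (z v : Pl) :
    fderiv ℝ e z (fderiv ℝ e.symm (e z) v) = v := by
  have h1 := congrArg (fun A : Pl →L[ℝ] Pl => A v) (B3_right he z)
  exact h1

end U36
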