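import Pool.Agent.LibU36.B1
import Pool.Agent.LibU36.B2
import Pool.Agent.LibU36.B3

/-! ROW B4 : a metric of curvature `-1` is isometric to `mH`. SHORT/MEDIUM. PLAN. `e = (ofBijective Fm).symm.trans X`, `X` the equivalence `⟨XH, YH, ..⟩`, `Fm = Fm m 0 (1, 0)` (`Fm_bij`, `Fm_smooth` in LibBR73/AN1, `Df_of`, `Df_symm`, `Df_trans`, for `X`: `Df_of` or directly). For `z = Fm p`, `w = fderiv Fm p v` (`Df_right`): `fderiv e z w = fderiv XH p v` (chain rule, `Df_left`),
`XH_met`, `Fm_met`. -/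

open MeasureTheory Set Filter Topology
open scoped ContDiff unitInterval

namespace U36

open BGS BR

variable {Γ : Type} [Group Γ] [MulAction Γ Pl] {D : Set Pl}

private noncomputable def B4_X : Pl ≃ Pl := ⟨XH, YH, YH_XH, XH_YH⟩

private theorem B4_Df : Df B4_X where
  smooth := XH_smooth
  smooth' := YH_smooth
  det := XH_dpos

theorem exists_e (hX : Surface Γ D) {m : Pl → Co} (hm : HM Γ m) (hK : ∀ z, curv m z = -1) :
    ∃ e : Pl ≃ Pl, Df e ∧ ∀ z w, qf (B36.mH (e z)) (fderiv ℝ e z w) = qf (m z) w := by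
  have hv : eu ((1, 0) : Pl) = 1 := by
    simp [eu]
  have hb := Fm_bij hX hm (x0 := 0) hv
  have hs := Fm_smooth hX hm 0 (1, 0)
  have hf : Df (Equiv.ofBijective (Fm m 0 (1, 0)) hb) := Df_of hs hb fun p => Fm_dpos hX hm hv p
  set f : Pl ≃ Pl := Equiv.ofBijective (Fm m 0 (1, 0)) hb with hfdef
  refine ⟨f.symm.trans B4_X, Df_trans (Df_symm hf) B4_Df, fun z w => ?_⟩
  obtain ⟨p, rfl⟩ := f.surjective z
  have e1 : (f.symm.trans B4_X) (f p) = XH p := by
    rw [Equiv.trans_apply, Equiv.symm_apply_apply]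
    rfl
  have e2 : fderiv ℝ (f.symm.trans B4_X) (f p) w = fderiv ℝ XH p (fderiv ℝ f.symm (f p) w) := by
    have h1 : DifferentiableAt ℝ f.symm (f p) := (hf.smooth'.differentiable (by simp)) _
    have h2 : DifferentiableAt ℝ XH (f.symm (f p)) := (XH_smooth.differentiable (by simp)) _
    have h3 := fderiv_comp (f p) h2 h1
    have h4 : (XH ∘ f.symm : Pl → Pl) = (f.symm.trans B4_X : Pl → Pl) := rfl
    rw [h4] at h3
    rw [h3, ContinuousLinearMap.comp_apply, Equiv.symm_apply_apply]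
  rw [e1, e2, XH_met]
  have h5 := Fm_met hX hm hK (x0 := 0) hv p (fderiv ℝ f.symm (f p) w)
  have h6 : fderiv ℝ f p (fderiv ℝ f.symm (f p) w) = w := Df_right hf p w
  rw [← h5]
  have h7 : (fderiv ℝ (Fm m 0 (1, 0)) p) (fderiv ℝ f.symm (f p) w) = w := h6
  rw [h7]
  rfl

end U36
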