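import Pool.Agent.LibU36.DefsB

/-! ROW B5 : isometries of `mH` preserve `Bh`. MEDIUM. PLAN. For `(x, v)` with geodesic `c t = gfl mH t (x, v)` put `F t = Bh x (c t).1`. The geodesic equations (`gfl_isFlow` in LibBR70, `gf`, `fr`, `om`, `cA`, `cB` in LibBR70/Geo) for `mH = (1, 0, exp (2 x))`: `√dt = exp x`, `fr (a, b) = (a, exp (-x) b)`, `cA = 0`, `cB = exp x`:
`x' = a`, `y' = exp (-x) b`, `a' = b²`, `b' = - a b`. Then `F' = - sinh (X1 - x) a + exp (X1 + x) (X2 - y)² a / 2 - exp X1 (X2 - y) b` and `F'' = (a² + b²) F` (`- sinh (X1 - x) + exp (X1 - x) = cosh (X1 - x)`), `a² + b² = eu v ^ 2` (`gfl_eu`), `F 0 = 1`, `F' 0 = 0`: `F t = cosh (eu v * t)`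
(`(F' + r F) exp (-r t)` and `(F' - r F) exp (r t)` are constant; `r = 0`: `F' ` constant). At `t = 1`: `Bh x (Ex mH x v) = cosh (eu v)`; `v = Vx mH x y` (`Ex_Vx`, LibBR70/H1j): `Bh_ds`. `hyp_of`: `ds_deck` (LibBR73/AN0). -/

open MeasureTheory Set Filter Topology
open scoped ContDiff unitInterval

namespace U36

open BGS BR

variable {Γ : Type} [Group Γ] [MulAction Γ Pl] {D : Set Pl}

private theorem B5_dt (z : Pl) : dt (B36.mH z) = Real.exp z.1 ^ 2 := by
  unfold dt B36.mH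
  rw [← Real.exp_nat_mul]
  push_cast
  ring

private theorem B5_sq (z : Pl) : √(dt (B36.mH z)) = Real.exp z.1 := by
  rw [B5_dt, Real.sqrt_sq (Real.exp_pos _).le]

private theorem B5_dE (z : Pl) : fderiv ℝ (fun w : Pl => (B36.mH w).1) z = 0 := by
  show fderiv ℝ (fun _ : Pl => (1 : ℝ)) z = 0
  simp

private theorem B5_dF (z : Pl) : fderiv ℝ (fun w : Pl => (B36.mH w).2.1) z = 0 := by
  show fderiv ℝ (fun _ : Pl => (0 : ℝ)) z = 0
  simp

private theorem B5_hG (z : Pl) : HasFDerivAt (fun w : Pl => (B36.mH w).2.2)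
    (Real.exp (2 * z.1) • ((2 : ℝ) • ContinuousLinearMap.fst ℝ ℝ ℝ)) z := by
  show HasFDerivAt (fun w : Pl => Real.exp (2 * w.1)) _ z
  exact ((hasFDerivAt_fst (𝕜 := ℝ) (p := z)).const_mul 2).exp

private theorem B5_dxE (z : Pl) : dx (fun w => (B36.mH w).1) z = 0 := by
  unfold dx
  rw [B5_dE]
  rfl

private theorem B5_dyE (z : Pl) : dy (fun w => (B36.mH w).1) z = 0 := by
  unfold dy
  rw [B5_dE]
  rfl

private theorem B5_dxF (z : Pl) : dx (fun w => (B36.mH w).2.1) z = 0 := by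
  unfold dx
  rw [B5_dF]
  rfl

private theorem B5_dyF (z : Pl) : dy (fun w => (B36.mH w).2.1) z = 0 := by
  unfold dy
  rw [B5_dF]
  rfl

private theorem B5_dxG (z : Pl) : dx (fun w => (B36.mH w).2.2) z = 2 * Real.exp (2 * z.1) := by
  unfold dx
  rw [(B5_hG z).fderiv]
  simp
  ring

private theorem B5_dyG (z : Pl) : dy (fun w => (B36.mH w).2.2) z = 0 := by
  unfold dy
  rw [(B5_hG z).fderiv]
  simp

private theorem B5_fr (z v : Pl) : fr (B36.mH z) v = (v.1, Real.exp (-z.1) * v.2) := by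
  unfold fr fr1 fr2
  rw [B5_sq]
  have h1 : (B36.mH z).1 = 1 := rfl
  have h2 : (B36.mH z).2.1 = 0 := rfl
  rw [h1, h2, Real.sqrt_one, Real.exp_neg]
  ext
  · simp
  · simp [mul_comm]

private theorem B5_om (z w : Pl) : om B36.mH z w = Real.exp z.1 * w.2 := by
  unfold om cA cB
  rw [B5_dxF, B5_dxE, B5_dyE, B5_dxG, B5_sq]
  have h1 : (B36.mH z).1 = 1 := rfl
  have h2 : (B36.mH z).2.1 = 0 := rfl
  rw [h1, h2, show (2 : ℝ) * z.1 = z.1 + z.1 by ring, Real.exp_add]
  have := Real.exp_pos z.1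
  field_simp
  ring

private theorem B5_gf (p : Pl × Pl) : gf B36.mH p =
    ((p.2.1, Real.exp (-p.1.1) * p.2.2), (p.2.2 ^ 2, -(p.2.1 * p.2.2))) := by
  unfold gf
  rw [B5_fr, B5_om]
  have h : Real.exp p.1.1 * (Real.exp (-p.1.1) * p.2.2) = p.2.2 := by
    rw [← mul_assoc, ← Real.exp_add, add_neg_cancel, Real.exp_zero, one_mul]
  ext
  · rfl
  · rfl
  · show Real.exp p.1.1 * (Real.exp (-p.1.1) * p.2.2) * p.2.2 = p.2.2 ^ 2
    rw [h]
    ring
  · show Real.exp p.1.1 * (Real.exp (-p.1.1) * p.2.2) * -p.2.1 = -(p.2.1 * p.2.2)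
    rw [h]
    ring

private theorem B5_const {f : ℝ → ℝ} (hf : ∀ t, HasDerivAt f 0 t) (t : ℝ) : f t = f 0 :=
  is_const_of_deriv_eq_zero (fun s => (hf s).differentiableAt) (fun s => (hf s).deriv) t 0

private theorem B5_ode {F G : ℝ → ℝ} {r : ℝ} (hF : ∀ t, HasDerivAt F (G t) t)
    (hG : ∀ t, HasDerivAt G (r ^ 2 * F t) t) (h0 : F 0 = 1) (h1 : G 0 = 0) (t : ℝ) :
    F t = Real.cosh (r * t) := by
  have hE : ∀ s t : ℝ, HasDerivAt (fun t => Real.exp (s * t)) (Real.exp (s * t) * s) t := by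
    intro s t
    have h := ((hasDerivAt_id t).const_mul s).exp
    simpa using h
  have a1 : ∀ t, (G t + r * F t) * Real.exp (-r * t) = r := by
    intro t
    have h2 := B5_const (f := fun t => (G t + r * F t) * Real.exp (-r * t)) (fun t => by
      have h3 := ((hG t).add ((hF t).const_mul r)).mul (hE (-r) t)
      refine h3.congr_deriv ?_
      simp only [Pi.add_apply, Pi.sub_apply, Pi.mul_apply]
      ring) t
    simp only [h0, h1, mul_zero, Real.exp_zero, mul_one, zero_add] at h2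
    exact h2
  have a2 : ∀ t, (G t - r * F t) * Real.exp (r * t) = -r := by
    intro t
    have h2 := B5_const (f := fun t => (G t - r * F t) * Real.exp (r * t)) (fun t => by
      have h3 := ((hG t).sub ((hF t).const_mul r)).mul (hE r t)
      refine h3.congr_deriv ?_
      simp only [Pi.add_apply, Pi.sub_apply, Pi.mul_apply]
      ring) t
    simp only [h0, h1, mul_zero, Real.exp_zero, mul_one, zero_sub] at h2
    exact h2
  by_cases hr : r = 0
  · subst hr
    have a3 : ∀ t, G t = 0 := by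
      intro t
      have h2 := a1 t
      simpa using h2
    have h2 := B5_const (f := F) (fun t => by
      have h3 := hF t
      rwa [a3 t] at h3) t
    rw [h2, h0]
    simp
  · have e1 : Real.exp (-r * t) * Real.exp (r * t) = 1 := by
      rw [← Real.exp_add]
      simp
    have b1 : G t + r * F t = r * Real.exp (r * t) := by
      calc G t + r * F t = (G t + r * F t) * (Real.exp (-r * t) * Real.exp (r * t)) := by
            rw [e1, mul_one]
        _ = ((G t + r * F t) * Real.exp (-r * t)) * Real.exp (r * t) := by ring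
        _ = r * Real.exp (r * t) := by rw [a1]
    have b2 : G t - r * F t = -r * Real.exp (-r * t) := by
      calc G t - r * F t = (G t - r * F t) * (Real.exp (-r * t) * Real.exp (r * t)) := by
            rw [e1, mul_one]
        _ = ((G t - r * F t) * Real.exp (r * t)) * Real.exp (-r * t) := by ring
        _ = -r * Real.exp (-r * t) := by rw [a2]
    rw [Real.cosh_eq, show -(r * t) = -r * t by ring]
    apply mul_left_cancel₀ hr
    linarith

theorem Bh_Ex (hX : Surface Γ D) (hm : HM Γ B36.mH) (x v : Pl) :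
    B36.Bh x (Ex B36.mH x v) = Real.cosh (eu v) := by
  set c : ℝ → Pl × Pl := fun t => gfl B36.mH t (x, v) with hc
  have hfl := gfl_isFlow hX hm
  have hd : ∀ t, HasDerivAt c (gf B36.mH (c t)) t := fun t => hfl.deriv (x, v) t
  have hc0 : c 0 = (x, v) := hfl.zero _
  have hx : ∀ t, HasDerivAt (fun t => (c t).1.1) (c t).2.1 t := by
    intro t
    have h := (((ContinuousLinearMap.fst ℝ ℝ ℝ).comp
      (ContinuousLinearMap.fst ℝ Pl Pl)).hasFDerivAt).comp_hasDerivAt t (hd t)
    rw [B5_gf] at h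
    exact h
  have hy : ∀ t, HasDerivAt (fun t => (c t).1.2) (Real.exp (-(c t).1.1) * (c t).2.2) t := by
    intro t
    have h := (((ContinuousLinearMap.snd ℝ ℝ ℝ).comp
      (ContinuousLinearMap.fst ℝ Pl Pl)).hasFDerivAt).comp_hasDerivAt t (hd t)
    rw [B5_gf] at h
    exact h
  have ha : ∀ t, HasDerivAt (fun t => (c t).2.1) ((c t).2.2 ^ 2) t := by
    intro t
    have h := (((ContinuousLinearMap.fst ℝ ℝ ℝ).comp
      (ContinuousLinearMap.snd ℝ Pl Pl)).hasFDerivAt).comp_hasDerivAt t (hd t)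
    rw [B5_gf] at h
    exact h
  have hb : ∀ t, HasDerivAt (fun t => (c t).2.2) (-((c t).2.1 * (c t).2.2)) t := by
    intro t
    have h := (((ContinuousLinearMap.snd ℝ ℝ ℝ).comp
      (ContinuousLinearMap.snd ℝ Pl Pl)).hasFDerivAt).comp_hasDerivAt t (hd t)
    rw [B5_gf] at h
    exact h
  have he : ∀ t, (c t).2.1 ^ 2 + (c t).2.2 ^ 2 = eu v ^ 2 := by
    intro t
    have h := gfl_eu hX hm t (x, v)
    have h2 : eu (c t).2 = eu v := h
    rw [← h2]
    unfold eu
    rw [Real.sq_sqrt (by positivity)]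
  set F : ℝ → ℝ := fun t => Real.cosh (x.1 - (c t).1.1) +
    Real.exp (x.1 + (c t).1.1) * (x.2 - (c t).1.2) ^ 2 / 2 with hF
  set G : ℝ → ℝ := fun t => -(Real.sinh (x.1 - (c t).1.1) * (c t).2.1) +
    Real.exp (x.1 + (c t).1.1) * (x.2 - (c t).1.2) ^ 2 / 2 * (c t).2.1 -
    Real.exp x.1 * (x.2 - (c t).1.2) * (c t).2.2 with hG
  have hee : ∀ s : ℝ, Real.exp (x.1 + s) * Real.exp (-s) = Real.exp x.1 := by
    intro s
    rw [← Real.exp_add]
    congr 1
    ring
  have dF : ∀ t, HasDerivAt F (G t) t := by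
    intro t
    have h1 := ((hx t).const_sub x.1).cosh
    have h2 := (((hx t).const_add x.1).exp.mul (((hy t).const_sub x.2).pow 2)).div_const 2
    have h3 := h1.add h2
    refine h3.congr_deriv ?_
    show _ = -(Real.sinh (x.1 - (c t).1.1) * (c t).2.1) +
      Real.exp (x.1 + (c t).1.1) * (x.2 - (c t).1.2) ^ 2 / 2 * (c t).2.1 -
      Real.exp x.1 * (x.2 - (c t).1.2) * (c t).2.2
    rw [← hee (c t).1.1]
    simp only [Pi.add_apply, Pi.sub_apply, Pi.mul_apply, Pi.pow_apply]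
    push_cast
    ring
  have dG : ∀ t, HasDerivAt G (eu v ^ 2 * F t) t := by
    intro t
    have h1 := (((hx t).const_sub x.1).sinh.mul (ha t)).neg
    have h2 := ((((hx t).const_add x.1).exp.mul (((hy t).const_sub x.2).pow 2)).div_const 2).mul
      (ha t)
    have h3 := (((hy t).const_sub x.2).const_mul (Real.exp x.1)).mul (hb t)
    have h4 := (h1.add h2).sub h3
    have h5 : Real.exp x.1 * Real.exp (-(c t).1.1) =
        Real.cosh (x.1 - (c t).1.1) + Real.sinh (x.1 - (c t).1.1) := by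
      rw [Real.cosh_add_sinh, ← Real.exp_add]
      congr 1
    refine h4.congr_deriv ?_
    show _ = eu v ^ 2 * (Real.cosh (x.1 - (c t).1.1) +
      Real.exp (x.1 + (c t).1.1) * (x.2 - (c t).1.2) ^ 2 / 2)
    rw [← he t]
    simp only [Pi.add_apply, Pi.sub_apply, Pi.mul_apply, Pi.pow_apply]
    push_cast
    have h6 := hee (c t).1.1
    have h7 : Real.exp x.1 * ((c t).2.2 * Real.exp (-(c t).1.1) * (c t).2.2) =
      (Real.cosh (x.1 - (c t).1.1) + Real.sinh (x.1 - (c t).1.1)) * (c t).2.2 ^ 2 := by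
      rw [← h5]
      ring
    linear_combination h7 - ((x.2 - (c t).1.2) * (c t).2.2 * (c t).2.1) * h6
  have key := B5_ode (F := F) (G := G) (r := eu v) dF dG (by
    simp only [hF, hc0]
    simp) (by
    simp only [hG, hc0]
    simp) 1
  rw [mul_one] at key
  rw [← key]
  rfl

theorem Bh_ds (hX : Surface Γ D) (hm : HM Γ B36.mH) (x y : Pl) :
    B36.Bh x y = Real.cosh (ds B36.mH x y) := by
  have h := Bh_Ex hX hm x (Vx B36.mH x y)
  rw [Ex_Vx hX hm] at h
  exact h

theorem hyp_of (hX : Surface Γ D) (hO : Ori Γ) (hm : HM Γ B36.mH) : B36.Hyp Γ := by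
  intro γ X Y
  rw [Bh_ds hX hm, Bh_ds hX hm, (ds_deck hX hO hm γ X Y).1]

theorem curv_mH (z : Pl) : curv B36.mH z = -1 := by
  have hyE : dy (fun w => (B36.mH w).1) = fun _ => 0 := funext B5_dyE
  have hxF : dx (fun w => (B36.mH w).2.1) = fun _ => 0 := funext B5_dxF
  have hxG : dx (fun w => (B36.mH w).2.2) = fun z => 2 * Real.exp (2 * z.1) := funext B5_dxG
  have h0 : dy (fun _ : Pl => (0 : ℝ)) z = 0 := by
    unfold dy
    simp
  have h2 : dx (fun z : Pl => 2 * Real.exp (2 * z.1)) z = 4 * Real.exp (2 * z.1) := by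
    unfold dx
    have h : HasFDerivAt (fun z : Pl => 2 * Real.exp (2 * z.1)) _ z := (B5_hG z).const_mul 2
    rw [h.fderiv]
    simp
    ring
  unfold curv
  simp only [hyE, hxF, hxG, h0, h2, B5_dxE, B5_dyF, B5_dyG, B5_dt]
  have h1 : (B36.mH z).1 = 1 := rfl
  have h3 : (B36.mH z).2.1 = 0 := rfl
  have h4 : (B36.mH z).2.2 = Real.exp (2 * z.1) := rfl
  rw [h1, h3, h4, Matrix.det_fin_three, Matrix.det_fin_three]
  simp
  rw [show (2 : ℝ) * z.1 = z.1 + z.1 by ring, Real.exp_add]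
  have := Real.exp_pos z.1
  field_simp
  ring

end U36
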