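import Pool.Agent.LibU36.C4

/-! ROW C5 : the levels are the same. MEDIUM. PLAN. `en_push`: change of variables `z = e y` (`integral_image_eq_integral_abs_det_fderiv_smul`); with `u' = u ∘ e.symm`: `dx u y = dx u' (e y) * (de (1,0)).1 + dy u' (e y) * (de (1,0)).2`, the same for `dy` (chain rule; models: `B1b_chain`, `B1b_algebra`, `q2_change` in LibQR40/B1b for `e = γ`), so
`|det| * wf (m' (e y)) (dx u') (dy u') = wf (m y) (dx u) (dy u)` (write the coefficients of `m y = pbk e m' y` by `pbk_symm`, `pbk_eq`; `√(dt (m y)) = √(dt (m' (e y))) * |det|`). `l2_push` is easier. `ev_push`: the linear equivalence `u ↦ u ∘ e.symm` of `Pl → ℝ` (`LinearEquiv.funCongrLeft`) maps `V` to `Submodule.map`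
of the same `finrank` (`LinearEquiv.finrank_map_eq`); `cj_test`, `cj_test'`. `iInf` over the same set of `c` (`iInf_congr`, `Iff`). -/

open MeasureTheory Set Filter Topology
open scoped ContDiff unitInterval

namespace U36

open BGS BR

variable {Γ : Type} [Group Γ] [MulAction Γ Pl] {D : Set Pl} {e : Pl ≃ Pl}

theorem C5_wf {f : Pl → Pl} {z : Pl} (hd : (fderiv ℝ f z).det ≠ 0) (m : Pl → Co) (p q : ℝ) :
    wf (pbk f m z) ((fderiv ℝ f z (1, 0)).1 * p + (fderiv ℝ f z (1, 0)).2 * q)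
      ((fderiv ℝ f z (0, 1)).1 * p + (fderiv ℝ f z (0, 1)).2 * q) =
      |(fderiv ℝ f z).det| * wf (m (f z)) p q := by
  have hd' : |(fderiv ℝ f z).det| ≠ 0 := abs_ne_zero.2 hd
  unfold wf
  rw [← C4_rho]
  have h1 : (pbk f m z).2.2 * ((fderiv ℝ f z (1, 0)).1 * p + (fderiv ℝ f z (1, 0)).2 * q) ^ 2 -
      2 * (pbk f m z).2.1 * ((fderiv ℝ f z (1, 0)).1 * p + (fderiv ℝ f z (1, 0)).2 * q) *
        ((fderiv ℝ f z (0, 1)).1 * p + (fderiv ℝ f z (0, 1)).2 * q) +
      (pbk f m z).1 * ((fderiv ℝ f z (0, 1)).1 * p + (fderiv ℝ f z (0, 1)).2 * q) ^ 2 =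
      |(fderiv ℝ f z).det| * (|(fderiv ℝ f z).det| *
        ((m (f z)).2.2 * p ^ 2 - 2 * (m (f z)).2.1 * p * q + (m (f z)).1 * q ^ 2)) := by
    rw [← mul_assoc, ← sq, sq_abs, PER_det (fderiv ℝ f z)]
    simp only [pbk, bf]
    ring
  rw [h1, mul_div_mul_left _ _ hd', mul_div_assoc]

theorem C5_chain {f : Pl → Pl} (hf : ContDiff ℝ ∞ f) {u : Pl → ℝ} (hu : ContDiff ℝ ∞ u) (z : Pl) (v : Pl) :
    fderiv ℝ (fun y => u (f y)) z v = (fderiv ℝ f z v).1 * dx u (f z) + (fderiv ℝ f z v).2 * dy u (f z) := by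
  have h1 : HasFDerivAt (fun y => u (f y)) ((fderiv ℝ u (f z)).comp (fderiv ℝ f z)) z :=
    ((hu.differentiable (by simp) (f z)).hasFDerivAt).comp z
      ((hf.differentiable (by simp) z).hasFDerivAt)
  rw [h1.fderiv, ContinuousLinearMap.comp_apply]
  set w := fderiv ℝ f z v with hw
  have h2 : w = w.1 • ((1 : ℝ), (0 : ℝ)) + w.2 • ((0 : ℝ), (1 : ℝ)) := by
    ext <;> simp
  conv_lhs => rw [h2]
  rw [map_add, map_smul, map_smul]
  rfl

theorem l2_push (hX : Surface Γ D) (he : Df e) (m : Mt Γ D) (u : Pl → ℝ) :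
    l2 (e '' D) (push hX he m).1.1 (fun z => u (e.symm z)) = l2 D m.1.1 u := by
  show ∫ z in e '' D, u (e.symm z) ^ 2 * √(dt (pbk e.symm m.1.1 z)) =
    ∫ z in D, u z ^ 2 * √(dt (m.1.1 z))
  rw [C4_cv hX he]
  congr 1
  funext z
  have h := C4_rho e (pbk e.symm m.1.1) z
  rw [pbk_symm he] at h
  rw [Equiv.symm_apply_apply, ← h]
  ring

theorem en_push (hX : Surface Γ D) (he : Df e) (m : Mt Γ D) {u : Pl → ℝ} (hu : ContDiff ℝ ∞ u) :
    en (e '' D) (push hX he m).1.1 (fun z => u (e.symm z)) = en D m.1.1 u := by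
  have hu' : ContDiff ℝ ∞ fun z => u (e.symm z) := hu.comp he.smooth'
  have e0 : (fun y => (fun z => u (e.symm z)) (e y)) = u := by
    funext y
    simp only [Equiv.symm_apply_apply]
  show ∫ z in e '' D, wf (pbk e.symm m.1.1 z) (dx (fun z => u (e.symm z)) z)
      (dy (fun z => u (e.symm z)) z) = ∫ z in D, wf (m.1.1 z) (dx u z) (dy u z)
  rw [C4_cv hX he]
  congr 1
  funext z
  have h1 := C5_chain he.smooth hu' z (1, 0)
  have h2 := C5_chain he.smooth hu' z (0, 1)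
  rw [e0] at h1 h2
  have h3 := C5_wf (he.det z).ne' (pbk e.symm m.1.1) (dx (fun z => u (e.symm z)) (e z))
    (dy (fun z => u (e.symm z)) (e z))
  rw [← h1, ← h2, pbk_symm he] at h3
  exact h3.symm

theorem ev_push (hX : Surface Γ D) (he : Df e) (m : Mt Γ D) (k : ℕ) :
    ev (CjG Γ e) (e '' D) (push hX he m).1.1 k = ev Γ D m.1.1 k := by
  have hsymm : ∀ u : Pl → ℝ, (fun z => (fun y => u (e y)) (e.symm z)) = u := by
    intro u
    funext z
    simp only [Equiv.apply_symm_apply]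
  unfold ev
  refine iInf_congr fun c => iInf_congr_Prop ⟨?_, ?_⟩ fun _ => rfl
  · rintro ⟨V, hV, h⟩
    refine ⟨V.map (LinearEquiv.funCongrLeft ℝ ℝ e : (Pl → ℝ) →ₗ[ℝ] (Pl → ℝ)), ?_, ?_⟩
    · rw [← hV]
      exact LinearEquiv.finrank_map_eq (LinearEquiv.funCongrLeft ℝ ℝ e) V
    · rintro u ⟨v, hv, rfl⟩
      obtain ⟨h1, h2⟩ := h v hv
      have h3 : (fun z => v (e z)) ∈ Test Γ := cj_test' he h1
      have h4 := en_push hX he m h3.1
      have h5 := l2_push hX he m (fun z => v (e z))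
      rw [hsymm v] at h4 h5
      refine ⟨h3, ?_⟩
      show en D m.1.1 (fun z => v (e z)) ≤ c * l2 D m.1.1 (fun z => v (e z))
      rw [← h4, ← h5]
      exact h2
  · rintro ⟨V, hV, h⟩
    refine ⟨V.map (LinearEquiv.funCongrLeft ℝ ℝ e.symm : (Pl → ℝ) →ₗ[ℝ] (Pl → ℝ)), ?_, ?_⟩
    · rw [← hV]
      exact LinearEquiv.finrank_map_eq (LinearEquiv.funCongrLeft ℝ ℝ e.symm) V
    · rintro u ⟨v, hv, rfl⟩
      obtain ⟨h1, h2⟩ := h v hv
      have h3 : (fun z => v (e.symm z)) ∈ Test (CjG Γ e) := cj_test he h1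
      have h4 := en_push hX he m h1.1
      have h5 := l2_push hX he m v
      refine ⟨h3, ?_⟩
      show en (e '' D) (push hX he m).1.1 (fun z => v (e.symm z)) ≤
        c * l2 (e '' D) (push hX he m).1.1 (fun z => v (e.symm z))
      rw [h4, h5]
      exact h2

theorem lvl_push (hX : Surface Γ D) (he : Df e) (m : Mt Γ D) (k : ℕ) :
    lvl (push hX he m) k = lvl m k := by
  unfold lvl
  rw [ev_push hX he m k]

end U36
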