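import Pool.Agent.LibU36.DefsB
import Pool.Agent.LibBGM20.Q4

/-! ROW C6 : small conformal changes by a family of functions. SHORT/MEDIUM. PLAN. `Fld_sup`: the bound for `r = 0` on `closure D` and the invariance. `Fld_near`: the proof of `QML_near` (LibBGM20/Q4) with `φ` in place of `ps Γ L c`: it only uses the bounds of the derivatives on `K`, the bound of the function and `φ ξ ∈ Test Γ` (`conf_near` in LibBGR/Near, `QML_comp`).
`Fld_comp`: `norm_iteratedFDeriv_comp_le` with `C` the bound on the compact `e '' K` for `r`, `D = 1 + ` the maximum over `i ≤ r` of the bounds of `‖iteratedFDeriv ℝ i e z‖` on `K` (`D ≥ 1`, so `D ≤ D ^ i`). -/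

open MeasureTheory Set Filter Topology
open scoped ContDiff unitInterval

namespace U36

open BGS BR

variable {Γ : Type} [Group Γ] [MulAction Γ Pl] {D : Set Pl} {κ : Type}

theorem Fld_sup (hX : Surface Γ D) {φ : κ → Pl → ℝ} (h : Fld Γ φ) :
    ∃ M : ℝ, 0 < M ∧ ∀ ξ z, |φ ξ z| ≤ M := by
  obtain ⟨C, hC, hb⟩ := h.bound 0 (closure D) hX.bdd.isCompact_closure
  refine ⟨C, by linarith, fun ξ z => ?_⟩
  obtain ⟨γ, hγ, -⟩ := hX.orbit z
  have h1 := hb ξ 0 le_rfl (γ • z) (subset_closure hγ)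
  rw [norm_iteratedFDeriv_zero, Real.norm_eq_abs, (h.test ξ).2 γ z] at h1
  exact h1

theorem Fld_near (hX : Surface Γ D) {φ : κ → Pl → ℝ} (h : Fld Γ φ) (m : Mt Γ D)
    {U : Set (Mt Γ D)} (hU : U ∈ 𝓝 m) : ∃ s₀ : ℝ, 0 < s₀ ∧ ∀ s : ℝ, 0 < s → s ≤ s₀ →
      ∀ ξ, ∃ m' ∈ U, ∃ q : ℝ, 0 < q ∧
        ∀ z, m'.1.1 z = (q * Real.exp (s * φ ξ z)) • m.1.1 z := by
  obtain ⟨r, K, δ, hK, hδ, hn⟩ := conf_near hX m hU
  obtain ⟨C, hC, hb⟩ := h.bound r K hK
  obtain ⟨M, hM, hMb⟩ := Fld_sup hX h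
  have hr1 : (1 : ℝ) ≤ (r.factorial : ℝ) := by exact_mod_cast Nat.factorial_pos r
  set d : ℝ := min 1 (δ / (3 * r.factorial)) with hd
  have hd0 : 0 < d := lt_min one_pos (by positivity)
  have hd1 : d ≤ 1 := min_le_left _ _
  have hdδ : 3 * (r.factorial : ℝ) * d ≤ δ := by
    have h1 : d ≤ δ / (3 * r.factorial) := min_le_right _ _
    rw [le_div_iff₀ (by positivity)] at h1
    linarith
  have hdr : 0 < d ^ (r + 1) := pow_pos hd0 _
  have hC0 : 0 < C := by linarith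
  set ε₀ : ℝ := d ^ (r + 1) / (C + M) with hε₀
  have hε₀0 : 0 < ε₀ := by positivity
  refine ⟨ε₀, hε₀0, fun ε hε hεε ξ => ?_⟩
  have hε1 : ε * (C + M) ≤ d ^ (r + 1) := by
    rw [hε₀, le_div_iff₀ (by positivity)] at hεε
    exact hεε
  have hf : ContDiff ℝ ∞ fun z => ε * φ ξ z := contDiff_const.mul (h.test ξ).1
  have hdle : ∀ i, i ≤ r + 1 → d ^ (r + 1) ≤ d ^ i := fun i hi =>
    pow_le_pow_of_le_one hd0.le hd1 hi
  have hεM : ∀ z, |ε * φ ξ z| ≤ ε * M := fun z => by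
    rw [abs_mul, abs_of_pos hε]
    exact mul_le_mul_of_nonneg_left (hMb ξ z) hε.le
  have hεMd : ε * M ≤ d := by
    have h1 := hdle 1 (by omega)
    rw [pow_one] at h1
    nlinarith
  set g : Pl → ℝ := fun z => Real.exp (ε * φ ξ z) - 1 with hg
  have hgT : g ∈ Test Γ := by
    refine ⟨(Real.contDiff_exp.comp hf).sub contDiff_const, fun γ z => ?_⟩
    rw [hg]
    simp only
    rw [(h.test ξ).2 γ z]
  obtain ⟨m', hm', he⟩ := hn g hgT (by
    intro j hj z hz
    refine (BGM.QML_comp hf r z hd0.le hd1 (hεM z) (hεMd.trans hd1) hεMd ?_ j hj).trans hdδ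
    intro i hi1 hi
    have h1 : iteratedFDeriv ℝ i (fun z => ε * φ ξ z) z =
        ε • iteratedFDeriv ℝ i (φ ξ) z :=
      iteratedFDeriv_const_smul_apply (a := ε)
        (((h.test ξ).1.of_le (by exact_mod_cast le_top)).contDiffAt)
    rw [h1, norm_smul, Real.norm_eq_abs, abs_of_pos hε]
    have h2 := mul_le_mul_of_nonneg_left (hb ξ i hi z hz) hε.le
    have h3 := hdle i (by omega)
    nlinarith)
  refine ⟨m', hm', (∫ y in D, (1 + g y) * √(dt (m.1.1 y)))⁻¹, ?_, fun z => ?_⟩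
  · -- the constant is positive
    have h1 := (m'.2.pos 0).1
    rw [he 0] at h1
    have h2 := (m.2.pos 0).1
    have h3 : ((((∫ y in D, (1 + g y) * √(dt (m.1.1 y)))⁻¹ * (1 + g 0)) • m.1.1 0 : Co)).1 =
        (∫ y in D, (1 + g y) * √(dt (m.1.1 y)))⁻¹ * (1 + g 0) * (m.1.1 0).1 := rfl
    rw [h3] at h1
    have h4 : 0 < 1 + g 0 := by
      rw [hg]
      have := Real.exp_pos (ε * φ ξ 0)
      simp only
      linarith
    have h5 : 0 < (1 + g 0) * (m.1.1 0).1 := mul_pos h4 h2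
    by_contra hcon
    push Not at hcon
    have h6 := mul_nonpos_of_nonpos_of_nonneg hcon h5.le
    rw [← mul_assoc] at h6
    linarith
  · rw [he z, hg]
    simp only [add_sub_cancel]



theorem C6_bd {e : Pl → Pl} (he : ContDiff ℝ ∞ e) (r : ℕ) {K : Set Pl} (hK : IsCompact K) :
    ∃ A : ℝ, 1 ≤ A ∧ ∀ j ≤ r, ∀ z ∈ K, ‖iteratedFDeriv ℝ j e z‖ ≤ A := by
  have h1 : ∀ j : ℕ, ∃ A : ℝ, 1 ≤ A ∧ ∀ z ∈ K, ‖iteratedFDeriv ℝ j e z‖ ≤ A := by
    intro j
    have hc : Continuous (iteratedFDeriv ℝ j e) :=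
      he.continuous_iteratedFDeriv (by exact_mod_cast le_top)
    obtain ⟨B, hB⟩ := hK.exists_bound_of_continuousOn hc.continuousOn
    exact ⟨max 1 B, le_max_left _ _, fun z hz => (hB z hz).trans (le_max_right _ _)⟩
  choose A hA1 hA using h1
  refine ⟨∑ j ∈ Finset.range (r + 1), A j, ?_, fun j hj z hz => ?_⟩
  · have h2 : A 0 ≤ ∑ j ∈ Finset.range (r + 1), A j :=
      Finset.single_le_sum (f := A) (fun i _ => by linarith [hA1 i]) (Finset.mem_range.2 (by omega))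
    linarith [hA1 0]
  · have h2 : A j ≤ ∑ j ∈ Finset.range (r + 1), A j :=
      Finset.single_le_sum (f := A) (fun i _ => by linarith [hA1 i]) (Finset.mem_range.2 (by omega))
    exact (hA j z hz).trans h2

theorem Fld_comp {e : Pl ≃ Pl} (he : Df e) {φ : κ → Pl → ℝ} (h : Fld (CjG Γ e) φ) :
    Fld Γ (fun ξ z => φ ξ (e z)) where
  test ξ := by
    refine ⟨(h.test ξ).1.comp he.smooth, fun γ z => ?_⟩
    show φ ξ (e (γ • z)) = φ ξ (e z)
    have h1 := (h.test ξ).2 (toC e γ) (e z)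
    rw [cj_smul, e.symm_apply_apply] at h1
    exact h1
  bound r K hK := by
    obtain ⟨C, hC, hb⟩ := h.bound r (e '' K) (hK.image he.smooth.continuous)
    obtain ⟨A, hA, hB⟩ := C6_bd he.smooth r hK
    have hf : (1 : ℝ) ≤ (r.factorial : ℝ) := by exact_mod_cast Nat.factorial_pos r
    have hAr : 1 ≤ A ^ r := one_le_pow₀ hA
    refine ⟨r.factorial * C * A ^ r, ?_, fun ξ j hj z hz => ?_⟩
    · have h1 : 1 ≤ (r.factorial : ℝ) * C := by nlinarith
      nlinarith
    · have h2 := norm_iteratedFDeriv_comp_le (𝕜 := ℝ) (g := φ ξ) (f := e) (n := j)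
        (N := (⊤ : ℕ∞)) (h.test ξ).1 he.smooth (by exact_mod_cast le_top) z (C := C) (D := A)
        (fun i hi => hb ξ i (hi.trans hj) (e z) ⟨z, hz, rfl⟩)
        (fun i h1i hi => by
          refine (hB i (hi.trans hj) z hz).trans ?_
          calc A = A ^ 1 := (pow_one A).symm
            _ ≤ A ^ i := pow_le_pow_right₀ hA h1i)
      have h3 : ((j.factorial : ℕ) : ℝ) ≤ r.factorial := by exact_mod_cast Nat.factorial_le hj
      have h4 : A ^ j ≤ A ^ r := pow_le_pow_right₀ hA hj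
      have h5 : 0 ≤ A ^ j := by positivity
      refine h2.trans ?_
      exact mul_le_mul (mul_le_mul_of_nonneg_right h3 (by linarith)) h4 h5 (by positivity)

end U36
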