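import Pool.Agent.LibU36.X5
import Pool.Agent.LibU36.B4
import Pool.Agent.LibU36.B5
import Pool.Agent.LibU36.C5
import Pool.Agent.LibU36.C6

/-! Uniformisation: every surface with a metric of negative curvature is the quotient of the plane
by a group of isometries of the hyperbolic metric `mH`, up to a conformal factor. -/

open MeasureTheory Set Filter Topology
open scoped ContDiff unitInterval

namespace U36

open BGS BR

variable {Γ : Type} [Group Γ] [MulAction Γ Pl] {D : Set Pl}

/-- The data of the uniformisation of the conformal class of `m0`. -/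
structure Unif (Γ : Type) [Group Γ] [MulAction Γ Pl] (D : Set Pl) (m0 : Mt Γ D) (e : Pl ≃ Pl)
    (w : Pl → ℝ) : Prop where
  df : Df e
  test : w ∈ Test Γ
  eq : pbk e.symm (BGM.cf w m0.1.1) = B36.mH
  surf : Surface (CjG Γ e) (e '' D)
  ori : Ori (CjG Γ e)
  hyp : B36.Hyp (CjG Γ e)
  hm : HM (CjG Γ e) B36.mH

theorem exists_unif (hX : Surface Γ D) (hO : Ori Γ) (m0 : Mt Γ D) : ∃ e w, Unif Γ D m0 e w := by
  obtain ⟨w, hw, hm, hK⟩ := exists_hyp hX m0
  obtain ⟨e, he, h⟩ := exists_e hX hm hK
  have hs := cj_surface hX he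
  have ho := cj_ori hX he hO
  have hM : HM (CjG Γ e) B36.mH := by
    refine ⟨?_, ?_, cj_inv hX he hm.inv h, fun z => by rw [curv_mH]; norm_num⟩
    · exact contDiff_const.prodMk (contDiff_const.prodMk
        (Real.contDiff_exp.comp (contDiff_const.mul contDiff_fst)))
    · intro z
      refine ⟨one_pos, ?_⟩
      show 0 < 1 * Real.exp (2 * z.1) - 0 ^ 2
      have := Real.exp_pos (2 * z.1)
      linarith
  exact ⟨e, w, he, hw, pbk_eq he h, hs, ho, hyp_of hs ho hM, hM⟩

/-- A metric in the conformal class becomes conformal to `mH`. -/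
theorem push_conf (hX : Surface Γ D) {m0 : Mt Γ D} {e : Pl ≃ Pl} {w : Pl → ℝ}
    (h : Unif Γ D m0 e w) (m1 : Mt Γ D) {q : ℝ} {f : Pl → ℝ}
    (hm : ∀ z, m1.1.1 z = (q * Real.exp (f z)) • m0.1.1 z) (z : Pl) :
    (push hX h.df m1).1.1 z =
      (q * Real.exp (f (e.symm z) - w (e.symm z))) • B36.mH z := by
  have h1 : m1.1.1 = fun y => (q * Real.exp (f y - w y)) • BGM.cf w m0.1.1 y := by
    funext y
    rw [hm y]
    unfold BGM.cf
    rw [smul_smul, mul_assoc, ← Real.exp_add]
    congr 3
    ring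
  show pbk e.symm m1.1.1 z = _
  rw [h1, pbk_smul, h.eq]

end U36
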