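import Pool.Agent.LibU36.Defs

/-! ROW A1a : algebra of the uniform bounds. SHORT/MEDIUM. PLAN. `LB` and `SB` are in Defs. Words: `Dw (b :: l) v = pd b (Dw l v)`, `Dw (l' ++ l) v = Dw l' (Dw l v)` (`IT2a_app`, LibQR40/IT2a).
`LB_succ`: a word of length at most `j + 1` is `[]` or `l ++ [b]` (`List.eq_nil_or_concat`) and `Dw (l ++ [b]) v = Dw l (pd b v)`. `LB_add`: `Dw_sub` in CU is the model of `Dw_add`; `n0_add_le` (Defs). `LB_mulV`: `do_mulV` (DOa) gives
`IsDO l.length (fun v z => Dw l (V v) z)`, then `do_bound` (DOb) and a bound for the finite sum over `words l.length` (model: `IT2_sum_bd` in IT2). `SB_zero`: `SB j` follows from a bound `|u i z| ≤ M` only for `j = 0`. `LB_of_SB`: `n0 R v ≤ (volume (Q R)).toReal * C ^ 2`. -/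

open MeasureTheory Set Filter Topology
open scoped ContDiff unitInterval

namespace U36

open BGS QR

variable {ι : Type}

theorem A1a_Dw_add {f g : Pl → ℝ} (hf : ContDiff ℝ ∞ f) (hg : ContDiff ℝ ∞ g) (l : List Bool)
    (z : Pl) : Dw l (fun y => f y + g y) z = Dw l f z + Dw l g z := by
  induction l generalizing z with
  | nil => rfl
  | cons b l ih =>
    have h1 : Dw l (fun y => f y + g y) = fun z => Dw l f z + Dw l g z := funext ih
    change pd b (Dw l (fun y => f y + g y)) z = pd b (Dw l f) z + pd b (Dw l g) z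
    rw [h1]
    exact pd_add (smooth_Dw hf l) (smooth_Dw hg l) b z

theorem A1a_Dw_concat (l : List Bool) (b : Bool) (f : Pl → ℝ) :
    Dw (l ++ [b]) f = Dw l (pd b f) := by
  rw [← IT2a_app l [b] f]
  rfl

theorem A1a_word {j : ℕ} {l : List Bool} (hl : l.length ≤ j + 1) :
    l = [] ∨ ∃ (l' : List Bool) (b : Bool), l = l' ++ [b] ∧ l'.length ≤ j := by
  rcases List.eq_nil_or_concat l with h | ⟨l', b, h⟩
  · exact Or.inl h
  · refine Or.inr ⟨l', b, ?_, ?_⟩
    · rw [h, List.concat_eq_append]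
    · rw [h] at hl
      simp only [List.concat_eq_append, List.length_append, List.length_singleton] at hl
      omega

theorem LB_mono {j k : ℕ} (h : j ≤ k) {u : ι → Pl → ℝ} (hu : LB k u) : LB j u := by
  exact fun l hl R => hu l (hl.trans h) R

theorem SB_mono {j k : ℕ} (h : j ≤ k) {u : ι → Pl → ℝ} (hu : SB k u) : SB j u := by
  exact fun l hl R => hu l (hl.trans h) R

theorem LB_succ {j : ℕ} {u : ι → Pl → ℝ} : LB (j + 1) u ↔
    LB 0 u ∧ ∀ b, LB j (fun i => pd b (u i)) := by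
  constructor
  · intro h
    refine ⟨fun l hl R => h l (by omega) R, fun b l hl R => ?_⟩
    obtain ⟨C, hC⟩ := h (l ++ [b]) (by simp only [List.length_append, List.length_singleton]; omega) R
    refine ⟨C, fun i => ?_⟩
    have := hC i
    rw [A1a_Dw_concat] at this
    exact this
  · rintro ⟨h0, h1⟩ l hl R
    rcases A1a_word hl with rfl | ⟨l', b, rfl, hl'⟩
    · exact h0 [] (Nat.le_refl 0) R
    · obtain ⟨C, hC⟩ := h1 b l' hl' R
      refine ⟨C, fun i => ?_⟩
      rw [A1a_Dw_concat]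
      exact hC i

theorem SB_succ {j : ℕ} {u : ι → Pl → ℝ} : SB (j + 1) u ↔
    SB 0 u ∧ ∀ b, SB j (fun i => pd b (u i)) := by
  constructor
  · intro h
    refine ⟨fun l hl R => h l (by omega) R, fun b l hl R => ?_⟩
    obtain ⟨C, hC⟩ := h (l ++ [b]) (by simp only [List.length_append, List.length_singleton]; omega) R
    refine ⟨C, fun i => ?_⟩
    have := hC i
    rw [A1a_Dw_concat] at this
    exact this
  · rintro ⟨h0, h1⟩ l hl R
    rcases A1a_word hl with rfl | ⟨l', b, rfl, hl'⟩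
    · exact h0 [] (Nat.le_refl 0) R
    · obtain ⟨C, hC⟩ := h1 b l' hl' R
      refine ⟨C, fun i => ?_⟩
      rw [A1a_Dw_concat]
      exact hC i

theorem LB_add {j : ℕ} {u v : ι → Pl → ℝ} (hus : ∀ i, ContDiff ℝ ∞ (u i))
    (hvs : ∀ i, ContDiff ℝ ∞ (v i)) (hu : LB j u) (hv : LB j v) :
    LB j (fun i z => u i z + v i z) := by
  intro l hl R
  obtain ⟨C, hC⟩ := hu l hl R
  obtain ⟨C', hC'⟩ := hv l hl R
  refine ⟨2 * C + 2 * C', fun i => ?_⟩
  have h1 : Dw l (fun z => u i z + v i z) = fun z => Dw l (u i) z + Dw l (v i) z :=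
    funext fun z => A1a_Dw_add (hus i) (hvs i) l z
  show n0 R (Dw l (fun z => u i z + v i z)) ≤ _
  rw [h1]
  have h2 := n0_add_le R (smooth_Dw (hus i) l).continuous (smooth_Dw (hvs i) l).continuous
  have h3 := hC i
  have h4 := hC' i
  linarith

theorem LB_sub {j : ℕ} {u v : ι → Pl → ℝ} (hus : ∀ i, ContDiff ℝ ∞ (u i))
    (hvs : ∀ i, ContDiff ℝ ∞ (v i)) (hu : LB j u) (hv : LB j v) :
    LB j (fun i z => u i z - v i z) := by
  intro l hl R
  obtain ⟨C, hC⟩ := hu l hl R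
  obtain ⟨C', hC'⟩ := hv l hl R
  refine ⟨2 * C + 2 * C', fun i => ?_⟩
  have h1 : Dw l (fun z => u i z - v i z) = fun z => Dw l (u i) z - Dw l (v i) z :=
    funext fun z => Dw_sub (hus i) (hvs i) l z
  show n0 R (Dw l (fun z => u i z - v i z)) ≤ _
  rw [h1]
  have h2 := IT2a_sub_le R (smooth_Dw (hus i) l).continuous (smooth_Dw (hvs i) l).continuous
  have h3 := hC i
  have h4 := hC' i
  linarith

theorem SB_add {j : ℕ} {u v : ι → Pl → ℝ} (hus : ∀ i, ContDiff ℝ ∞ (u i))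
    (hvs : ∀ i, ContDiff ℝ ∞ (v i)) (hu : SB j u) (hv : SB j v) :
    SB j (fun i z => u i z + v i z) := by
  intro l hl R
  obtain ⟨C, hC⟩ := hu l hl R
  obtain ⟨C', hC'⟩ := hv l hl R
  refine ⟨C + C', fun i z hz => ?_⟩
  show |Dw l (fun z => u i z + v i z) z| ≤ _
  rw [A1a_Dw_add (hus i) (hvs i) l z]
  exact (abs_add_le _ _).trans (add_le_add (hC i z hz) (hC' i z hz))

/-- Multiplication by a fixed smooth function. -/
theorem LB_mulV {j : ℕ} {V : Pl → ℝ} (hV : ContDiff ℝ ∞ V) {u : ι → Pl → ℝ}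
    (hus : ∀ i, ContDiff ℝ ∞ (u i)) (hu : LB j u) : LB j (fun i z => V z * u i z) := by
  intro l hl R
  obtain ⟨C, hC, h⟩ := do_bound (do_mulV hV l) R
  have h1 : ∀ l' : List Bool, ∃ C' : ℝ, l' ∈ words l.length → ∀ i, n0 R (Dw l' (u i)) ≤ C' := by
    intro l'
    by_cases hl' : l' ∈ words l.length
    · obtain ⟨C', hC'⟩ := hu l' ((mem_words.1 hl').trans hl) R
      exact ⟨C', fun _ => hC'⟩
    · exact ⟨0, fun h' => absurd h' hl'⟩
  choose C' hC' using h1
  refine ⟨C * ∑ l' ∈ words l.length, C' l', fun i => ?_⟩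
  refine (h (u i) (hus i)).trans ?_
  exact mul_le_mul_of_nonneg_left (Finset.sum_le_sum fun l' hl' => hC' l' hl' i) hC.le

theorem LB_const {j : ℕ} {V : Pl → ℝ} : LB j (fun _ : ι => V) := by
  exact fun l _ R => ⟨n0 R (Dw l V), fun _ => le_refl _⟩

theorem SB_of {u : ι → Pl → ℝ} {M : ℝ} (h : ∀ i z, |u i z| ≤ M) : SB 0 u := by
  intro l hl R
  have h0 : l = [] := List.eq_nil_of_length_eq_zero (Nat.le_zero.1 hl)
  subst h0
  exact ⟨M, fun i z _ => h i z⟩

theorem LB_of_SB {j : ℕ} {u : ι → Pl → ℝ} (hus : ∀ i, ContDiff ℝ ∞ (u i)) (hu : SB j u) :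
    LB j u := by
  intro l hl R
  obtain ⟨C, hC⟩ := hu l hl R
  refine ⟨∫ _ in Q R, C ^ 2, fun i => ?_⟩
  have hm : MeasurableSet (Q R) := measurableSet_closedBall
  refine setIntegral_mono_on (intQ ((smooth_Dw (hus i) l).continuous.pow 2) R)
    (intQ (continuous_const (y := C ^ 2)) R) hm fun z hz => ?_
  have h1 := hC i z hz
  exact sq_le_sq' (by linarith [(abs_le.1 h1).1]) (abs_le.1 h1).2

end U36
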