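import Pool.Agent.LibU36.A1a

/-! ROW A1b : products and exponentials. SHORT/MEDIUM. PLAN. All by induction on `j` (generalizing `u v`), with `LB_succ`, `SB_succ` (A1a), `pd_mul` (LibQR40/CU): `pd b (u v) = pd b u * v + u * pd b v`, `LB_add`, `SB_add`. `pd b (exp u) = exp u * pd b u` (`fderiv_exp`).
`SB_mul`: first. `SBLB_mul`: `j = 0`: `|u| ≤ C` on `Q R`, `n0 R (u v) ≤ C ^ 2 n0 R v`. `SB_exp`: `SB (j + 1) (exp u)` from `SB 0` and `pd b (exp u) = exp u * pd b u`, `SB_mul`. `LB_exp`: `LB 0 (exp u)` by `LB_of_SB`; `pd b (exp u) = exp u * pd b u`, `SB j (exp u)`, `LB j (pd b u)`, `SBLB_mul`. -/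

open MeasureTheory Set Filter Topology
open scoped ContDiff unitInterval

namespace U36

open BGS QR

variable {ι : Type}

theorem A1b_mul0 {u v : ι → Pl → ℝ} (hu : SB 0 u) (hv : SB 0 v) :
    SB 0 (fun i z => u i z * v i z) := by
  intro l hl R
  obtain rfl : l = [] := List.length_eq_zero_iff.1 (Nat.le_zero.1 hl)
  obtain ⟨C1, h1⟩ := hu [] le_rfl R
  obtain ⟨C2, h2⟩ := hv [] le_rfl R
  refine ⟨|C1| * |C2|, fun i z hz => ?_⟩
  have h3 : |u i z| ≤ C1 := h1 i z hz
  have h4 : |v i z| ≤ C2 := h2 i z hz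
  show |u i z * v i z| ≤ |C1| * |C2|
  rw [abs_mul]
  exact mul_le_mul (h3.trans (le_abs_self _)) (h4.trans (le_abs_self _)) (abs_nonneg _)
    (abs_nonneg _)

theorem A1b_mulL0 {u v : ι → Pl → ℝ} (hus : ∀ i, ContDiff ℝ ∞ (u i))
    (hvs : ∀ i, ContDiff ℝ ∞ (v i)) (hu : SB 0 u) (hv : LB 0 v) :
    LB 0 (fun i z => u i z * v i z) := by
  intro l hl R
  obtain rfl : l = [] := List.length_eq_zero_iff.1 (Nat.le_zero.1 hl)
  obtain ⟨C1, h1⟩ := hu [] le_rfl R
  obtain ⟨C2, h2⟩ := hv [] le_rfl R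
  refine ⟨C1 ^ 2 * |C2|, fun i => ?_⟩
  have h3 : n0 R (v i) ≤ C2 := h2 i
  have h6 : n0 R (fun z => u i z * v i z) ≤ C1 ^ 2 * n0 R (v i) := by
    unfold n0
    rw [← integral_const_mul]
    refine setIntegral_mono_on (intQ (((hus i).continuous.mul (hvs i).continuous).pow 2) R)
      ((intQ ((hvs i).continuous.pow 2) R).const_mul _)
      Metric.isClosed_closedBall.measurableSet fun z hz => ?_
    have h4 : |u i z| ≤ C1 := h1 i z hz
    have h5 : u i z ^ 2 ≤ C1 ^ 2 := by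
      rw [← sq_abs]
      exact pow_le_pow_left₀ (abs_nonneg _) h4 2
    show (u i z * v i z) ^ 2 ≤ C1 ^ 2 * v i z ^ 2
    rw [mul_pow]
    exact mul_le_mul_of_nonneg_right h5 (sq_nonneg _)
  show n0 R (fun z => u i z * v i z) ≤ C1 ^ 2 * |C2|
  exact h6.trans (mul_le_mul_of_nonneg_left (h3.trans (le_abs_self _)) (sq_nonneg _))

theorem A1b_pd_exp {f : Pl → ℝ} (hf : ContDiff ℝ ∞ f) (b : Bool) (z : Pl) :
    pd b (fun y => Real.exp (f y)) z = Real.exp (f z) * pd b f z := by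
  have h := (CU_diff hf z).hasFDerivAt.exp.fderiv
  cases b
  · show fderiv ℝ (fun y => Real.exp (f y)) z (0, 1) = Real.exp (f z) * fderiv ℝ f z (0, 1)
    rw [h]
    rfl
  · show fderiv ℝ (fun y => Real.exp (f y)) z (1, 0) = Real.exp (f z) * fderiv ℝ f z (1, 0)
    rw [h]
    rfl

theorem A1b_exp0 {u : ι → Pl → ℝ} (hu : SB 0 u) : SB 0 (fun i z => Real.exp (u i z)) := by
  intro l hl R
  obtain rfl : l = [] := List.length_eq_zero_iff.1 (Nat.le_zero.1 hl)
  obtain ⟨C1, h1⟩ := hu [] le_rfl R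
  refine ⟨Real.exp C1, fun i z hz => ?_⟩
  have h3 : |u i z| ≤ C1 := h1 i z hz
  show |Real.exp (u i z)| ≤ Real.exp C1
  rw [abs_of_pos (Real.exp_pos _)]
  exact Real.exp_le_exp.2 ((le_abs_self _).trans h3)

theorem SB_mul {j : ℕ} {u v : ι → Pl → ℝ} (hus : ∀ i, ContDiff ℝ ∞ (u i))
    (hvs : ∀ i, ContDiff ℝ ∞ (v i)) (hu : SB j u) (hv : SB j v) :
    SB j (fun i z => u i z * v i z) := by
  induction j generalizing u v with
  | zero => exact A1b_mul0 hu hv
  | succ j ih =>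
    obtain ⟨hu0, hu1⟩ := SB_succ.1 hu
    obtain ⟨hv0, hv1⟩ := SB_succ.1 hv
    refine SB_succ.2 ⟨A1b_mul0 hu0 hv0, fun b => ?_⟩
    have hus' : ∀ i, ContDiff ℝ ∞ (pd b (u i)) := fun i => smooth_pd (hus i) b
    have hvs' : ∀ i, ContDiff ℝ ∞ (pd b (v i)) := fun i => smooth_pd (hvs i) b
    have h1 : SB j (fun i z => pd b (u i) z * v i z) :=
      ih hus' hvs (hu1 b) (SB_mono (Nat.le_succ j) hv)
    have h2 : SB j (fun i z => u i z * pd b (v i) z) :=
      ih hus hvs' (SB_mono (Nat.le_succ j) hu) (hv1 b)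
    have h3 := SB_add (fun i => (hus' i).mul (hvs i)) (fun i => (hus i).mul (hvs' i)) h1 h2
    have e : (fun i => pd b (fun z => u i z * v i z)) =
        fun i z => pd b (u i) z * v i z + u i z * pd b (v i) z := by
      funext i z
      exact pd_mul (hus i) (hvs i) b z
    rw [e]
    exact h3

theorem SBLB_mul {j : ℕ} {u v : ι → Pl → ℝ} (hus : ∀ i, ContDiff ℝ ∞ (u i))
    (hvs : ∀ i, ContDiff ℝ ∞ (v i)) (hu : SB j u) (hv : LB j v) :
    LB j (fun i z => u i z * v i z) := by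
  induction j generalizing u v with
  | zero => exact A1b_mulL0 hus hvs hu hv
  | succ j ih =>
    obtain ⟨hu0, hu1⟩ := SB_succ.1 hu
    obtain ⟨hv0, hv1⟩ := LB_succ.1 hv
    refine LB_succ.2 ⟨A1b_mulL0 hus hvs hu0 hv0, fun b => ?_⟩
    have hus' : ∀ i, ContDiff ℝ ∞ (pd b (u i)) := fun i => smooth_pd (hus i) b
    have hvs' : ∀ i, ContDiff ℝ ∞ (pd b (v i)) := fun i => smooth_pd (hvs i) b
    have h1 : LB j (fun i z => pd b (u i) z * v i z) :=
      ih hus' hvs (hu1 b) (LB_mono (Nat.le_succ j) hv)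
    have h2 : LB j (fun i z => u i z * pd b (v i) z) :=
      ih hus hvs' (SB_mono (Nat.le_succ j) hu) (hv1 b)
    have h3 := LB_add (fun i => (hus' i).mul (hvs i)) (fun i => (hus i).mul (hvs' i)) h1 h2
    have e : (fun i => pd b (fun z => u i z * v i z)) =
        fun i z => pd b (u i) z * v i z + u i z * pd b (v i) z := by
      funext i z
      exact pd_mul (hus i) (hvs i) b z
    rw [e]
    exact h3

theorem SB_exp {j : ℕ} {u : ι → Pl → ℝ} (hus : ∀ i, ContDiff ℝ ∞ (u i)) (hu : SB j u) :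
    SB j (fun i z => Real.exp (u i z)) := by
  induction j with
  | zero => exact A1b_exp0 hu
  | succ j ih =>
    obtain ⟨hu0, hu1⟩ := SB_succ.1 hu
    refine SB_succ.2 ⟨A1b_exp0 hu0, fun b => ?_⟩
    have h1 : SB j (fun i z => Real.exp (u i z) * pd b (u i) z) :=
      SB_mul (fun i => (hus i).exp) (fun i => smooth_pd (hus i) b)
        (ih (SB_mono (Nat.le_succ j) hu)) (hu1 b)
    have e : (fun i => pd b (fun z => Real.exp (u i z))) =
        fun i z => Real.exp (u i z) * pd b (u i) z := by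
      funext i z
      exact A1b_pd_exp (hus i) b z
    rw [e]
    exact h1

theorem LB_exp {j : ℕ} {u : ι → Pl → ℝ} (hus : ∀ i, ContDiff ℝ ∞ (u i)) (hu : SB j u)
    (hu' : LB (j + 1) u) : LB (j + 1) (fun i z => Real.exp (u i z)) := by
  have hes : ∀ i, ContDiff ℝ ∞ fun z => Real.exp (u i z) := fun i => (hus i).exp
  have he := SB_exp hus hu
  refine LB_succ.2 ⟨LB_of_SB hes (SB_mono (Nat.zero_le j) he), fun b => ?_⟩
  have h1 : LB j (fun i z => Real.exp (u i z) * pd b (u i) z) :=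
    SBLB_mul hes (fun i => smooth_pd (hus i) b) he ((LB_succ.1 hu').2 b)
  have e : (fun i => pd b (fun z => Real.exp (u i z))) =
      fun i z => Real.exp (u i z) * pd b (u i) z := by
    funext i z
    exact A1b_pd_exp (hus i) b z
  rw [e]
  exact h1

end U36
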