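import Pool.Agent.LibU36.Defs

/-! ROW A2 : Sobolev, elliptic regularity, limits. MEDIUM. PLAN. `LB_SB`: for a word `l` of length at most `j` apply `interp2` (LibQR40/INTb) to `v = Dw l (u i)`; `n1 (R + 1) v`, `n2 (R + 1) v` are sums of `n0 (R + 1) (Dw w v)`, `w` of length 1 and 2 (`IT2_n1`, `IT2_n2` in IT2), `Dw w (Dw l f) = Dw (w ++ l) f` (`IT2a_app`).
`LB_step`: a word of length `j + 2` is `b :: b' :: l`, `Dw (b :: b' :: l) f = Dw [b, b'] (Dw l f)` (`IT2_append`), `IT2_two`, `elliptic_int` (EI) for `v = Dw l (u i)`, `Lu A (Dw l f) = Dw l (Lu A f) + T f`, `T` of order `j + 1` (`commutator`, DOa; `do_bound`, DOb), `n0_add_le`. The model is `bd_step` in IT2.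
`LB_ULim`: `cauchy_Dw` in IT2a is the model: by induction on `l`, `CauchyL (fun n => Dw l (u n))`, with `interp1` (INTa) and the bounds `LB`; then `interp2` gives `|Dw l (u n) z - Dw l (u m) z| ≤ δ` on `Q R`, and `smooth_limit` (SLa). -/

open MeasureTheory Set Filter Topology
open scoped ContDiff unitInterval

namespace U36

open BGS QR

variable {ι : Type}

theorem A2_bd {j : ℕ} {u : ι → Pl → ℝ} (hu : LB j u) {l : List Bool} (hl : l.length ≤ j) (R : ℝ) :
    ∃ C : ℝ, 0 < C ∧ ∀ i, n0 R (Dw l (u i)) ≤ C := by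
  obtain ⟨C, hC⟩ := hu l hl R
  exact ⟨max C 1, lt_of_lt_of_le one_pos (le_max_right _ _),
    fun i => (hC i).trans (le_max_left _ _)⟩

theorem A2_low {j : ℕ} {u : ι → Pl → ℝ} (hus : ∀ i, ContDiff ℝ ∞ (u i)) (hu : LB (j + 2) u)
    {l : List Bool} (hl : l.length ≤ j) (R : ℝ) : ∃ C : ℝ, 0 < C ∧ ∀ i,
      n0 R (Dw l (u i)) + n1 R (Dw l (u i)) + n2 R (Dw l (u i)) ≤ C := by
  obtain ⟨M0, hM0, h0⟩ := A2_bd hu (l := l) (by omega) R
  obtain ⟨M1, hM1, h1⟩ := A2_bd hu (l := [true] ++ l)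
    (by simp only [List.length_append, List.length_cons, List.length_nil]; omega) R
  obtain ⟨M2, hM2, h2⟩ := A2_bd hu (l := [false] ++ l)
    (by simp only [List.length_append, List.length_cons, List.length_nil]; omega) R
  obtain ⟨M3, hM3, h3⟩ := A2_bd hu (l := [true, true] ++ l)
    (by simp only [List.length_append, List.length_cons, List.length_nil]; omega) R
  obtain ⟨M4, hM4, h4⟩ := A2_bd hu (l := [true, false] ++ l)
    (by simp only [List.length_append, List.length_cons, List.length_nil]; omega) R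
  obtain ⟨M5, hM5, h5⟩ := A2_bd hu (l := [false, false] ++ l)
    (by simp only [List.length_append, List.length_cons, List.length_nil]; omega) R
  refine ⟨M0 + (M1 + M2) + (M3 + M4 + M5), by positivity, fun i => ?_⟩
  have hsm := smooth_Dw (hus i) l
  rw [IT2_n1 R hsm, IT2_n2 R hsm, IT2a_app, IT2a_app, IT2a_app, IT2a_app, IT2a_app]
  have g0 := h0 i
  have g1 := h1 i
  have g2 := h2 i
  have g3 := h3 i
  have g4 := h4 i
  have g5 := h5 i
  linarith

theorem LB_SB {j : ℕ} {u : ι → Pl → ℝ} (hus : ∀ i, ContDiff ℝ ∞ (u i)) (hu : LB (j + 2) u) :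
    SB j u := by
  intro l hl R
  obtain ⟨C, hC, hint⟩ := interp2 R
  obtain ⟨M, hM, hlow⟩ := A2_low hus hu hl (R + 1)
  refine ⟨√(C * M), fun i z hz => ?_⟩
  have hsm := smooth_Dw (hus i) l
  have h := hint _ hsm z hz
  have h1 := n1_nonneg (R + 1) (Dw l (u i))
  have h2 := n2_nonneg (R + 1) (Dw l (u i))
  have h3 := hlow i
  have h4 : √(n0 (R + 1) (Dw l (u i))) ≤ √M := Real.sqrt_le_sqrt (by linarith)
  have h5 : √(n0 (R + 1) (Dw l (u i)) + n1 (R + 1) (Dw l (u i)) + n2 (R + 1) (Dw l (u i))) ≤ √M :=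
    Real.sqrt_le_sqrt h3
  have h6 : √(n0 (R + 1) (Dw l (u i))) *
      √(n0 (R + 1) (Dw l (u i)) + n1 (R + 1) (Dw l (u i)) + n2 (R + 1) (Dw l (u i))) ≤ M := by
    refine (mul_le_mul h4 h5 (Real.sqrt_nonneg _) (Real.sqrt_nonneg _)).trans ?_
    rw [Real.mul_self_sqrt hM.le]
  exact Real.abs_le_sqrt (h.trans (mul_le_mul_of_nonneg_left h6 hC.le))

theorem A2_sum {j : ℕ} {u : ι → Pl → ℝ} (hu : LB j u) (R : ℝ) :
    ∃ C : ℝ, ∀ i, ∑ l ∈ words j, n0 R (Dw l (u i)) ≤ C := by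
  classical
  have h : ∀ l : List Bool, ∃ C : ℝ, l ∈ words j → ∀ i, n0 R (Dw l (u i)) ≤ C := by
    intro l
    by_cases hl : l ∈ words j
    · obtain ⟨C, h⟩ := hu l (mem_words.1 hl) R
      exact ⟨C, fun _ => h⟩
    · exact ⟨0, fun h => absurd h hl⟩
  choose C hC using h
  exact ⟨∑ l ∈ words j, C l, fun i => Finset.sum_le_sum fun l hl => hC l hl i⟩

theorem LB_step (A : Coef) {j : ℕ} {u : ι → Pl → ℝ} (hus : ∀ i, ContDiff ℝ ∞ (u i))
    (hu : LB (j + 1) u) (hL : LB j (fun i => Lu A (u i))) : LB (j + 2) u := by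
  intro w hwl R
  by_cases hwk : w.length ≤ j + 1
  · exact hu w hwk R
  obtain ⟨b, b', l, rfl⟩ : ∃ b b' l, w = b :: b' :: l := by
    match w, hwk with
    | [], h => exact absurd (Nat.zero_le _) h
    | [b], h => exact absurd (by simp) h
    | b :: b' :: l, _ => exact ⟨b, b', l, rfl⟩
  have hl : l.length = j := by
    simp only [List.length_cons] at hwl hwk
    omega
  have hK := commutator A l
  obtain ⟨C, hC, hell⟩ := elliptic_int A R
  obtain ⟨D, hD, hdo⟩ := do_bound hK (R + 1)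
  have hu' : LB (l.length + 1) u := by rw [hl]; exact hu
  obtain ⟨B, hB⟩ := A2_sum hu' (R + 1)
  obtain ⟨E, hE⟩ := hL l hl.le (R + 1)
  obtain ⟨M0, hM0⟩ := hu l (by omega) (R + 1)
  obtain ⟨M1, hM1⟩ := hu ([true] ++ l) (by
    simp only [List.length_append, List.length_cons, List.length_nil]; omega) (R + 1)
  obtain ⟨M2, hM2⟩ := hu ([false] ++ l) (by
    simp only [List.length_append, List.length_cons, List.length_nil]; omega) (R + 1)
  refine ⟨C * ((2 * E + 2 * (D * B)) + (M1 + M2) + M0), fun i => ?_⟩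
  have hsm := smooth_Dw (hus i) l
  have hLs : ContDiff ℝ ∞ (Dw l (Lu A (u i))) := smooth_Dw (smooth_Lu A (hus i)) l
  have hT : ContDiff ℝ ∞ (fun z => Lu A (Dw l (u i)) z - Dw l (Lu A (u i)) z) :=
    do_smooth hK (hus i)
  rw [IT2_append]
  refine (IT2_two R hsm b b').trans ((hell _ hsm).trans (mul_le_mul_of_nonneg_left ?_ hC.le))
  have e1 : n0 (R + 1) (Lu A (Dw l (u i))) ≤ 2 * E + 2 * (D * B) := by
    have h1 := n0_add_le (R + 1) hLs.continuous hT.continuous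
    have h2 : (fun z => Dw l (Lu A (u i)) z +
        (Lu A (Dw l (u i)) z - Dw l (Lu A (u i)) z)) = Lu A (Dw l (u i)) := by
      funext z
      ring
    rw [h2] at h1
    have h3 := hE i
    have h4 := (hdo (u i) (hus i)).trans (mul_le_mul_of_nonneg_left (hB i) hD.le)
    linarith
  have e2 : n1 (R + 1) (Dw l (u i)) ≤ M1 + M2 := by
    rw [IT2_n1 _ hsm, IT2a_app, IT2a_app]
    exact add_le_add (hM1 i) (hM2 i)
  exact add_le_add (add_le_add e1 e2) (hM0 i)

theorem A2_sub {j : ℕ} {u : ℕ → Pl → ℝ} (hus : ∀ n, ContDiff ℝ ∞ (u n)) (hu : LB j u) :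
    LB j (fun p : ℕ × ℕ => fun z => u p.1 z - u p.2 z) := by
  intro l hl R
  obtain ⟨C, hC⟩ := hu l hl R
  refine ⟨2 * C + 2 * C, fun p => ?_⟩
  have h1 : Dw l (fun z => u p.1 z - u p.2 z) = fun z => Dw l (u p.1) z - Dw l (u p.2) z := by
    funext z
    exact Dw_sub (hus p.1) (hus p.2) l z
  show n0 R (Dw l (fun z => u p.1 z - u p.2 z)) ≤ _
  rw [h1]
  refine (IT2a_sub_le R (smooth_Dw (hus p.1) l).continuous
    (smooth_Dw (hus p.2) l).continuous).trans ?_
  have h2 := hC p.1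
  have h3 := hC p.2
  linarith

theorem A2_small {C M δ a b : ℝ} (hC : 0 < C) (hδ : 0 < δ) (ha : a ≤ (δ / (C * (√M + 1))) ^ 2)
    (hb : b ≤ M) : C * (√a * √b) ≤ δ := by
  have hsM : 0 ≤ √M := Real.sqrt_nonneg M
  have hη0 : 0 < δ / (C * (√M + 1)) := by positivity
  have h1 : √a ≤ δ / (C * (√M + 1)) := by
    rw [Real.sqrt_le_left hη0.le]
    exact ha
  have h2 : √b ≤ √M + 1 := (Real.sqrt_le_sqrt hb).trans (by linarith)
  calc C * (√a * √b) ≤ C * (δ / (C * (√M + 1)) * (√M + 1)) :=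
        mul_le_mul_of_nonneg_left (mul_le_mul h1 h2 (Real.sqrt_nonneg _) hη0.le) hC.le
    _ = δ := by field_simp

theorem LB_ULim {u : ℕ → Pl → ℝ} (hus : ∀ n, ContDiff ℝ ∞ (u n)) (hu : ∀ j, LB j u)
    (hc : CauchyL u) : ∃ V : Pl → ℝ, ULim u V := by
  have hds : ∀ p : ℕ × ℕ, ContDiff ℝ ∞ (fun z => u p.1 z - u p.2 z) := fun p =>
    (hus p.1).sub (hus p.2)
  have hd : ∀ j, LB j (fun p : ℕ × ℕ => fun z => u p.1 z - u p.2 z) := fun j => A2_sub hus (hu j)
  have hcl : ∀ l : List Bool, ∀ R δ : ℝ, 0 < δ → ∃ N : ℕ, ∀ n, N ≤ n → ∀ m, N ≤ m →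
      n0 R (Dw l (fun z => u n z - u m z)) ≤ δ := by
    intro l
    induction l with
    | nil => exact hc
    | cons b l ih =>
      intro R δ hδ
      obtain ⟨C, hC, hint⟩ := interp1 R
      obtain ⟨M, hM, hlow⟩ := A2_low hds (hd (l.length + 2)) le_rfl (R + 1)
      obtain ⟨N, hN⟩ := ih (R + 1) ((δ / (C * (√M + 1))) ^ 2) (by positivity)
      refine ⟨N, fun n hn m hm => ?_⟩
      have hsm := smooth_Dw (hds (n, m)) l
      exact (IT2a_pd R hsm b).trans ((hint _ hsm).trans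
        (A2_small hC hδ (hN n hn m hm) (hlow (n, m))))
  refine smooth_limit u hus fun l R δ hδ => ?_
  obtain ⟨C, hC, hint⟩ := interp2 R
  obtain ⟨M, hM, hlow⟩ := A2_low hds (hd (l.length + 2)) le_rfl (R + 1)
  obtain ⟨N, hN⟩ := hcl l (R + 1) ((δ ^ 2 / (C * (√M + 1))) ^ 2) (by positivity)
  refine ⟨N, fun n hn m hm z hz => ?_⟩
  have hsm := smooth_Dw (hds (n, m)) l
  rw [← Dw_sub (hus n) (hus m) l z]
  have h := (hint _ hsm z hz).trans
    (A2_small hC (by positivity : 0 < δ ^ 2) (hN n hn m hm) (hlow (n, m)))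
  exact abs_le_of_sq_le_sq h hδ.le

end U36
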