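import Pool.Agent.LibU36.DefsB

/-! ROW B1 : Fermi coordinates in curvature `-1`. SHORT/MEDIUM. PLAN. `JA_cosh`: `JA_ode` (LibBR70/H1g): `JA'' = -K JA = JA`, `J_zero`: `JA 0 = 1`, `JA' 0 = 0`; `(JA + JA') exp (-t)` and `(JA - JA') exp t` are constant (derivative zero), so `JA = cosh`. `Fm_met`: `Fm_fderiv` (LibBR73/AN1), `qf_fr` as in `Fm_expand`.
`Fm_dpos`: `Fm_det`, `JA_ge` or `JA_cosh`, `√(dt m) > 0`. -/

open MeasureTheory Set Filter Topology
open scoped ContDiff unitInterval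

namespace U36

open BGS BR

variable {Γ : Type} [Group Γ] [MulAction Γ Pl] {D : Set Pl}

private theorem B1_eu_sq (v : Pl) : eu v ^ 2 = v.1 ^ 2 + v.2 ^ 2 := by
  unfold eu
  exact Real.sq_sqrt (by positivity)

private theorem B1_eu_rot (v : Pl) : eu (rot v) = eu v := by
  unfold eu rot
  congr 1
  show (-v.2) ^ 2 + v.1 ^ 2 = v.1 ^ 2 + v.2 ^ 2
  ring

private theorem B1_e_unit (hX : Surface Γ D) {m : Pl → Co} (hm : HM Γ m) {x0 v0 : Pl}
    (hv : eu v0 = 1) (s y : ℝ) :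
    eu (gfl m s (x0, v0)).2 = 1 ∧
      eu (gfl m y ((gfl m s (x0, v0)).1, rot (gfl m s (x0, v0)).2)).2 = 1 := by
  have h1 : eu (gfl m s (x0, v0)).2 = 1 := by
    rw [gfl_eu hX hm]
    exact hv
  refine ⟨h1, ?_⟩
  rw [gfl_eu hX hm]
  show eu (rot (gfl m s (x0, v0)).2) = 1
  rw [B1_eu_rot, h1]

private theorem B1_comb {e : Pl} (he : eu e = 1) (a b : ℝ) :
    eu (a • e - b • rot e) ^ 2 = a ^ 2 + b ^ 2 := by
  have h1 := B1_eu_sq e
  rw [he] at h1
  rw [B1_eu_sq]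
  show (a * e.1 - b * (-e.2)) ^ 2 + (a * e.2 - b * e.1) ^ 2 = a ^ 2 + b ^ 2
  have h2 : (a * e.1 - b * (-e.2)) ^ 2 + (a * e.2 - b * e.1) ^ 2 =
      (a ^ 2 + b ^ 2) * (e.1 ^ 2 + e.2 ^ 2) := by ring
  rw [h2, ← h1]
  ring

theorem JA_cosh (hX : Surface Γ D) {m : Pl → Co} (hm : HM Γ m) (hK : ∀ z, curv m z = -1)
    {x u : Pl} (hu : eu u = 1) (t : ℝ) : JA m x u t = Real.cosh t := by
  have h1 := fun t => (JA_ode hX hm (x := x) (u := u) hu t).1
  have h2 : ∀ t, HasDerivAt (deriv (JA m x u)) (JA m x u t) t := by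
    intro t
    have h := (JA_ode hX hm (x := x) (u := u) hu t).2
    rw [hK, neg_neg, one_mul] at h
    exact h
  have h0 := J_zero hX hm (x := x) (u := u) hu
  have hg : ∀ s, HasDerivAt (fun s => JA m x u s * Real.cosh s - deriv (JA m x u) s * Real.sinh s) 0 s := by
    intro s
    have h := ((h1 s).mul (Real.hasDerivAt_cosh s)).sub ((h2 s).mul (Real.hasDerivAt_sinh s))
    have e : deriv (JA m x u) s * Real.cosh s + JA m x u s * Real.sinh s -
        (JA m x u s * Real.sinh s + deriv (JA m x u) s * Real.cosh s) = 0 := by ring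
    rw [e] at h
    exact h
  have hk : ∀ s, HasDerivAt (fun s => JA m x u s * Real.sinh s - deriv (JA m x u) s * Real.cosh s) 0 s := by
    intro s
    have h := ((h1 s).mul (Real.hasDerivAt_sinh s)).sub ((h2 s).mul (Real.hasDerivAt_cosh s))
    have e : deriv (JA m x u) s * Real.sinh s + JA m x u s * Real.cosh s -
        (JA m x u s * Real.cosh s + deriv (JA m x u) s * Real.sinh s) = 0 := by ring
    rw [e] at h
    exact h
  have hgc := is_const_of_deriv_eq_zero (fun s => (hg s).differentiableAt) (fun s => (hg s).deriv) t 0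
  have hkc := is_const_of_deriv_eq_zero (fun s => (hk s).differentiableAt) (fun s => (hk s).deriv) t 0
  simp only [h0.1, h0.2.1, Real.cosh_zero, Real.sinh_zero, mul_zero, mul_one, sub_zero] at hgc hkc
  have hcs := Real.cosh_sq t
  linear_combination Real.cosh t * hgc - Real.sinh t * hkc - JA m x u t * hcs

theorem Fm_met (hX : Surface Γ D) {m : Pl → Co} (hm : HM Γ m) (hK : ∀ z, curv m z = -1)
    {x0 v0 : Pl} (hv : eu v0 = 1) (p w : Pl) :
    qf (m (Fm m x0 v0 p)) (fderiv ℝ (Fm m x0 v0) p w) =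
      (w.1 * Real.cosh p.2) ^ 2 + w.2 ^ 2 := by
  obtain ⟨hu, heu⟩ := B1_e_unit hX hm hv p.1 p.2
  have hu' : eu (rot (gfl m p.1 (x0, v0)).2) = 1 := by rw [B1_eu_rot, hu]
  rw [Fm_fderiv hX hm hv p w rfl rfl, qf_fr (hm.pos _).1 (hm.pos _).2, B1_comb heu,
    JA_cosh hX hm hK hu']
  ring

theorem Fm_dpos (hX : Surface Γ D) {m : Pl → Co} (hm : HM Γ m) {x0 v0 : Pl} (hv : eu v0 = 1)
    (p : Pl) : 0 < (fderiv ℝ (Fm m x0 v0) p).det := by
  obtain ⟨hu, _⟩ := B1_e_unit hX hm hv p.1 p.2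
  have hu' : eu (rot (gfl m p.1 (x0, v0)).2) = 1 := by rw [B1_eu_rot, hu]
  have h1 := JA_ge hX hm (x := (gfl m p.1 (x0, v0)).1) hu' p.2
  have h2 := Fm_det hX hm hv p (z := gfl m p.1 (x0, v0)) rfl
  have h3 : 0 < √(dt (m (Fm m x0 v0 p))) := Real.sqrt_pos.2 (hm.pos _).2
  rw [← h2] at h1
  by_contra h4
  have h5 : √(dt (m (Fm m x0 v0 p))) * (fderiv ℝ (Fm m x0 v0) p).det ≤ 0 :=
    mul_nonpos_of_nonneg_of_nonpos h3.le (not_lt.1 h4)
  linarith

end U36
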