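import Pool.Agent.LibU36.DefsB
import Pool.Agent.LibU36.B3

/-! ROW C1 : pull-back of metrics, algebra. SHORT/MEDIUM. PLAN. `qf_pbk`: `PER_apply` (LibBGR/Per) for `A = fderiv ℝ f z`: `A v = v.1 • A (1, 0) + v.2 • A (0, 1)`, `ring`. `qf_ext`: `v = (1, 0), (0, 1), (1, 1)`. `dt_pbk`: `PER_det`, `ring`. `pbk_pos`: `(pbk f m z).1 = qf (m (f z)) (A (1, 0))`, positive since `A (1, 0) ≠ 0` (det) and the form is positive definite.
`pbk_smooth`: components are polynomials in the smooth `m ∘ f` and `z ↦ fderiv ℝ f z (1, 0)`. `pbk_eq`, `pbk_eq'`: `qf_ext`, `qf_pbk`, `Df_left`, `Df_right` (B3). -/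

open MeasureTheory Set Filter Topology
open scoped ContDiff unitInterval

namespace U36

open BGS BR

theorem qf_pbk (f : Pl → Pl) (m : Pl → Co) (z v : Pl) :
    qf (pbk f m z) v = qf (m (f z)) (fderiv ℝ f z v) := by
  rw [PER_apply (fderiv ℝ f z) v]
  simp only [qf, pbk, bf]
  ring

theorem qf_ext {c c' : Co} (h : ∀ v, qf c v = qf c' v) : c = c' := by
  have h1 := h (1, 0)
  have h2 := h (0, 1)
  have h3 := h (1, 1)
  simp only [qf] at h1 h2 h3
  have e1 : c.1 = c'.1 := by linarith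
  have e2 : c.2.2 = c'.2.2 := by linarith
  have e3 : c.2.1 = c'.2.1 := by linarith
  exact Prod.ext e1 (Prod.ext e3 e2)

theorem dt_pbk (f : Pl → Pl) (m : Pl → Co) (z : Pl) :
    dt (pbk f m z) = dt (m (f z)) * (fderiv ℝ f z).det ^ 2 := by
  rw [PER_det (fderiv ℝ f z)]
  simp only [dt, pbk, bf]
  ring

private theorem C1_qf_pos {c : Co} (hc : 0 < c.1 ∧ 0 < dt c) {v : Pl} (hv : v ≠ 0) : 0 < qf c v := by
  obtain ⟨h1, h2⟩ := hc
  have e : c.1 * qf c v = (c.1 * v.1 + c.2.1 * v.2) ^ 2 + dt c * v.2 ^ 2 := by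
    unfold qf dt
    ring
  have h3 : 0 < c.1 * qf c v := by
    rw [e]
    by_cases h : v.2 = 0
    · have hv1 : v.1 ≠ 0 := fun h0 => hv (Prod.ext h0 h)
      rw [h]
      have : 0 < (c.1 * v.1) ^ 2 := by positivity
      nlinarith
    · have : 0 < dt c * v.2 ^ 2 := by positivity
      positivity
  exact (pos_iff_pos_of_mul_pos h3).1 h1

theorem pbk_pos {f : Pl → Pl} {m : Pl → Co} (hm : ∀ z, 0 < (m z).1 ∧ 0 < dt (m z))
    (hd : ∀ z, (fderiv ℝ f z).det ≠ 0) (z : Pl) : 0 < (pbk f m z).1 ∧ 0 < dt (pbk f m z) := by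
  constructor
  · have h1 : (pbk f m z).1 = qf (m (f z)) (fderiv ℝ f z (1, 0)) := by
      simp only [qf, pbk, bf]
      ring
    rw [h1]
    apply C1_qf_pos (hm (f z))
    intro h0
    apply hd z
    rw [PER_det, h0]
    simp
  · rw [dt_pbk]
    have := (hm (f z)).2
    have := hd z
    positivity

theorem pbk_smooth {f : Pl → Pl} (hf : ContDiff ℝ ∞ f) {m : Pl → Co} (hm : ContDiff ℝ ∞ m) :
    ContDiff ℝ ∞ (pbk f m) := by
  have h0 : ContDiff ℝ ∞ (fderiv ℝ f) := hf.fderiv_right (m := ∞) (by simp)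
  have h1 : ContDiff ℝ ∞ fun z => fderiv ℝ f z (1, 0) := h0.clm_apply contDiff_const
  have h2 : ContDiff ℝ ∞ fun z => fderiv ℝ f z (0, 1) := h0.clm_apply contDiff_const
  have h3 : ContDiff ℝ ∞ fun z => m (f z) := hm.comp hf
  have a1 := h1.fst
  have a2 := h1.snd
  have b1 := h2.fst
  have b2 := h2.snd
  have c1 := h3.fst
  have c2 := h3.snd.fst
  have c3 := h3.snd.snd
  unfold pbk
  simp only [bf]
  refine ContDiff.prodMk ?_ (ContDiff.prodMk ?_ ?_) <;> fun_prop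

theorem pbk_smul (f : Pl → Pl) (g : Pl → ℝ) (m : Pl → Co) (z : Pl) :
    pbk f (fun y => g y • m y) z = g (f z) • pbk f m z := by
  simp only [pbk, bf, Prod.smul_fst, Prod.smul_snd, Prod.smul_mk, smul_eq_mul]
  ext <;> ring

theorem pbk_symm {e : Pl ≃ Pl} (he : Df e) (m : Pl → Co) : pbk e (pbk e.symm m) = m := by
  funext z
  apply qf_ext
  intro v
  rw [qf_pbk, qf_pbk, Equiv.symm_apply_apply, Df_left he]

theorem pbk_symm' {e : Pl ≃ Pl} (he : Df e) (m : Pl → Co) : pbk e.symm (pbk e m) = m := by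
  funext z
  apply qf_ext
  intro v
  obtain ⟨y, rfl⟩ := e.surjective z
  rw [qf_pbk, qf_pbk, Equiv.symm_apply_apply, Df_right he]

theorem pbk_eq {e : Pl ≃ Pl} (he : Df e) {m m' : Pl → Co}
    (h : ∀ z w, qf (m' (e z)) (fderiv ℝ e z w) = qf (m z) w) : pbk e.symm m = m' := by
  have h1 : pbk e m' = m := by
    funext z
    apply qf_ext
    intro v
    rw [qf_pbk, h]
  rw [← h1, pbk_symm' he]

end U36
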