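import Pool.Agent.LibU36.DefsB

/-! ROW C2 : theorema egregium for a pull-back. SHORT/MEDIUM. PLAN. `Egr_main` in LibBGS/Egr is this statement for `f = γ • ·`, `m' = m`. Copy its proof for a general smooth `f` and two metrics (`Curv_alg` is abstract; the relations e1, e2, e3 hold with the coefficients of `m'` on the right). Then `curv_pbk` with `qf_pbk`-type relations (the definition of `pbk`, `PER_apply`, `ring`). -/

open MeasureTheory Set Filter Topology
open scoped ContDiff unitInterval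

namespace U36

open BGS BR

theorem curv_pull {f : Pl → Pl} (hf : ContDiff ℝ ∞ f) {m m' : Pl → Co} (hm : ContDiff ℝ ∞ m)
    (hm' : ContDiff ℝ ∞ m') (hp : ∀ z, 0 < dt (m z)) (hp' : ∀ z, 0 < dt (m' z))
    (h : ∀ z v : Pl, qf (m (f z)) (fderiv ℝ f z v) = qf (m' z) v) (z : Pl) :
    curv m' z = curv m (f z) := by
  set E : Egr_S := ⟨fun w => (m w).1, hm.fst⟩ with hE
  set F : Egr_S := ⟨fun w => (m w).2.1, hm.snd.fst⟩ with hF
  set G : Egr_S := ⟨fun w => (m w).2.2, hm.snd.snd⟩ with hG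
  set E' : Egr_S := ⟨fun w => (m' w).1, hm'.fst⟩ with hE'
  set F' : Egr_S := ⟨fun w => (m' w).2.1, hm'.snd.fst⟩ with hF'
  set G' : Egr_S := ⟨fun w => (m' w).2.2, hm'.snd.snd⟩ with hG'
  set a : Egr_S := ⟨fun w => (f w).1, hf.fst⟩ with ha
  set b : Egr_S := ⟨fun w => (f w).2, hf.snd⟩ with hb
  set T : Egr_S → Egr_S := Egr_T f hf with hT
  have hcol : ∀ w v : Pl, fderiv ℝ f w v = (fderiv ℝ a.1 w v, fderiv ℝ b.1 w v) := by
    intro w v
    have h0 : HasFDerivAt f (fderiv ℝ f w) w := ((hf.differentiable (by simp)) w).hasFDerivAt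
    have h1 : HasFDerivAt a.1 ((ContinuousLinearMap.fst ℝ ℝ ℝ).comp (fderiv ℝ f w)) w :=
      (ContinuousLinearMap.fst ℝ ℝ ℝ).hasFDerivAt.comp w h0
    have h2 : HasFDerivAt b.1 ((ContinuousLinearMap.snd ℝ ℝ ℝ).comp (fderiv ℝ f w)) w :=
      (ContinuousLinearMap.snd ℝ ℝ ℝ).hasFDerivAt.comp w h0
    rw [h1.fderiv, h2.fderiv]
    rfl
  have key := Curv_alg Egr_X Egr_Y T
    (fun u v => Subtype.ext (funext fun z => Egr_add u v (1, 0) z))
    (fun u v => Subtype.ext (funext fun z => Egr_add u v (0, 1) z))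
    (fun u v => Subtype.ext (funext fun z => Egr_mul u v (1, 0) z))
    (fun u v => Subtype.ext (funext fun z => Egr_mul u v (0, 1) z))
    (fun u => Subtype.ext (funext fun z => Egr_symm u.2 z))
    (Subtype.ext (funext fun z => Egr_const 2 2 rfl (1, 0) z))
    (Subtype.ext (funext fun z => Egr_const 2 2 rfl (0, 1) z))
    (Subtype.ext (funext fun z => Egr_const 0 0 rfl (1, 0) z))
    (Subtype.ext (funext fun z => Egr_const 0 0 rfl (0, 1) z))
    a b
    (fun u => Subtype.ext (funext fun z => Egr_chain f hf u (1, 0) z))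
    (fun u => Subtype.ext (funext fun z => Egr_chain f hf u (0, 1) z))
    E F G
  have hi : ∀ w v : Pl, qf (m (f w)) (fderiv ℝ a.1 w v, fderiv ℝ b.1 w v) = qf (m' w) v := by
    intro w v
    rw [← hcol]
    exact h w v
  have e1 : T E * (Egr_X a * Egr_X a) + 2 * (T F * (Egr_X a * Egr_X b)) +
      T G * (Egr_X b * Egr_X b) = E' := by
    apply Subtype.ext
    funext w
    have h := hi w (1, 0)
    simp only [qf] at h
    show (m (f w)).1 * (dx a.1 w * dx a.1 w) + 2 * ((m (f w)).2.1 * (dx a.1 w * dx b.1 w)) +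
      (m (f w)).2.2 * (dx b.1 w * dx b.1 w) = (m' w).1
    simp only [dx]
    linarith
  have e2 : T E * (Egr_Y a * Egr_Y a) + 2 * (T F * (Egr_Y a * Egr_Y b)) +
      T G * (Egr_Y b * Egr_Y b) = G' := by
    apply Subtype.ext
    funext w
    have h := hi w (0, 1)
    simp only [qf] at h
    show (m (f w)).1 * (dy a.1 w * dy a.1 w) + 2 * ((m (f w)).2.1 * (dy a.1 w * dy b.1 w)) +
      (m (f w)).2.2 * (dy b.1 w * dy b.1 w) = (m' w).2.2
    simp only [dy]
    linarith
  have e3 : T E * (Egr_X a * Egr_Y a) + T F * (Egr_X a * Egr_Y b + Egr_Y a * Egr_X b) +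
      T G * (Egr_X b * Egr_Y b) = F' := by
    apply Subtype.ext
    funext w
    have h1 := hi w (1, 0)
    have h2 := hi w (0, 1)
    have h3 := hi w (1, 1)
    have h4 : ((1 : ℝ), (1 : ℝ)) = (1, 0) + (0, 1) := by simp
    rw [h4] at h3
    simp only [map_add] at h3
    simp only [qf, Prod.fst_add, Prod.snd_add] at h1 h2 h3
    show (m (f w)).1 * (dx a.1 w * dy a.1 w) +
      (m (f w)).2.1 * (dx a.1 w * dy b.1 w + dy a.1 w * dx b.1 w) +
      (m (f w)).2.2 * (dx b.1 w * dy b.1 w) = (m' w).2.1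
    simp only [dx, dy]
    linarith
  rw [e1, e2, e3] at key
  have hz := congrFun (congrArg Subtype.val key) z
  have hN : (Curv_N Egr_X Egr_Y E' F' G').1 z =
      (dx a.1 z * dy b.1 z - dy a.1 z * dx b.1 z) ^ 4 *
        (Curv_N Egr_X Egr_Y E F G).1 (f z) := hz
  have hdt : dt (m' z) = (dx a.1 z * dy b.1 z - dy a.1 z * dx b.1 z) ^ 2 * dt (m (f z)) := by
    have a1 := congrFun (congrArg Subtype.val e1) z
    have a2 := congrFun (congrArg Subtype.val e2) z
    have a3 := congrFun (congrArg Subtype.val e3) z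
    have b1 : (m (f z)).1 * (dx a.1 z * dx a.1 z) + 2 * ((m (f z)).2.1 * (dx a.1 z * dx b.1 z)) +
      (m (f z)).2.2 * (dx b.1 z * dx b.1 z) = (m' z).1 := a1
    have b2 : (m (f z)).1 * (dy a.1 z * dy a.1 z) + 2 * ((m (f z)).2.1 * (dy a.1 z * dy b.1 z)) +
      (m (f z)).2.2 * (dy b.1 z * dy b.1 z) = (m' z).2.2 := a2
    have b3 : (m (f z)).1 * (dx a.1 z * dy a.1 z) +
      (m (f z)).2.1 * (dx a.1 z * dy b.1 z + dy a.1 z * dx b.1 z) +
      (m (f z)).2.2 * (dx b.1 z * dy b.1 z) = (m' z).2.1 := a3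
    unfold dt
    rw [← b1, ← b2, ← b3]
    ring
  rw [Egr_curv E' F' G' (fun _ => rfl) (fun _ => rfl) (fun _ => rfl) z,
    Egr_curv E F G (fun _ => rfl) (fun _ => rfl) (fun _ => rfl) (f z), hN, hdt]
  have h1 := hp' z
  have h2 := hp (f z)
  have h3 : dx a.1 z * dy b.1 z - dy a.1 z * dx b.1 z ≠ 0 := by
    intro h0
    rw [hdt, h0] at h1
    norm_num at h1
  field_simp

end U36
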