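import Pool.Agent.LibU36.DefsB
import Pool.Agent.LibU36.B3

/-! ROW C3 : the conjugated action. SHORT/MEDIUM. PLAN. `cj_smul` (DefsB): `γ • z = e (ofC γ • e.symm z)`. `Surface`: `smooth`: composition; `proper`: the set for `K` is the set for `e.symm '' K` (compact); `bdd`: `closure D` is compact, its image is compact; `meas`: `e '' D = e.symm ⁻¹' D` (`Equiv.image_eq_preimage_symm`);
`orbit`. `Ori`: chain rule, the determinant is `det (de) * det (dγ) * det (d e.symm)`, all positive (`Df_symm`). `Test`: `u ∘ e.symm`, `u ∘ e`. -/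

open MeasureTheory Set Filter Topology
open scoped ContDiff unitInterval

namespace U36

open BGS BR

variable {Γ : Type} [Group Γ] [MulAction Γ Pl] {D : Set Pl} {e : Pl ≃ Pl}

theorem cj_surface (hX : Surface Γ D) (he : Df e) : Surface (CjG Γ e) (e '' D) where
  smooth γ := he.smooth.comp ((hX.smooth (ofC γ)).comp he.smooth')
  proper K hK := by
    have hK' : IsCompact (e.symm '' K) := hK.image he.smooth'.continuous
    have h1 := hX.proper _ hK'
    have hinj : Function.Injective (ofC : CjG Γ e → Γ) := fun _ _ h => h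
    refine Set.Finite.subset (h1.preimage hinj.injOn) ?_
    rintro γ ⟨z, hz, hz'⟩
    rw [cj_smul] at hz'
    exact ⟨e.symm z, ⟨z, hz, rfl⟩, ⟨e (ofC γ • e.symm z), hz', e.symm_apply_apply _⟩⟩
  bdd := by
    have h1 : IsCompact (closure D) := hX.bdd.isCompact_closure
    have h2 := (h1.image he.smooth.continuous).isBounded
    exact h2.subset (Set.image_mono subset_closure)
  meas := by
    rw [e.image_eq_preimage_symm]
    exact he.smooth'.continuous.measurable hX.meas
  orbit z := by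
    obtain ⟨γ, hγ, hu⟩ := hX.orbit (e.symm z)
    refine ⟨toC e γ, ?_, fun δ hδ => ?_⟩
    · show toC e γ • z ∈ e '' D
      rw [cj_smul]
      exact ⟨_, hγ, rfl⟩
    · have h1 : δ • z ∈ e '' D := hδ
      rw [cj_smul] at h1
      obtain ⟨y, hy, hy'⟩ := h1
      rw [e.injective hy'] at hy
      exact hu (ofC δ) hy

theorem C3_fd (hX : Surface Γ D) (he : Df e) (γ : CjG Γ e) (z : Pl) :
    fderiv ℝ (fun w : Pl => γ • w) z =
      (fderiv ℝ e (ofC γ • e.symm z)).comp
        ((fderiv ℝ (fun w : Pl => ofC γ • w) (e.symm z)).comp (fderiv ℝ e.symm z)) := by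
  have h1 : HasFDerivAt e.symm (fderiv ℝ e.symm z) z :=
    (he.smooth'.differentiable (by simp) z).hasFDerivAt
  have h2 : HasFDerivAt (fun w : Pl => ofC γ • w)
      (fderiv ℝ (fun w : Pl => ofC γ • w) (e.symm z)) (e.symm z) :=
    ((hX.smooth (ofC γ)).differentiable (by simp) (e.symm z)).hasFDerivAt
  have h3 : HasFDerivAt e (fderiv ℝ e (ofC γ • e.symm z)) (ofC γ • e.symm z) :=
    (he.smooth.differentiable (by simp) _).hasFDerivAt
  exact (h3.comp z (h2.comp z h1)).fderiv

theorem cj_ori (hX : Surface Γ D) (he : Df e) (hO : Ori Γ) : Ori (CjG Γ e) := by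
  intro γ z
  rw [C3_fd hX he γ z, B3_det_comp, B3_det_comp]
  exact mul_pos (he.det _) (mul_pos (hO _ _) ((Df_symm he).det z))

theorem cj_test (he : Df e) {u : Pl → ℝ} (hu : u ∈ Test Γ) :
    (fun z => u (e.symm z)) ∈ Test (CjG Γ e) := by
  refine ⟨hu.1.comp he.smooth', fun γ z => ?_⟩
  show u (e.symm (γ • z)) = u (e.symm z)
  rw [cj_smul, e.symm_apply_apply, hu.2]

theorem cj_test' (he : Df e) {u : Pl → ℝ} (hu : u ∈ Test (CjG Γ e)) :
    (fun z => u (e z)) ∈ Test Γ := by
  refine ⟨hu.1.comp he.smooth, fun γ z => ?_⟩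
  show u (e (γ • z)) = u (e z)
  have h1 := hu.2 (toC e γ) (e z)
  rw [cj_smul, e.symm_apply_apply] at h1
  exact h1

/-- The metric is invariant under the conjugated group. -/
theorem cj_inv (hX : Surface Γ D) (he : Df e) {m : Pl → Co}
    (hi : ∀ (γ : Γ) (z v : Pl), qf (m (γ • z)) (fderiv ℝ (fun w : Pl => γ • w) z v) = qf (m z) v)
    {m' : Pl → Co} (h : ∀ z w, qf (m' (e z)) (fderiv ℝ e z w) = qf (m z) w)
    (γ : CjG Γ e) (z v : Pl) :
    qf (m' (γ • z)) (fderiv ℝ (fun w : Pl => γ • w) z v) = qf (m' z) v := by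
  rw [C3_fd hX he γ z, cj_smul]
  show qf (m' (e (ofC γ • e.symm z))) (fderiv ℝ e (ofC γ • e.symm z)
    (fderiv ℝ (fun w : Pl => ofC γ • w) (e.symm z) (fderiv ℝ e.symm z v))) = _
  rw [h, hi]
  have h1 := h (e.symm z) (fderiv ℝ e.symm z v)
  have h2 := Df_right he (e.symm z) v
  rw [e.apply_symm_apply] at h1 h2
  rw [← h1, h2]

theorem cj_inv' (hX : Surface Γ D) (he : Df e) {m' : Pl → Co}
    (hi : ∀ (γ : CjG Γ e) (z v : Pl),
      qf (m' (γ • z)) (fderiv ℝ (fun w : Pl => γ • w) z v) = qf (m' z) v)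
    {m : Pl → Co} (h : ∀ z w, qf (m' (e z)) (fderiv ℝ e z w) = qf (m z) w)
    (γ : Γ) (z v : Pl) :
    qf (m (γ • z)) (fderiv ℝ (fun w : Pl => γ • w) z v) = qf (m z) v := by
  have h1 := hi (toC e γ) (e z) (fderiv ℝ e z v)
  rw [C3_fd hX he (toC e γ) (e z), cj_smul, e.symm_apply_apply] at h1
  have h2 : qf (m' (e (γ • z))) (fderiv ℝ e (γ • z)
    (fderiv ℝ (fun w : Pl => γ • w) z (fderiv ℝ e.symm (e z) (fderiv ℝ e z v)))) =
      qf (m' (e z)) (fderiv ℝ e z v) := h1
  rw [Df_left he, h, h] at h2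
  exact h2

end U36
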