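import Pool.Agent.LibU36.C1
import Pool.Agent.LibU36.C2
import Pool.Agent.LibU36.C3

/-! ROW C4 : transport of the metrics. SHORT/MEDIUM. PLAN. `push`: `pos`: `pbk_pos`; `inv`: `cj_inv` (C3) with `qf_pbk`, `Df_left`; `neg`: `curv_pull` (C2); `area`: `∫_{e '' D} √dt (pbk e.symm m z) = ∫_D |det de| √dt (pbk e.symm m (e z)) = ∫_D √dt (m z)` (`integral_image_eq_integral_abs_det_fderiv_smul`, model `PER_one` in LibBGR/Per; `dt_pbk` for `pbk e (pbk e.symm m) = m`).
`pull` is the same with `pbk e` (`cj_inv'`). -/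

open MeasureTheory Set Filter Topology
open scoped ContDiff unitInterval

namespace U36

open BGS BR

variable {Γ : Type} [Group Γ] [MulAction Γ Pl] {D : Set Pl} {e : Pl ≃ Pl}

theorem C4_cv (hX : Surface Γ D) (he : Df e) (g : Pl → ℝ) :
    ∫ z in e '' D, g z = ∫ z in D, |(fderiv ℝ e z).det| * g (e z) :=
  integral_image_eq_integral_abs_det_fderiv_smul volume hX.meas (f' := fun z => fderiv ℝ e z)
    (fun z _ => ((he.smooth).differentiable (by simp) z).hasFDerivAt.hasFDerivWithinAt)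
    e.injective.injOn g

theorem C4_rho (f : Pl → Pl) (m : Pl → Co) (z : Pl) :
    |(fderiv ℝ f z).det| * √(dt (m (f z))) = √(dt (pbk f m z)) := by
  rw [dt_pbk, Real.sqrt_mul' _ (sq_nonneg _), Real.sqrt_sq_eq_abs, mul_comm]

theorem push_metric (hX : Surface Γ D) (he : Df e) (m : Mt Γ D) :
    IsMetric (CjG Γ e) (e '' D) (pbk e.symm m.1.1) := by
  have hq : ∀ z w, qf (pbk e.symm m.1.1 (e z)) (fderiv ℝ e z w) = qf (m.1.1 z) w := by
    intro z w
    rw [qf_pbk, Equiv.symm_apply_apply, Df_left he]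
  have hs := Df_symm he
  have hpos := pbk_pos (f := e.symm) m.2.pos (fun z => (hs.det z).ne')
  refine ⟨hpos, fun γ z v => cj_inv hX he m.2.inv hq γ z v, fun z => ?_, ?_⟩
  · have h := curv_pull (f := e.symm) he.smooth' (m := m.1.1) (m' := pbk e.symm m.1.1) m.1.2
      (pbk_smooth he.smooth' m.1.2) (fun z => (m.2.pos z).2) (fun z => (hpos z).2)
      (fun z v => (qf_pbk e.symm m.1.1 z v).symm) z
    rw [h]
    exact m.2.neg _
  · rw [C4_cv hX he]
    have h2 := m.2.area
    rw [← h2]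
    congr 1
    funext z
    rw [C4_rho e (pbk e.symm m.1.1) z, pbk_symm he]

/-- The image of a metric. -/
noncomputable def push (hX : Surface Γ D) (he : Df e) (m : Mt Γ D) : Mt (CjG Γ e) (e '' D) :=
  ⟨⟨pbk e.symm m.1.1, pbk_smooth he.smooth' m.1.2⟩, push_metric hX he m⟩

theorem pull_metric (hX : Surface Γ D) (he : Df e) (m : Mt (CjG Γ e) (e '' D)) :
    IsMetric Γ D (pbk e m.1.1) := by
  have hpos := pbk_pos (f := e) m.2.pos (fun z => (he.det z).ne')
  refine ⟨hpos, fun γ z v => cj_inv' hX he m.2.inv (fun z w => (qf_pbk e m.1.1 z w).symm) γ z v,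
    fun z => ?_, ?_⟩
  · have h := curv_pull (f := e) he.smooth (m := m.1.1) (m' := pbk e m.1.1) m.1.2
      (pbk_smooth he.smooth m.1.2) (fun z => (m.2.pos z).2) (fun z => (hpos z).2)
      (fun z v => (qf_pbk e m.1.1 z v).symm) z
    rw [h]
    exact m.2.neg _
  · have h2 := m.2.area
    rw [C4_cv hX he] at h2
    rw [← h2]
    congr 1
    funext z
    rw [C4_rho e m.1.1 z]

/-- The inverse image of a metric. -/
noncomputable def pull (hX : Surface Γ D) (he : Df e) (m : Mt (CjG Γ e) (e '' D)) : Mt Γ D :=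
  ⟨⟨pbk e m.1.1, pbk_smooth he.smooth m.1.2⟩, pull_metric hX he m⟩

end U36
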