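import Pool.Agent.LibQR40.Api
import Pool.Agent.LibQR40.IT2
import Pool.Agent.LibQR40.IT2a
import Pool.Agent.LibQR40.EI
import Pool.Agent.LibQR40.DO
import Pool.Agent.LibQR40.INT
import Pool.Agent.LibQR40.SL
import Pool.Agent.LibTR29.T8

/-! U36, uniformisation: definitions (architect helper88). Every surface with a metric of negative
curvature is conformal to a quotient of the hyperbolic plane `mH`. -/

open MeasureTheory Set Filter Topology
open scoped ContDiff unitInterval

namespace U36

open BGS QR

/-! ### Uniform bounds of derivatives -/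

/-- The derivatives of order at most `j` of the functions `u i` are bounded in `L²` of every square,
uniformly in `i`. -/
def LB {ι : Type} (j : ℕ) (u : ι → Pl → ℝ) : Prop :=
  ∀ l : List Bool, l.length ≤ j → ∀ R : ℝ, ∃ C : ℝ, ∀ i, n0 R (Dw l (u i)) ≤ C

/-- The derivatives of order at most `j` of the functions `u i` are bounded on every square,
uniformly in `i`. -/
def SB {ι : Type} (j : ℕ) (u : ι → Pl → ℝ) : Prop :=
  ∀ l : List Bool, l.length ≤ j → ∀ R : ℝ, ∃ C : ℝ, ∀ i, ∀ z ∈ Q R, |Dw l (u i) z| ≤ C

/-! ### The Laplacian -/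

section

variable {Γ : Type} [Group Γ] [MulAction Γ Pl] {D : Set Pl}

/-- The nonnegative Laplacian of the metric `m`. -/
noncomputable def Lp (m : Mt Γ D) (u : Pl → ℝ) (z : Pl) : ℝ := -(Lu (coefM m) u z / vol m z)

/-- The partial sums of the expansion of `f`, with the multipliers `s`. -/
noncomputable def Sn (hX : Surface Γ D) (m : Mt Γ D) (e : ℕ → TestS Γ) (s : ℕ → ℝ) (f : TestS Γ)
    (n : ℕ) : TestS Γ :=
  ∑ j ∈ Finset.range n, (s j * bF hX m (oneT Γ) (e j) f) • e j

end

end U36
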