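import Pool.Agent.LibU36.Defs
import Pool.Agent.LibBR73.AN1
import Pool.Agent.LibBE36M.Defs

/-! U36, uniformisation: definitions of the parts B, C (architect helper88). -/

open MeasureTheory Set Filter Topology
open scoped ContDiff unitInterval

namespace U36

open BGS BR

/-! ### Hyperbolic coordinates -/

/-- From the Fermi coordinates `(s, η)`, metric `cosh² η ds² + dη²`, to the horocyclic coordinates. -/
noncomputable def XH (p : Pl) : Pl :=
  (p.1 + Real.log (Real.cosh p.2), Real.tanh p.2 * Real.exp (-p.1))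

/-- The inverse. -/
noncomputable def YH (z : Pl) : Pl :=
  (z.1 - Real.log (Real.cosh (Real.arsinh (Real.exp z.1 * z.2))),
    Real.arsinh (Real.exp z.1 * z.2))

/-! ### Transport by a diffeomorphism of the plane -/

/-- A diffeomorphism of the plane that preserves the orientation. -/
structure Df (e : Pl ≃ Pl) : Prop where
  smooth : ContDiff ℝ ∞ e
  smooth' : ContDiff ℝ ∞ e.symm
  det : ∀ z, 0 < (fderiv ℝ e z).det

/-- The group `Γ` with the action conjugated by `e`. -/
def CjG (Γ : Type) (_e : Pl ≃ Pl) : Type := Γ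

instance (Γ : Type) [Group Γ] (e : Pl ≃ Pl) : Group (CjG Γ e) := inferInstanceAs (Group Γ)

/-- An element of `Γ` as an element of the conjugated group. -/
def toC {Γ : Type} (e : Pl ≃ Pl) (γ : Γ) : CjG Γ e := γ

/-- An element of the conjugated group as an element of `Γ`. -/
def ofC {Γ : Type} {e : Pl ≃ Pl} (γ : CjG Γ e) : Γ := γ

theorem ofC_mul {Γ : Type} [Group Γ] {e : Pl ≃ Pl} (γ δ : CjG Γ e) :
    ofC (γ * δ) = ofC γ * ofC δ := rfl

theorem ofC_one {Γ : Type} [Group Γ] {e : Pl ≃ Pl} : ofC (1 : CjG Γ e) = (1 : Γ) := rfl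

instance (Γ : Type) [Group Γ] [MulAction Γ Pl] (e : Pl ≃ Pl) : MulAction (CjG Γ e) Pl where
  smul γ z := e (ofC γ • e.symm z)
  one_smul z := by
    show e (ofC (1 : CjG Γ e) • e.symm z) = z
    rw [ofC_one, one_smul, Equiv.apply_symm_apply]
  mul_smul γ δ z := by
    show e (ofC (γ * δ) • e.symm z) = e (ofC γ • e.symm (e (ofC δ • e.symm z)))
    rw [ofC_mul, mul_smul, Equiv.symm_apply_apply]

theorem cj_smul {Γ : Type} [Group Γ] [MulAction Γ Pl] {e : Pl ≃ Pl} (γ : CjG Γ e) (z : Pl) :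
    γ • z = e (ofC γ • e.symm z) := rfl

/-- The pull-back of a metric. -/
noncomputable def pbk (f : Pl → Pl) (m : Pl → Co) (z : Pl) : Co :=
  (bf (m (f z)) (fderiv ℝ f z (1, 0)) (fderiv ℝ f z (1, 0)),
    bf (m (f z)) (fderiv ℝ f z (1, 0)) (fderiv ℝ f z (0, 1)),
    bf (m (f z)) (fderiv ℝ f z (0, 1)) (fderiv ℝ f z (0, 1)))

/-- Families of smooth functions on the surface, with bounds of all derivatives on compact sets. -/
structure Fld (Γ : Type) [Group Γ] [MulAction Γ Pl] {κ : Type} (φ : κ → Pl → ℝ) : Prop where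
  test : ∀ ξ, φ ξ ∈ Test Γ
  bound : ∀ (r : ℕ) (K : Set Pl), IsCompact K → ∃ C : ℝ, 1 ≤ C ∧ ∀ ξ, ∀ j ≤ r, ∀ z ∈ K,
    ‖iteratedFDeriv ℝ j (φ ξ) z‖ ≤ C

end U36
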