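import Pool.Agent.LibU36.Defs

/-! ROW P1 : the Laplacian acts on the smooth functions of the surface. MEDIUM. PLAN. `g = Lu (coefM m) u / vol m` is smooth. Invariance: for a test function `χ` (`IsT χ`): `∫ Lu u * (χ ∘ γ) = - ∫ q2 u (χ ∘ γ)` (`ip_q2`, LibQR40/IP; `χ ∘ γ` has compact support since `γ` is a homeomorphism of the plane) `= - ∫ q2 (u ∘ γ) (χ ∘ γ)`
`= - ∫ |det| q2 u χ (γ z)` (`q2_change`, LibQR40/B1b) `= - ∫ q2 u χ = ∫ Lu u * χ` (change of variables: `integral_image_eq_integral_abs_det_fderiv_smul` on `univ`, see `PER_one`, `PER_inj` in LibBGR/Per), and `∫ g vol χ = ∫ g (γ z) vol (γ z) |det| χ (γ z) = ∫ g (γ z) vol z χ (γ z)` (`PER_rho`). So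
`∫ (g (γ z) - g z) vol z χ (γ z) = 0` for all `χ`, i.e. for all test functions `χ ∘ γ`: `g ∘ γ = g` (the lemma on continuous functions orthogonal to all test functions is used in LibQR40/B3a, RGb). `Lp_lin`, `Lp_smul`: `fx`, `fy`, `dx`, `dy` are linear. `Lp_ULim`: `Lu` is a sum of products of
the derivatives of `a, b, c` and of `u` of order 1 and 2, which converge at `z` (`ULim` for the words of length 1 and 2). -/

open MeasureTheory Set Filter Topology
open scoped ContDiff unitInterval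

namespace U36

open BGS QR

variable {Γ : Type} [Group Γ] [MulAction Γ Pl] {D : Set Pl}

private theorem P1_int {f χ : Pl → ℝ} (hf : Continuous f) (h : IsT χ) :
    Integrable (fun z => f z * χ z) volume :=
  (hf.mul h.1.continuous).integrable_of_hasCompactSupport h.2.mul_left

private theorem P1_comp (hX : Surface Γ D) (γ : Γ) {χ : Pl → ℝ} (h : IsT χ) :
    IsT (fun z => χ (γ • z)) := by
  refine ⟨h.1.comp (hX.smooth γ), ?_⟩
  let e : Pl ≃ₜ Pl :=
    { toFun := fun z => γ • z
      invFun := fun z => γ⁻¹ • z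
      left_inv := fun z => inv_smul_smul γ z
      right_inv := fun z => smul_inv_smul γ z
      continuous_toFun := (hX.smooth γ).continuous
      continuous_invFun := (hX.smooth γ⁻¹).continuous }
  exact h.2.comp_homeomorph e

/-- Change of variables in the plane. -/
private theorem P1_cov (hX : Surface Γ D) (γ : Γ) (g : Pl → ℝ) :
    ∫ z, g z = ∫ z, |(fderiv ℝ (fun w : Pl => γ • w) z).det| * g (γ • z) := by
  have h1 := integral_image_eq_integral_abs_det_fderiv_smul volume MeasurableSet.univ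
    (f := fun w : Pl => γ • w)
    (f' := fun z => fderiv ℝ (fun w : Pl => γ • w) z)
    (fun z _ => ((hX.smooth γ).differentiable (by simp) z).hasFDerivAt.hasFDerivWithinAt)
    (PER_inj γ).injOn g
  have h2 : (fun w : Pl => γ • w) '' univ = univ := by
    rw [image_univ]
    exact range_eq_univ.2 fun z => ⟨γ⁻¹ • z, smul_inv_smul γ z⟩
  rw [h2, Measure.restrict_univ] at h1
  exact h1

private theorem P1_key (hX : Surface Γ D) (m : Mt Γ D) {u : Pl → ℝ} (hu : u ∈ Test Γ) (γ : Γ)
    {χ : Pl → ℝ} (hχ : IsT χ) :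
    ∫ z, (Lu (coefM m) u (γ • z) * |(fderiv ℝ (fun w : Pl => γ • w) z).det|) * χ z =
      ∫ z, Lu (coefM m) u z * χ z := by
  have hu1 : ContDiff ℝ ∞ u := hu.1
  have hT : IsT (fun z => χ (γ⁻¹ • z)) := P1_comp hX γ⁻¹ hχ
  have e1 : ∫ z, (Lu (coefM m) u (γ • z) * |(fderiv ℝ (fun w : Pl => γ • w) z).det|) * χ z =
      ∫ z, Lu (coefM m) u z * χ (γ⁻¹ • z) := by
    rw [P1_cov hX γ (fun z => Lu (coefM m) u z * χ (γ⁻¹ • z))]
    congr 1
    funext z
    rw [inv_smul_smul]
    ring
  have e2 := ip_q2 (coefM m) hu1 hT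
  have e3 := ip_q2 (coefM m) hu1 hχ
  have e4 : ∫ z, q2 (coefM m) u (fun z => χ (γ⁻¹ • z)) z = ∫ z, q2 (coefM m) u χ z := by
    rw [P1_cov hX γ (fun z => q2 (coefM m) u (fun z => χ (γ⁻¹ • z)) z)]
    congr 1
    funext z
    have h := q2_change hX m γ hu1 hT.1 z
    rw [← h]
    have h5 : (fun y => u (γ • y)) = u := funext fun y => hu.2 γ y
    have h6 : (fun y => χ (γ⁻¹ • γ • y)) = χ := funext fun y => by rw [inv_smul_smul]
    rw [h5, h6]
  rw [e1]
  linarith

theorem Lp_mem (hX : Surface Γ D) (m : Mt Γ D) {u : Pl → ℝ} (hu : u ∈ Test Γ) :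
    Lp m u ∈ Test Γ := by
  have hu1 : ContDiff ℝ ∞ u := hu.1
  have hL : ContDiff ℝ ∞ (Lu (coefM m) u) := smooth_Lu (coefM m) hu1
  refine ⟨(hL.div (smooth_vol m) fun z => (vol_pos m z).ne').neg, fun γ z => ?_⟩
  have hdet : ∀ z, |(fderiv ℝ (fun w : Pl => γ • w) z).det| = vol m z / vol m (γ • z) := by
    intro z
    rw [eq_div_iff (vol_pos m (γ • z)).ne']
    exact (PER_rho hX m γ z).symm
  have hγ : Continuous fun z : Pl => γ • z := (hX.smooth γ).continuous
  have hW : Continuous fun z => Lu (coefM m) u (γ • z) * |(fderiv ℝ (fun w : Pl => γ • w) z).det| := by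
    have h1 : Continuous fun z => Lu (coefM m) u (γ • z) * (vol m z / vol m (γ • z)) :=
      (hL.continuous.comp hγ).mul ((smooth_vol m).continuous.div
        ((smooth_vol m).continuous.comp hγ) fun z => (vol_pos m (γ • z)).ne')
    have h2 : (fun z => Lu (coefM m) u (γ • z) * |(fderiv ℝ (fun w : Pl => γ • w) z).det|) =
        fun z => Lu (coefM m) u (γ • z) * (vol m z / vol m (γ • z)) := by
      funext z
      rw [hdet z]
    rw [h2]
    exact h1
  have hg : Continuous fun z => Lu (coefM m) u (γ • z) *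
      |(fderiv ℝ (fun w : Pl => γ • w) z).det| - Lu (coefM m) u z := hW.sub hL.continuous
  have key : ∀ χ, IsT χ → ∫ z, (Lu (coefM m) u (γ • z) *
      |(fderiv ℝ (fun w : Pl => γ • w) z).det| - Lu (coefM m) u z) * χ z = 0 := by
    intro χ hχ
    have h1 : (fun z => (Lu (coefM m) u (γ • z) *
        |(fderiv ℝ (fun w : Pl => γ • w) z).det| - Lu (coefM m) u z) * χ z) =
        fun z => (Lu (coefM m) u (γ • z) *
        |(fderiv ℝ (fun w : Pl => γ • w) z).det|) * χ z - Lu (coefM m) u z * χ z := by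
      funext z
      ring
    rw [h1, integral_sub (P1_int hW hχ) (P1_int hL.continuous hχ), P1_key hX m hu γ hχ, sub_self]
  have h3 := eq_zero_of_test hg key z
  have h4 : Lu (coefM m) u z = Lu (coefM m) u (γ • z) * (vol m z / vol m (γ • z)) := by
    rw [← hdet z]
    linarith
  show -(Lu (coefM m) u (γ • z) / vol m (γ • z)) = -(Lu (coefM m) u z / vol m z)
  rw [h4]
  have hv1 := (vol_pos m z).ne'
  have hv2 := (vol_pos m (γ • z)).ne'
  field_simp

/-- The Laplacian on the smooth functions of the surface. -/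
noncomputable def LT (hX : Surface Γ D) (m : Mt Γ D) (u : TestS Γ) : TestS Γ :=
  ⟨Lp m u.1, Lp_mem hX m u.2⟩

private theorem P1_Dw_smul {f : Pl → ℝ} (hf : ContDiff ℝ ∞ f) (c : ℝ) (l : List Bool) (z : Pl) :
    Dw l (fun y => c * f y) z = c * Dw l f z := by
  induction l generalizing z with
  | nil => rfl
  | cons b l ih =>
    have h1 : Dw l (fun y => c * f y) = fun z => c * Dw l f z := funext ih
    change pd b (Dw l (fun y => c * f y)) z = c * pd b (Dw l f) z
    rw [h1]
    have hd := (smooth_Dw hf l).differentiable (by simp) z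
    have h2 : fderiv ℝ (fun y => c * Dw l f y) z = c • fderiv ℝ (Dw l f) z :=
      fderiv_const_mul hd c
    cases b
    · show fderiv ℝ (fun y => c * Dw l f y) z (0, 1) = c * fderiv ℝ (Dw l f) z (0, 1)
      rw [h2]
      rfl
    · show fderiv ℝ (fun y => c * Dw l f y) z (1, 0) = c * fderiv ℝ (Dw l f) z (1, 0)
      rw [h2]
      rfl

private theorem P1_Dw_add {f g : Pl → ℝ} (hf : ContDiff ℝ ∞ f) (hg : ContDiff ℝ ∞ g)
    (l : List Bool) (z : Pl) :
    Dw l (fun y => f y + g y) z = Dw l f z + Dw l g z := by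
  induction l generalizing z with
  | nil => rfl
  | cons b l ih =>
    have h1 : Dw l (fun y => f y + g y) = fun z => Dw l f z + Dw l g z := funext ih
    change pd b (Dw l (fun y => f y + g y)) z = pd b (Dw l f) z + pd b (Dw l g) z
    rw [h1]
    exact pd_add (smooth_Dw hf l) (smooth_Dw hg l) b z

private theorem P1_smul_smooth {f : Pl → ℝ} (hf : ContDiff ℝ ∞ f) (c : ℝ) :
    ContDiff ℝ ∞ (fun y => c * f y) := contDiff_const.mul hf

theorem Lp_add (m : Mt Γ D) {u v : Pl → ℝ} (hu : ContDiff ℝ ∞ u) (hv : ContDiff ℝ ∞ v) (z : Pl) :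
    Lp m (fun y => u y + v y) z = Lp m u z + Lp m v z := by
  unfold Lp
  rw [OS_Lu_words (coefM m) (hu.add hv) z, OS_Lu_words (coefM m) hu z,
    OS_Lu_words (coefM m) hv z]
  simp only [P1_Dw_add hu hv]
  ring

theorem Lp_sub (m : Mt Γ D) {u v : Pl → ℝ} (hu : ContDiff ℝ ∞ u) (hv : ContDiff ℝ ∞ v) (z : Pl) :
    Lp m (fun y => u y - v y) z = Lp m u z - Lp m v z := by
  unfold Lp
  rw [OS_Lu_words (coefM m) (hu.sub hv) z, OS_Lu_words (coefM m) hu z,
    OS_Lu_words (coefM m) hv z]
  simp only [Dw_sub hu hv]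
  ring

theorem Lp_smul (m : Mt Γ D) {u : Pl → ℝ} (hu : ContDiff ℝ ∞ u) (c : ℝ) (z : Pl) :
    Lp m (fun y => c * u y) z = c * Lp m u z := by
  unfold Lp
  rw [OS_Lu_words (coefM m) (P1_smul_smooth hu c) z, OS_Lu_words (coefM m) hu z]
  simp only [P1_Dw_smul hu c]
  ring

theorem Lp_const (m : Mt Γ D) (c : ℝ) (z : Pl) : Lp m (fun _ => c) z = 0 := by
  have h1 : fx (coefM m) (fun _ => c) = fun _ => 0 := by
    funext y
    simp [fx, dx, dy]
  have h2 : fy (coefM m) (fun _ => c) = fun _ => 0 := by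
    funext y
    simp [fy, dx, dy]
  unfold Lp Lu
  rw [h1, h2]
  simp [dx, dy]

theorem Lp_ULim (m : Mt Γ D) {u : ℕ → Pl → ℝ} {V : Pl → ℝ} (hu : ∀ n, ContDiff ℝ ∞ (u n))
    (h : ULim u V) (z : Pl) : Tendsto (fun n => Lp m (u n) z) atTop (𝓝 (Lp m V z)) := by
  have t := fun l => OS_tendsto_Dw h l z
  have h1 : Tendsto (fun n => Lu (coefM m) (u n) z) atTop (𝓝 (Lu (coefM m) V z)) := by
    rw [OS_Lu_words (coefM m) h.1 z]
    simp only [OS_Lu_words (coefM m) (hu _) z]
    exact ((((t _).const_mul _).add ((t _).const_mul _)).add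
      (((t _).const_mul _).add ((t _).const_mul _))).add
      ((((t _).const_mul _).add ((t _).const_mul _)).add
      (((t _).const_mul _).add ((t _).const_mul _)))
  exact (h1.div_const (vol m z)).neg

end U36
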