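import Pool.Agent.LibU36.P1

/-! ROW P2 : partition of unity, Green's formula. MEDIUM. PLAN. `part`: `χ0` smooth, compactly supported, `0 ≤ χ0`, `χ0 = 1` on `closure D` (`exists_cut` in LibQR40/CU, `Surface.bdd`); `s = per Γ χ0` is smooth and invariant (`per_mem`, LibBGR/Per) and positive: every orbit meets `D` (finsum of nonnegative terms with finite support, `PER_fin`); `η = χ0 / s`.
`green`: `v = per (η v)` (as `v` is invariant), `aF U (perT (η v)) = ∫ q2 U (η v) = - ∫ Lu U * (η v)` (`aF_per` in LibQR40/B1c, `ip_q2`) `= ∫ η (Lp U * v) vol = ∫_D per η * (Lp U * v) * vol` (`per_int` with `f = η`, `g = Lp U * v`, `Lp_mem`) `= bF (LT U) v` (`bF_apply`). -/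

open MeasureTheory Set Filter Topology
open scoped ContDiff unitInterval

namespace U36

open BGS QR

variable {Γ : Type} [Group Γ] [MulAction Γ Pl] {D : Set Pl}

theorem part (hX : Surface Γ D) : ∃ η : Pl → ℝ, IsT η ∧ (∀ z, 0 ≤ η z) ∧
    ∀ z, per Γ η z = 1 := by
  obtain ⟨R, hR⟩ := hX.bdd.subset_closedBall (0 : Pl)
  have hRp : 0 < |R| + 1 := by positivity
  set f : ContDiffBump (0 : Pl) := ⟨|R| + 1, |R| + 2, hRp, by linarith⟩ with hf
  have hfs : ContDiff ℝ ∞ (f : Pl → ℝ) := f.contDiff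
  have hfc : HasCompactSupport (f : Pl → ℝ) := f.hasCompactSupport
  have hf1 : ∀ z ∈ D, f z = 1 := by
    intro z hz
    apply f.one_of_mem_closedBall
    have h1 := hR hz
    rw [mem_closedBall_zero_iff] at h1 ⊢
    have h2 := le_abs_self R
    show ‖z‖ ≤ |R| + 1
    linarith
  have hp := per_mem hX hfs hfc
  have hp1 : ∀ z, 1 ≤ per Γ f z := by
    intro z
    obtain ⟨γ, hγ, -⟩ := hX.orbit z
    obtain ⟨S, hS0, hS⟩ := PER_fin hX hfc (isCompact_singleton (x := z))
    rw [hS z rfl]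
    have hmem : γ ∈ S := by
      by_contra h
      have h1 := hS0 z rfl γ h
      rw [hf1 _ hγ] at h1
      exact one_ne_zero h1
    have h6 := Finset.single_le_sum (f := fun γ : Γ => f (γ • z)) (fun γ _ => f.nonneg) hmem
    have h7 : f (γ • z) = 1 := hf1 _ hγ
    calc (1 : ℝ) = f (γ • z) := h7.symm
      _ ≤ _ := h6
  have hpne : ∀ z, per Γ f z ≠ 0 := fun z => (lt_of_lt_of_le one_pos (hp1 z)).ne'
  refine ⟨fun z => f z / per Γ f z, ⟨hfs.div hp.1 hpne, ?_⟩,
    fun z => div_nonneg f.nonneg (zero_le_one.trans (hp1 z)), fun z => ?_⟩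
  · have : (fun z => f z / per Γ f z) = fun z => f z * (per Γ f z)⁻¹ := by
      funext z
      rw [div_eq_mul_inv]
    rw [this]
    exact hfc.mul_right
  · have h1 : per Γ (fun z => f z / per Γ f z) z = per Γ f z / per Γ f z := by
      have h2 : ∀ γ : Γ, f (γ • z) / per Γ f (γ • z) = f (γ • z) * (per Γ f z)⁻¹ := fun γ => by
        rw [PER_inv, div_eq_mul_inv]
      show ∑ᶠ γ : Γ, f (γ • z) / per Γ f (γ • z) = _
      rw [finsum_congr h2, ← finsum_mul', div_eq_mul_inv]
      · rfl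
      · have hfin := hX.proper ({z} ∪ tsupport (f : Pl → ℝ)) (isCompact_singleton.union hfc)
        apply hfin.subset
        intro γ hγ
        exact ⟨z, Or.inl rfl, Or.inr (subset_tsupport (f : Pl → ℝ) hγ)⟩
    rw [h1, div_self (hpne z)]

private theorem P2_per (hX : Surface Γ D) {χ : Pl → ℝ} (hχ1 : ∀ z, per Γ χ z = 1) (v : TestS Γ)
    (hv : IsT (fun z => v.1 z * χ z)) : perT hX hv = v := by
  apply Subtype.ext
  funext z
  show per Γ (fun z => v.1 z * χ z) z = v.1 z
  have h1 := hχ1 z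
  unfold per at h1 ⊢
  have h2 : ∀ γ : Γ, v.1 (γ • z) * χ (γ • z) = v.1 z • χ (γ • z) := by
    intro γ
    rw [v.2.2 γ z, smul_eq_mul]
  rw [finsum_congr h2, ← smul_finsum, h1, smul_eq_mul, mul_one]

theorem green (hX : Surface Γ D) (m : Mt Γ D) (u v : TestS Γ) :
    bF hX m (oneT Γ) (LT hX m u) v = aF hX m u v := by
  obtain ⟨η, hη, -, hη1⟩ := part hX
  have hvη : IsT (fun z => v.1 z * η z) := cpt_mul hη v.2.1
  have e := P2_per hX hη1 v hvη
  rw [← e, aF_per hX m u hvη, bF_per hX m (oneT Γ) (LT hX m u) hvη,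
    ip_q2 (coefM m) u.2.1 hvη, ← integral_neg]
  congr 1
  funext z
  have h1 : (oneT Γ).1 z = 1 := rfl
  have h2 : (LT hX m u).1 z = -(Lu (coefM m) u.1 z / vol m z) := rfl
  have h3 : vol m z ≠ 0 := (vol_pos m z).ne'
  rw [h1, h2]
  field_simp

end U36
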