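import Pool.Agent.LibU36.P2

/-! ROW S1 : partial sums of eigenfunction expansions, algebra. SHORT/MEDIUM. PLAN. `LT_e`: `eig_pde` (LibQR40/B3a, with `w = oneT Γ`; `TR.Bas.eig` is `IsEig`). `bF_LT`: `green` with the symmetry of `aF`, `bF` (`pair0` in LibBRS/Defs: `asym`, `bsym`) and `eig`. `LT` is linear (`Lp_add`, `Lp_smul`; `Subtype.ext`), so
`LT_Sn` by `Finset` induction. `bF_Sn`: orthonormality. `Sn_le`: `∑ s_j² c_j² ≤ ∑ c_j² ≤ bF f f` (`BRS.bessel` in LibBRS/A4, or from `hasSum`; `TR.Bas` comes from `BRS.IsBas`, here the hypothesis is `BRS.IsBas`). `Sn_cauchy`: `Sn n - Sn k` is the sum over `Finset.Ico k n`, its norm is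
`∑_{Ico} s_j² c_j²`, the series `∑ c_j²` converges (`BRS.hasSum`). `Sn_lim`: `bF (f - Sn f n) (f - Sn f n) = bF f f - ∑ c_j²` for `s = 1`. -/

open MeasureTheory Set Filter Topology
open scoped ContDiff unitInterval

namespace U36

open BGS QR


section S1abs

variable {E : Type} [AddCommGroup E] [Module ℝ E]

private theorem S1_bss (b : LinearMap.BilinForm ℝ E) (e : ℕ → E)
    (horth : ∀ i j, b (e i) (e j) = if i = j then 1 else 0) (s : Finset ℕ) (p q : ℕ → ℝ) :
    b (∑ i ∈ s, p i • e i) (∑ j ∈ s, q j • e j) = ∑ i ∈ s, p i * q i := by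
  have h1 : ∀ i ∈ s, b (e i) (∑ j ∈ s, q j • e j) = q i := by
    intro i hi
    simp only [map_sum, map_smul, smul_eq_mul, horth, mul_ite, mul_one, mul_zero]
    rw [Finset.sum_ite_eq, if_pos hi]
  have h2 : b (∑ i ∈ s, p i • e i) (∑ j ∈ s, q j • e j) =
      ∑ i ∈ s, p i * b (e i) (∑ j ∈ s, q j • e j) := by
    generalize (∑ j ∈ s, q j • e j) = f
    simp only [map_sum, map_smul, LinearMap.sum_apply, LinearMap.smul_apply, smul_eq_mul]
  rw [h2]
  exact Finset.sum_congr rfl fun i hi => by rw [h1 i hi]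

private theorem S1_bsf (b : LinearMap.BilinForm ℝ E) (e : ℕ → E) (s : Finset ℕ) (p : ℕ → ℝ)
    (f : E) : b (∑ i ∈ s, p i • e i) f = ∑ i ∈ s, p i * b (e i) f := by
  simp only [map_sum, map_smul, LinearMap.sum_apply, LinearMap.smul_apply, smul_eq_mul]

private theorem S1_neg (b : LinearMap.BilinForm ℝ E) (v w : E) :
    b (v - w) (v - w) = b (w - v) (w - v) := by
  rw [← neg_sub w v, map_neg, map_neg, LinearMap.neg_apply, neg_neg]

end S1abs

variable {Γ : Type} [Group Γ] [MulAction Γ Pl] {D : Set Pl}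

theorem LT_add (hX : Surface Γ D) (m : Mt Γ D) (u v : TestS Γ) :
    LT hX m (u + v) = LT hX m u + LT hX m v := by
  apply Subtype.ext
  funext z
  exact Lp_add m u.2.1 v.2.1 z

theorem LT_smul (hX : Surface Γ D) (m : Mt Γ D) (c : ℝ) (u : TestS Γ) :
    LT hX m (c • u) = c • LT hX m u := by
  apply Subtype.ext
  funext z
  exact Lp_smul m u.2.1 c z

theorem LT_e (hX : Surface Γ D) (m : Mt Γ D) {e : ℕ → TestS Γ} (h : BRS.IsBas hX m e) (j : ℕ) :
    LT hX m (e j) = (4 * Real.pi * x m j) • e j := by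
  apply Subtype.ext
  funext z
  show -(Lu (coefM m) (e j).1 z / vol m z) = 4 * Real.pi * x m j * (e j).1 z
  rw [eig_pde hX m (oneT Γ) _ (e j) (h.eig j) z]
  have hv : vol m z ≠ 0 := (vol_pos m z).ne'
  have h1 : (oneT Γ).1 z = 1 := rfl
  rw [h1]
  field_simp

theorem bF_LT (hX : Surface Γ D) (m : Mt Γ D) {e : ℕ → TestS Γ} (h : BRS.IsBas hX m e)
    (f : TestS Γ) (j : ℕ) : bF hX m (oneT Γ) (e j) (LT hX m f) =
      4 * Real.pi * x m j * bF hX m (oneT Γ) (e j) f := by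
  have P := BRS.pair0 hX m
  rw [P.bsym, green hX m f (e j), P.asym, h.eig j f]

theorem LT_Sn (hX : Surface Γ D) (m : Mt Γ D) {e : ℕ → TestS Γ} (h : BRS.IsBas hX m e)
    (s : ℕ → ℝ) (f : TestS Γ) (n : ℕ) :
    LT hX m (Sn hX m e s f n) = Sn hX m e s (LT hX m f) n := by
  unfold Sn
  induction n with
  | zero =>
    rw [Finset.sum_range_zero, Finset.sum_range_zero]
    have h0 := LT_smul hX m 0 (0 : TestS Γ)
    rw [zero_smul, zero_smul] at h0
    exact h0
  | succ n ih =>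
    rw [Finset.sum_range_succ, Finset.sum_range_succ, LT_add, ih, LT_smul, LT_e hX m h,
      bF_LT hX m h, smul_smul]
    congr 2
    ring

theorem Sn_le (hX : Surface Γ D) (m : Mt Γ D) {e : ℕ → TestS Γ} (h : BRS.IsBas hX m e)
    {s : ℕ → ℝ} (hs : ∀ j, |s j| ≤ 1) (f : TestS Γ) (n : ℕ) :
    bF hX m (oneT Γ) (Sn hX m e s f n) (Sn hX m e s f n) ≤ bF hX m (oneT Γ) f f := by
  unfold Sn
  rw [S1_bss _ e h.orth]
  refine le_trans (Finset.sum_le_sum fun j _ => ?_) (BRS.bessel hX m h f n)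
  have h1 : s j ^ 2 ≤ 1 := by
    rw [← sq_abs]
    exact pow_le_one₀ (abs_nonneg _) (hs j)
  nlinarith [sq_nonneg (bF hX m (oneT Γ) (e j) f)]

theorem Sn_cauchy (hX : Surface Γ D) (m : Mt Γ D) {e : ℕ → TestS Γ} (h : BRS.IsBas hX m e)
    {s : ℕ → ℝ} (hs : ∀ j, |s j| ≤ 1) (f : TestS Γ) {δ : ℝ} (hδ : 0 < δ) :
    ∃ N : ℕ, ∀ n, N ≤ n → ∀ k, N ≤ k →
      bF hX m (oneT Γ) (Sn hX m e s f n - Sn hX m e s f k)
        (Sn hX m e s f n - Sn hX m e s f k) ≤ δ := by
  have hS := (BRS.hasSum hX m h f).tendsto_sum_nat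
  have h1 := hS.eventually (lt_mem_nhds (sub_lt_self (bF hX m (oneT Γ) f f) hδ))
  obtain ⟨N, hN⟩ := eventually_atTop.1 h1
  have key : ∀ n k, N ≤ k → k ≤ n →
      bF hX m (oneT Γ) (Sn hX m e s f n - Sn hX m e s f k)
        (Sn hX m e s f n - Sn hX m e s f k) ≤ δ := by
    intro n k hk hkn
    unfold Sn
    rw [← Finset.sum_Ico_eq_sub (fun j => (s j * bF hX m (oneT Γ) (e j) f) • e j) hkn,
      S1_bss _ e h.orth]
    have h2 : ∑ j ∈ Finset.Ico k n, s j * bF hX m (oneT Γ) (e j) f *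
        (s j * bF hX m (oneT Γ) (e j) f) ≤
        ∑ j ∈ Finset.Ico k n, bF hX m (oneT Γ) (e j) f ^ 2 := by
      refine Finset.sum_le_sum fun j _ => ?_
      have h3 : s j ^ 2 ≤ 1 := by
        rw [← sq_abs]
        exact pow_le_one₀ (abs_nonneg _) (hs j)
      nlinarith [sq_nonneg (bF hX m (oneT Γ) (e j) f)]
    rw [Finset.sum_Ico_eq_sub (fun j => bF hX m (oneT Γ) (e j) f ^ 2) hkn] at h2
    have h4 := BRS.bessel hX m h f n
    have h5 := hN k hk
    linarith
  refine ⟨N, fun n hn k hk => ?_⟩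
  rcases le_total k n with hkn | hkn
  · exact key n k hk hkn
  · rw [S1_neg]
    exact key k n hn hkn

theorem Sn_lim (hX : Surface Γ D) (m : Mt Γ D) {e : ℕ → TestS Γ} (h : BRS.IsBas hX m e)
    (f : TestS Γ) : Tendsto (fun n => bF hX m (oneT Γ) (Sn hX m e (fun _ => 1) f n - f)
      (Sn hX m e (fun _ => 1) f n - f)) atTop (𝓝 0) := by
  have P := BRS.pair0 hX m
  have hS := (BRS.hasSum hX m h f).tendsto_sum_nat
  have h1 : ∀ n, bF hX m (oneT Γ) (Sn hX m e (fun _ => 1) f n - f)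
      (Sn hX m e (fun _ => 1) f n - f) = bF hX m (oneT Γ) f f -
      ∑ j ∈ Finset.range n, bF hX m (oneT Γ) (e j) f ^ 2 := by
    intro n
    have h2 : bF hX m (oneT Γ) (Sn hX m e (fun _ => 1) f n) (Sn hX m e (fun _ => 1) f n) =
        ∑ j ∈ Finset.range n, bF hX m (oneT Γ) (e j) f ^ 2 := by
      unfold Sn
      rw [S1_bss _ e h.orth]
      exact Finset.sum_congr rfl fun j _ => by ring
    have h3 : bF hX m (oneT Γ) (Sn hX m e (fun _ => 1) f n) f =
        ∑ j ∈ Finset.range n, bF hX m (oneT Γ) (e j) f ^ 2 := by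
      unfold Sn
      rw [S1_bsf]
      exact Finset.sum_congr rfl fun j _ => by ring
    have h4 := P.bsym f (Sn hX m e (fun _ => 1) f n)
    simp only [map_sub, LinearMap.sub_apply]
    rw [h2, h4, h3]
    ring
  simp only [h1]
  have h5 := hS.const_sub (bF hX m (oneT Γ) f f)
  rwa [sub_self] at h5

/-- The equation of the partial sums. -/
theorem Sn_eq (hX : Surface Γ D) (m : Mt Γ D) {e : ℕ → TestS Γ} (h : BRS.IsBas hX m e)
    {lam : ℝ} (hl : 0 < lam) (f : TestS Γ) (n : ℕ) :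
    lam • Sn hX m e (fun j => lam / (lam + 4 * Real.pi * x m j)) f n +
      LT hX m (Sn hX m e (fun j => lam / (lam + 4 * Real.pi * x m j)) f n) =
      lam • Sn hX m e (fun _ => 1) f n := by
  have P := BRS.pair0 hX m
  rw [LT_Sn hX m h]
  unfold Sn
  rw [Finset.smul_sum, ← Finset.sum_add_distrib, Finset.smul_sum]
  refine Finset.sum_congr rfl fun j _ => ?_
  rw [bF_LT hX m h, smul_smul, ← add_smul, smul_smul]
  congr 1
  have hx : 0 ≤ 4 * Real.pi * x m j := by
    have h4 := P.apos (e j)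
    rw [h.eig j (e j), h.orth, if_pos rfl, mul_one] at h4
    exact h4
  have h5 : lam + 4 * Real.pi * x m j ≠ 0 := by positivity
  field_simp

end U36
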