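import Pool.Agent.LibU36.S1
import Pool.Agent.LibU36.A1b
import Pool.Agent.LibU36.A2

/-! ROW S2 : the equation `lam v + Lp v = f`. MEDIUM. PLAN. `Sn_LB`: by induction on `j`, for all `f`. `j = 0`: `n0_le` (LibQR40/B2a), `Sn_le`. `j = 1`: `n1_le` and `aF (Sn f) (Sn f) = bF (LT (Sn f)) (Sn f) = bF (Sn (LT f)) (Sn f)` (`green`, `LT_Sn`) and Cauchy-Schwarz or `2 bF u v ≤ bF u u + bF v v`; `LB 1` from `IT2_n1`.
`j + 2`: `LB_step` with `A = coefM m`: `Lu A u = - vol * Lp u`, `Lp (Sn f) = Sn (LT f)`: `LB j` by the induction hypothesis for `LT f` and `LB_mulV` (A1a). `Sn_ULim`: `LB_ULim` (A2), `CauchyL` from `Sn_cauchy` and `n0_le`; the limit is invariant (pointwise limit).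
`solve`: `e` from `BRS.exists_bas` (LibBRS/A2), `s j = lam / (lam + 4 π x_j)` (`0 ≤ x_j`), `V = lim Sn s f`, `F = lim Sn 1 f`; `F = f`: `n0 R (F - f) = 0` for all `R` by `Sn_lim`, `n0_le`, `ULim_n0` (LibQR40/SLb), then continuity; `Lp_ULim` (P1) and `Sn_eq`: `lam V + Lp V = lam f`, `v = V / lam`. -/

open MeasureTheory Set Filter Topology
open scoped ContDiff unitInterval

namespace U36

open BGS QR

variable {Γ : Type} [Group Γ] [MulAction Γ Pl] {D : Set Pl}

theorem S2_tend {v : ℕ → Pl → ℝ} {V : Pl → ℝ} (h : ULim v V) (z : Pl) :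
    Tendsto (fun n => v n z) atTop (𝓝 (V z)) := by
  rw [Metric.tendsto_atTop]
  intro ε hε
  obtain ⟨N, hN⟩ := h.2 [] ‖z‖ (ε / 2) (half_pos hε)
  refine ⟨N, fun n hn => ?_⟩
  have h1 : |v n z - V z| ≤ ε / 2 := hN n hn z (by rw [Q, mem_closedBall_zero_iff])
  rw [Real.dist_eq]
  linarith

theorem S2_young (hX : Surface Γ D) (m : Mt Γ D) (u v : TestS Γ) :
    2 * bF hX m (oneT Γ) u v ≤ bF hX m (oneT Γ) u u + bF hX m (oneT Γ) v v := by
  have P := BRS.pair0 hX m
  have h1 : 0 ≤ bF hX m (oneT Γ) (u - v) (u - v) := by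
    by_cases h : u - v = 0
    · rw [h, map_zero]
    · exact (P.bpos _ h).le
  have h2 : bF hX m (oneT Γ) (u - v) (u - v) =
      bF hX m (oneT Γ) u u - 2 * bF hX m (oneT Γ) u v + bF hX m (oneT Γ) v v := by
    rw [map_sub, map_sub, LinearMap.sub_apply, LinearMap.sub_apply, P.bsym v u]
    ring
  linarith

theorem S2_Lu (m : Mt Γ D) (u : Pl → ℝ) :
    Lu (coefM m) u = fun z => (-vol m z) * Lp m u z := by
  funext z
  have h := (vol_pos m z).ne'
  unfold Lp
  field_simp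

theorem S2_zero (hX : Surface Γ D) (m : Mt Γ D) {e : ℕ → TestS Γ} (h : BRS.IsBas hX m e)
    {s : ℕ → ℝ} (hs : ∀ j, |s j| ≤ 1) (f : TestS Γ) :
    LB 0 (fun n => (Sn hX m e s f n).1) := by
  intro l hl R
  obtain rfl : l = [] := List.eq_nil_of_length_eq_zero (by omega)
  obtain ⟨C, hC, hC2⟩ := n0_le hX m R
  exact ⟨C * bF hX m (oneT Γ) f f, fun n => (hC2 _).trans
    (mul_le_mul_of_nonneg_left (Sn_le hX m h hs f n) hC.le)⟩

theorem S2_one (hX : Surface Γ D) (m : Mt Γ D) {e : ℕ → TestS Γ} (h : BRS.IsBas hX m e)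
    {s : ℕ → ℝ} (hs : ∀ j, |s j| ≤ 1) (f : TestS Γ) :
    LB 1 (fun n => (Sn hX m e s f n).1) := by
  refine LB_succ.2 ⟨S2_zero hX m h hs f, fun b l hl R => ?_⟩
  obtain rfl : l = [] := List.eq_nil_of_length_eq_zero (by omega)
  obtain ⟨C, hC, hC2⟩ := n1_le hX m R
  refine ⟨C * ((bF hX m (oneT Γ) (LT hX m f) (LT hX m f) + bF hX m (oneT Γ) f f) / 2),
    fun n => ?_⟩
  have h1 : n0 R (pd b (Sn hX m e s f n).1) ≤ n1 R (Sn hX m e s f n).1 := by
    rw [IT2_n1 R (Sn hX m e s f n).2.1]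
    have h2 := n0_nonneg R (Dw [true] (Sn hX m e s f n).1)
    have h3 := n0_nonneg R (Dw [false] (Sn hX m e s f n).1)
    cases b
    · show n0 R (Dw [false] (Sn hX m e s f n).1) ≤ _
      linarith
    · show n0 R (Dw [true] (Sn hX m e s f n).1) ≤ _
      linarith
  have h4 : aF hX m (Sn hX m e s f n) (Sn hX m e s f n) ≤
      (bF hX m (oneT Γ) (LT hX m f) (LT hX m f) + bF hX m (oneT Γ) f f) / 2 := by
    rw [← green, LT_Sn hX m h]
    have h5 := S2_young hX m (Sn hX m e s (LT hX m f) n) (Sn hX m e s f n)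
    have h6 := Sn_le hX m h hs f n
    have h7 := Sn_le hX m h hs (LT hX m f) n
    linarith
  exact h1.trans ((hC2 _).trans (mul_le_mul_of_nonneg_left h4 hC.le))

theorem Sn_LB (hX : Surface Γ D) (m : Mt Γ D) {e : ℕ → TestS Γ} (h : BRS.IsBas hX m e)
    {s : ℕ → ℝ} (hs : ∀ j, |s j| ≤ 1) (j : ℕ) (f : TestS Γ) :
    LB j (fun n => (Sn hX m e s f n).1) := by
  have key : ∀ j : ℕ, (∀ f : TestS Γ, LB j (fun n => (Sn hX m e s f n).1)) ∧
      ∀ f : TestS Γ, LB (j + 1) (fun n => (Sn hX m e s f n).1) := by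
    intro j
    induction j with
    | zero => exact ⟨S2_zero hX m h hs, S2_one hX m h hs⟩
    | succ j ih =>
      refine ⟨ih.2, fun f => LB_step (coefM m) (fun n => (Sn hX m e s f n).2.1) (ih.2 f) ?_⟩
      have h1 : (fun n => Lu (coefM m) (Sn hX m e s f n).1) =
          fun n z => (-vol m z) * (Sn hX m e s (LT hX m f) n).1 z := by
        funext n
        rw [S2_Lu, ← LT_Sn hX m h]
        rfl
      rw [h1]
      exact LB_mulV (smooth_vol m).neg (fun n => (Sn hX m e s (LT hX m f) n).2.1)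
        (ih.1 (LT hX m f))
  exact (key j).1 f

theorem Sn_ULim (hX : Surface Γ D) (m : Mt Γ D) {e : ℕ → TestS Γ} (h : BRS.IsBas hX m e)
    {s : ℕ → ℝ} (hs : ∀ j, |s j| ≤ 1) (f : TestS Γ) :
    ∃ V : TestS Γ, ULim (fun n => (Sn hX m e s f n).1) V.1 := by
  have hus : ∀ n, ContDiff ℝ ∞ (Sn hX m e s f n).1 := fun n => (Sn hX m e s f n).2.1
  have hc : CauchyL (fun n => (Sn hX m e s f n).1) := by
    intro R δ hδ
    obtain ⟨C, hC, hC2⟩ := n0_le hX m R
    obtain ⟨N, hN⟩ := Sn_cauchy hX m h hs f (div_pos hδ hC)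
    refine ⟨N, fun n hn k hk => ?_⟩
    have h1 := hC2 (Sn hX m e s f n - Sn hX m e s f k)
    have h2 := mul_le_mul_of_nonneg_left (hN n hn k hk) hC.le
    rw [mul_div_cancel₀ _ hC.ne'] at h2
    exact h1.trans h2
  obtain ⟨V, hV⟩ := LB_ULim hus (fun j => Sn_LB hX m h hs j f) hc
  refine ⟨⟨V, hV.1, fun γ z => ?_⟩, hV⟩
  have h1 := S2_tend hV (γ • z)
  have h2 := S2_tend hV z
  have h3 : (fun n => (Sn hX m e s f n).1 (γ • z)) = fun n => (Sn hX m e s f n).1 z := by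
    funext n
    exact (Sn hX m e s f n).2.2 γ z
  rw [h3] at h1
  exact tendsto_nhds_unique h1 h2

theorem S2_null {w : Pl → ℝ} (hw : Continuous w) (h : ∀ R, n0 R w = 0) (z : Pl) : w z = 0 := by
  have h1 := h (‖z‖ + 1)
  unfold n0 at h1
  rw [setIntegral_eq_zero_iff_of_nonneg_ae (ae_of_all _ fun _ => sq_nonneg _)
    (intQ (hw.pow 2) _)] at h1
  have h2 : w =ᵐ[volume.restrict (Metric.ball (0 : Pl) (‖z‖ + 1))] fun _ => (0 : ℝ) := by
    have h3 := ae_restrict_of_ae_restrict_of_subset (Metric.ball_subset_closedBall) h1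
    filter_upwards [h3] with y hy
    exact pow_eq_zero_iff (two_ne_zero) |>.1 hy
  exact Measure.eqOn_open_of_ae_eq h2 Metric.isOpen_ball hw.continuousOn continuousOn_const
    (by rw [mem_ball_zero_iff]; linarith)

theorem Sn_ULim_one (hX : Surface Γ D) (m : Mt Γ D) {e : ℕ → TestS Γ} (h : BRS.IsBas hX m e)
    (f : TestS Γ) : ULim (fun n => (Sn hX m e (fun _ => 1) f n).1) f.1 := by
  obtain ⟨V, hV⟩ := Sn_ULim hX m h (s := fun _ => 1) (fun _ => by simp) f
  have hVc : Continuous V.1 := V.2.1.continuous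
  have hfc : Continuous f.1 := f.2.1.continuous
  have hus : ∀ n, ContDiff ℝ ∞ (Sn hX m e (fun _ => 1) f n).1 :=
    fun n => (Sn hX m e (fun _ => 1) f n).2.1
  have h0 : ∀ R, n0 R (fun z => V.1 z - f.1 z) = 0 := by
    intro R
    obtain ⟨C, hC, hC2⟩ := n0_le hX m R
    have h1 := (ULim_n0 hus hV [] R).1
    have h2 := Sn_lim hX m h f
    have h3 : Tendsto (fun n => 2 * n0 R (fun z => Dw [] (Sn hX m e (fun _ => 1) f n).1 z -
        Dw [] V.1 z) + 2 * (C * bF hX m (oneT Γ) (Sn hX m e (fun _ => 1) f n - f)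
        (Sn hX m e (fun _ => 1) f n - f))) atTop (𝓝 (2 * 0 + 2 * (C * 0))) :=
      (h1.const_mul 2).add ((h2.const_mul C).const_mul 2)
    rw [mul_zero, mul_zero, mul_zero, add_zero] at h3
    refine le_antisymm (ge_of_tendsto' h3 fun n => ?_) (n0_nonneg R _)
    have hun := (hus n).continuous
    have h4 := IT2_n0_sub_le R (hun.sub hfc) (hun.sub hVc)
    have h5 : n0 R (fun z => ((Sn hX m e (fun _ => 1) f n).1 z - f.1 z) -
        ((Sn hX m e (fun _ => 1) f n).1 z - V.1 z)) = n0 R (fun z => V.1 z - f.1 z) := by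
      congr 1
      funext z
      ring
    have h6 := hC2 (Sn hX m e (fun _ => 1) f n - f)
    have h7 : n0 R (fun z => V.1 z - f.1 z) ≤
        2 * n0 R (fun z => (Sn hX m e (fun _ => 1) f n).1 z - f.1 z) +
        2 * n0 R (fun z => (Sn hX m e (fun _ => 1) f n).1 z - V.1 z) := by
      rw [← h5]
      exact h4
    have h8 : n0 R (fun z => (Sn hX m e (fun _ => 1) f n).1 z - f.1 z) ≤
        C * bF hX m (oneT Γ) (Sn hX m e (fun _ => 1) f n - f)
        (Sn hX m e (fun _ => 1) f n - f) := h6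
    calc n0 R (fun z => V.1 z - f.1 z) ≤ _ := h7
      _ ≤ 2 * (C * bF hX m (oneT Γ) (Sn hX m e (fun _ => 1) f n - f)
        (Sn hX m e (fun _ => 1) f n - f)) +
        2 * n0 R (fun z => (Sn hX m e (fun _ => 1) f n).1 z - V.1 z) := by linarith
      _ = _ := add_comm _ _
  have h9 : V.1 = f.1 := by
    funext z
    have := S2_null (hVc.sub hfc) (fun R => h0 R) z
    exact sub_eq_zero.1 this
  rw [← h9]
  exact hV

theorem solve (hX : Surface Γ D) (m : Mt Γ D) {lam : ℝ} (hl : 0 < lam) (f : TestS Γ) :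
    ∃ v : TestS Γ, ∀ z, lam * v.1 z + Lp m v.1 z = f.1 z := by
  obtain ⟨e, h⟩ := BRS.exists_bas hX m
  have hx : ∀ j, 0 ≤ x m j := fun j => ENNReal.toReal_nonneg
  have hs : ∀ j, |(fun j => lam / (lam + 4 * Real.pi * x m j)) j| ≤ 1 := by
    intro j
    have h1 : 0 ≤ 4 * Real.pi * x m j := mul_nonneg (by positivity) (hx j)
    show |lam / (lam + 4 * Real.pi * x m j)| ≤ 1
    rw [abs_of_nonneg (div_nonneg hl.le (by linarith)), div_le_one (by linarith)]
    linarith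
  obtain ⟨V, hV⟩ := Sn_ULim hX m h hs f
  have hF := Sn_ULim_one hX m h f
  have hus : ∀ n, ContDiff ℝ ∞ (Sn hX m e (fun j => lam / (lam + 4 * Real.pi * x m j)) f n).1 :=
    fun n => (Sn hX m e _ f n).2.1
  have key : ∀ z, lam * V.1 z + Lp m V.1 z = lam * f.1 z := by
    intro z
    have h1 := ((S2_tend hV z).const_mul lam).add (Lp_ULim m hus hV z)
    have h2 := (S2_tend hF z).const_mul lam
    have h3 : (fun n => lam * (Sn hX m e (fun j => lam / (lam + 4 * Real.pi * x m j)) f n).1 z +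
        Lp m (Sn hX m e (fun j => lam / (lam + 4 * Real.pi * x m j)) f n).1 z) =
        fun n => lam * (Sn hX m e (fun _ => 1) f n).1 z := by
      funext n
      exact congrFun (congrArg Subtype.val (Sn_eq hX m h hl f n)) z
    rw [h3] at h1
    exact tendsto_nhds_unique h1 h2
  refine ⟨lam⁻¹ • V, fun z => ?_⟩
  have h1 : (lam⁻¹ • V : TestS Γ).1 = fun y => lam⁻¹ * V.1 y := rfl
  rw [h1, Lp_smul m V.2.1]
  have h2 := key z
  have h3 : lam * (lam⁻¹ * V.1 z) + lam⁻¹ * Lp m V.1 z =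
      lam⁻¹ * (lam * V.1 z + Lp m V.1 z) := by ring
  rw [h3, h2, ← mul_assoc, inv_mul_cancel₀ hl.ne', one_mul]

end U36
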