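import Pool.Agent.LibU36.P1
import Pool.Agent.LibQR40.E2

/-! ROW X1 : maximum principle, curvature, constants. SHORT/MEDIUM. PLAN. `exists_min`: `u` attains its minimum on the compact `closure D` (`D` is not empty: `hX.orbit`), every `z` has `γ • z ∈ D`. `min_pr`: at a minimum `E2_min` (LibQR40/E2): `dx u = dy u = 0`, the Hessian is nonnegative, so `Lu A u z = a u_xx + 2 b u_xy + c u_yy + (dx a + dy b) dx u + (dx b + dy c) dy u ≥ 0`:
with `a > 0`, `a c - b² = 1`: apply the inequality of `E2_min` to `(p, q) = (a, b)` and `(0, 1)`: `a (a u_xx + 2 b u_xy + c u_yy) = [a² u_xx + 2 a b u_xy + b² u_yy] + u_yy ≥ 0`. So `Lp m u z ≤ 0` at the minimum and `lam u z ≥ - Lp m u z ≥ 0`. `curvT`: `curv_smooth` (LibBR70/H1a) and `curv_inv` (LibBGS/Egr). `exists_const`: bounds on the compact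
`closure D` of the continuous function `log (- curv)`. -/

open MeasureTheory Set Filter Topology
open scoped ContDiff unitInterval

namespace U36

open BGS QR

variable {Γ : Type} [Group Γ] [MulAction Γ Pl] {D : Set Pl}

theorem X1_Lu {u : Pl → ℝ} (A : Coef) (hu : ContDiff ℝ ∞ u) (z : Pl) :
    Lu A u z = dx A.a z * dx u z + A.a z * dx (dx u) z + (dx A.b z * dy u z + A.b z * dx (dy u) z)
      + (dy A.b z * dx u z + A.b z * dy (dx u) z + (dy A.c z * dy u z + A.c z * dy (dy u) z)) := by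
  have hx := Egr_smooth_dx hu
  have hy := Egr_smooth_dy hu
  have h1 : dx (fx A u) z = dx A.a z * dx u z + A.a z * dx (dx u) z +
      (dx A.b z * dy u z + A.b z * dx (dy u) z) := by
    have e1 := pd_add (A.ha.mul hx) (A.hb.mul hy) true z
    have e2 := pd_mul A.ha hx true z
    have e3 := pd_mul A.hb hy true z
    have e4 : dx (fx A u) z = pd true (fun y => A.a y * dx u y + A.b y * dy u y) z := rfl
    rw [e4]
    refine e1.trans ?_
    exact congrArg₂ (· + ·) e2 e3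
  have h2 : dy (fy A u) z = dy A.b z * dx u z + A.b z * dy (dx u) z +
      (dy A.c z * dy u z + A.c z * dy (dy u) z) := by
    have e1 := pd_add (A.hb.mul hx) (A.hc.mul hy) false z
    have e2 := pd_mul A.hb hx false z
    have e3 := pd_mul A.hc hy false z
    have e4 : dy (fy A u) z = pd false (fun y => A.b y * dx u y + A.c y * dy u y) z := rfl
    rw [e4]
    refine e1.trans ?_
    exact congrArg₂ (· + ·) e2 e3
  unfold Lu
  rw [h1, h2]

theorem exists_min (hX : Surface Γ D) (u : TestS Γ) : ∃ z, ∀ y, u.1 z ≤ u.1 y := by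
  have hu : u.1 ∈ Test Γ := u.2
  obtain ⟨γ0, h0, -⟩ := hX.orbit 0
  have hne : (closure D).Nonempty := ⟨γ0 • (0 : Pl), subset_closure h0⟩
  obtain ⟨z, -, hz⟩ := hX.bdd.isCompact_closure.exists_isMinOn hne hu.1.continuous.continuousOn
  refine ⟨z, fun y => ?_⟩
  obtain ⟨γ, hγ, -⟩ := hX.orbit y
  rw [← hu.2 γ y]
  exact hz (subset_closure hγ)

theorem Lp_min (m : Mt Γ D) {u : Pl → ℝ} (hu : ContDiff ℝ ∞ u) {z : Pl} (hz : ∀ y, u z ≤ u y) :
    Lp m u z ≤ 0 := by
  obtain ⟨h1, h2, h3⟩ := E2_min hu hz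
  have hL := X1_Lu (coefM m) hu z
  rw [h1, h2, Egr_symm hu z] at hL
  have ha := (coefM m).pos z
  have hd := (coefM m).det z
  have hp := h3 ((coefM m).a z) ((coefM m).b z)
  have hq := h3 0 1
  have key : 0 ≤ (coefM m).a z * Lu (coefM m) u z := by
    have e : (coefM m).a z * Lu (coefM m) u z =
        (dx (dx u) z * (coefM m).a z ^ 2 +
          2 * dx (dy u) z * ((coefM m).a z * (coefM m).b z) + dy (dy u) z * (coefM m).b z ^ 2) +
        ((coefM m).a z * (coefM m).c z - (coefM m).b z ^ 2) * dy (dy u) z := by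
      rw [hL]
      ring
    rw [e, hd]
    have hq' : 0 ≤ dy (dy u) z := by
      have : dx (dx u) z * 0 ^ 2 + 2 * dx (dy u) z * (0 * 1) + dy (dy u) z * 1 ^ 2 =
          dy (dy u) z := by ring
      rw [this] at hq
      exact hq
    linarith
  have h4 : 0 ≤ Lu (coefM m) u z := nonneg_of_mul_nonneg_right key ha
  unfold Lp
  exact neg_nonpos.2 (div_nonneg h4 (vol_pos m z).le)

theorem min_pr (hX : Surface Γ D) (m : Mt Γ D) {lam : ℝ} (hl : 0 < lam) (u : TestS Γ)
    (h : ∀ z, 0 ≤ lam * u.1 z + Lp m u.1 z) (z : Pl) : 0 ≤ u.1 z := by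
  have hu : u.1 ∈ Test Γ := u.2
  obtain ⟨z0, h0⟩ := exists_min hX u
  have h1 := Lp_min m hu.1 h0
  have h2 := h z0
  have h3 : 0 ≤ lam * u.1 z0 := by linarith
  exact (nonneg_of_mul_nonneg_right h3 hl).trans (h0 z)

theorem curvT (hX : Surface Γ D) (m : Mt Γ D) : curv m.1.1 ∈ Test Γ := by
  exact ⟨BR.curv_smooth m.1.2 m.2.pos,
    fun γ z => curv_inv hX m.1 (fun z => (m.2.pos z).2) m.2.inv γ z⟩

theorem exists_const (hX : Surface Γ D) (m : Mt Γ D) : ∃ c0 c1 : ℝ, c0 ≤ c1 ∧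
    ∀ z, Real.exp c0 ≤ -curv m.1.1 z ∧ -curv m.1.1 z ≤ Real.exp c1 := by
  have hc := curvT hX m
  have hn : ∀ z, 0 < -curv m.1.1 z := fun z => neg_pos.2 (m.2.neg z)
  have hmem : (fun z => Real.log (-curv m.1.1 z)) ∈ Test Γ :=
    ⟨hc.1.neg.log fun z => (hn z).ne', fun γ z => by
      show Real.log (-curv m.1.1 (γ • z)) = Real.log (-curv m.1.1 z)
      rw [hc.2 γ z]⟩
  have hmem' : (fun z => -Real.log (-curv m.1.1 z)) ∈ Test Γ :=
    ⟨hmem.1.neg, fun γ z => congrArg Neg.neg (hmem.2 γ z)⟩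
  obtain ⟨z0, h0⟩ := exists_min hX (⟨_, hmem⟩ : TestS Γ)
  obtain ⟨z1, h1⟩ := exists_min hX (⟨_, hmem'⟩ : TestS Γ)
  have h0' : ∀ z, Real.log (-curv m.1.1 z0) ≤ Real.log (-curv m.1.1 z) := h0
  have h1' : ∀ z, -Real.log (-curv m.1.1 z1) ≤ -Real.log (-curv m.1.1 z) := h1
  refine ⟨Real.log (-curv m.1.1 z0), Real.log (-curv m.1.1 z1), h0' z1, fun z => ⟨?_, ?_⟩⟩
  · have := Real.exp_le_exp.2 (h0' z)
    rwa [Real.exp_log (hn z)] at this
  · have := Real.exp_le_exp.2 (neg_le_neg_iff.1 (h1' z))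
    rwa [Real.exp_log (hn z)] at this

end U36
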