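import Pool.Agent.LibU36.X1
import Pool.Agent.LibU36.S2

/-! ROW X2 : the monotone iteration. MEDIUM. PLAN. `f k z = lam u_k - 2 exp u_k - 2 curv` is in `Test Γ` for `u_k ∈ Test Γ`; `u (k + 1)` from `solve` (S2) (`choose`, `Nat.rec`), `u 0 = c1`. With `g t = lam t - 2 exp t`, increasing on `(-∞, c1]` as `lam = 2 exp c1` (`g s - g t = lam (s - t) - 2 (exp s - exp t)`, `exp s - exp t ≤ exp s (s - t)` for `t ≤ s`: `Real.add_one_le_exp`).
By induction `c0 ≤ u_{k+1} ≤ u_k ≤ c1`: `lam (u_k - u_{k+1}) + Lp (u_k - u_{k+1}) = g (u_{k-1}) - g (u_k) ≥ 0` for `k ≥ 1`; for `k = 0`: `lam (c1 - u_1) + Lp = 2 exp c1 + 2 curv ≥ 0`; `lam (u_{k+1} - c0) + Lp = g (u_k) - g c0 - 2 exp c0 - 2 curv ≥ 0`; then `min_pr` (X1), with `Lp_sub`, `Lp_const` (P1). -/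

open MeasureTheory Set Filter Topology
open scoped ContDiff unitInterval

namespace U36

open BGS QR

variable {Γ : Type} [Group Γ] [MulAction Γ Pl] {D : Set Pl}

theorem X2_mono {c1 s t : ℝ} (hst : t ≤ s) (hs : s ≤ c1) :
    2 * Real.exp c1 * t - 2 * Real.exp t ≤ 2 * Real.exp c1 * s - 2 * Real.exp s := by
  have h1 := Real.add_one_le_exp (t - s)
  have h2 : Real.exp t = Real.exp s * Real.exp (t - s) := by
    rw [← Real.exp_add]
    congr 1
    ring
  have h3 : Real.exp s * (t - s + 1) ≤ Real.exp t := by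
    rw [h2]
    exact mul_le_mul_of_nonneg_left h1 (Real.exp_pos s).le
  have h4 : Real.exp s * (s - t) ≤ Real.exp c1 * (s - t) :=
    mul_le_mul_of_nonneg_right (Real.exp_le_exp.2 hs) (by linarith)
  linarith

/-- The right side of the iteration. -/
noncomputable def X2_F (hX : Surface Γ D) (m : Mt Γ D) (lam : ℝ) (u : TestS Γ) : TestS Γ :=
  ⟨fun z => lam * u.1 z - 2 * Real.exp (u.1 z) - 2 * curv m.1.1 z, by
    have hu : u.1 ∈ Test Γ := u.2
    have hc := curvT hX m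
    refine ⟨((contDiff_const.mul hu.1).sub (contDiff_const.mul (Real.contDiff_exp.comp hu.1))).sub
      (contDiff_const.mul hc.1), fun γ z => ?_⟩
    show lam * u.1 (γ • z) - 2 * Real.exp (u.1 (γ • z)) - 2 * curv m.1.1 (γ • z) = _
    rw [hu.2 γ z, hc.2 γ z]⟩

theorem iter (hX : Surface Γ D) (m : Mt Γ D) {c0 c1 : ℝ} (h01 : c0 ≤ c1)
    (hc : ∀ z, Real.exp c0 ≤ -curv m.1.1 z ∧ -curv m.1.1 z ≤ Real.exp c1) :
    ∃ u : ℕ → TestS Γ, (∀ z, (u 0).1 z = c1) ∧ (∀ k z, c0 ≤ (u k).1 z ∧ (u k).1 z ≤ c1) ∧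
      (∀ k z, (u (k + 1)).1 z ≤ (u k).1 z) ∧
      ∀ k z, 2 * Real.exp c1 * (u (k + 1)).1 z + Lp m (u (k + 1)).1 z =
        2 * Real.exp c1 * (u k).1 z - 2 * Real.exp ((u k).1 z) - 2 * curv m.1.1 z := by
  have hl : 0 < 2 * Real.exp c1 := by positivity
  choose S hS using fun f : TestS Γ => solve hX m hl f
  have hconst : ∀ c : ℝ, (fun _ : Pl => c) ∈ Test Γ := fun c => ⟨contDiff_const, fun _ _ => rfl⟩
  obtain ⟨u, hu0, hus⟩ : ∃ u : ℕ → TestS Γ, u 0 = ⟨_, hconst c1⟩ ∧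
      ∀ k, u (k + 1) = S (X2_F hX m (2 * Real.exp c1) (u k)) :=
    ⟨fun k => Nat.rec ⟨_, hconst c1⟩ (fun _ v => S (X2_F hX m (2 * Real.exp c1) v)) k, rfl,
      fun _ => rfl⟩
  have h0 : ∀ z, (u 0).1 z = c1 := fun z => by rw [hu0]
  have hrec : ∀ k z, 2 * Real.exp c1 * (u (k + 1)).1 z + Lp m (u (k + 1)).1 z =
      2 * Real.exp c1 * (u k).1 z - 2 * Real.exp ((u k).1 z) - 2 * curv m.1.1 z := by
    intro k z
    have := hS (X2_F hX m (2 * Real.exp c1) (u k)) z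
    rw [← hus k] at this
    exact this
  have hsm : ∀ k, ContDiff ℝ ∞ (u k).1 := fun k => by
    have h : (u k).1 ∈ Test Γ := (u k).2
    exact h.1
  have hdiff : ∀ v w : TestS Γ, ContDiff ℝ ∞ v.1 → ContDiff ℝ ∞ w.1 →
      (∀ z, 0 ≤ 2 * Real.exp c1 * (v.1 z - w.1 z) + (Lp m v.1 z - Lp m w.1 z)) →
      ∀ z, w.1 z ≤ v.1 z := by
    intro v w hv hw h z
    have h1 := min_pr hX m hl (v - w) (fun y => ?_) z
    · have h2 : (v - w).1 z = v.1 z - w.1 z := rfl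
      rw [h2] at h1
      linarith
    · have h2 : (v - w).1 = fun y => v.1 y - w.1 y := rfl
      rw [h2, Lp_sub m hv hw y]
      exact h y
  have hP : ∀ k, (∀ z, c0 ≤ (u k).1 z ∧ (u k).1 z ≤ c1) ∧
      ∀ z, (u (k + 1)).1 z ≤ (u k).1 z := by
    intro k
    induction k with
    | zero =>
      refine ⟨fun z => by rw [h0 z]; exact ⟨h01, le_refl _⟩, ?_⟩
      refine hdiff (u 0) (u 1) (hsm 0) (hsm 1) fun z => ?_
      have h1 := hrec 0 z
      have h2 : Lp m (u 0).1 z = 0 := by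
        rw [hu0]
        exact Lp_const m c1 z
      have h3 := (hc z).2
      have h4 := h0 z
      rw [h4] at h1
      rw [h2, h4]
      have h5 : (0 + 1 : ℕ) = 1 := rfl
      rw [h5] at h1
      linarith
    | succ k ih =>
      obtain ⟨ih1, ih2⟩ := ih
      have hlow : ∀ z, c0 ≤ (u (k + 1)).1 z := by
        refine hdiff (u (k + 1)) ⟨_, hconst c0⟩ (hsm (k + 1)) contDiff_const fun z => ?_
        have h1 := hrec k z
        have h2 : Lp m (fun _ => c0) z = 0 := Lp_const m c0 z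
        have h3 := (hc z).1
        have h4 := X2_mono (ih1 z).1 (ih1 z).2
        show 0 ≤ 2 * Real.exp c1 * ((u (k + 1)).1 z - c0) +
          (Lp m (u (k + 1)).1 z - Lp m (fun _ => c0) z)
        rw [h2]
        linarith
      refine ⟨fun z => ⟨hlow z, (ih2 z).trans (ih1 z).2⟩, ?_⟩
      refine hdiff (u (k + 1)) (u (k + 1 + 1)) (hsm _) (hsm _) fun z => ?_
      have h1 := hrec k z
      have h2 := hrec (k + 1) z
      have h4 := X2_mono (ih2 z) (ih1 z).2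
      linarith
  exact ⟨u, h0, fun k => (hP k).1, fun k => (hP k).2, hrec⟩

end U36
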