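import Pool.Agent.LibU36.X1
import Pool.Agent.LibU36.P2
import Pool.Agent.LibU36.A1b
import Pool.Agent.LibU36.A2

/-! ROW X3 : bounds of the iteration, the limit. MEDIUM. PLAN. `iter_LB`: `LB 0`: `SB_of` (A1a), `LB_of_SB`. `LB 1`: for `k = 0` constant; `aF u u = bF (LT u) u = ∫_D (Lp u) u vol` (`green` P2, `bF_apply`) is bounded by the sup bounds (`Lp u_{k+1} = lam (u_k - u_{k+1}) - 2 exp u_k - 2 curv`, `curv` is bounded: `exists_const`-type hypothesis `hc`), `n1_le` (LibQR40/B2a), `IT2_n1`.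
`LB 2`: `LB_step` with `Lu A u = - vol * Lp u`, bounded (`SB 0`, so `LB 0`). Then by induction `LB (j + 2) → LB (j + 3)`: `SB j` (`LB_SB`), `LB (j + 1) (exp u)` (`LB_exp`), `LB (j + 1) (Lp u)` (`LB_add`, `LB_sub`, `LB_const`, shift of the index: a bound for all `k` gives a bound for all `k + 1`), `LB_mulV` (`vol`), `LB_step`. The statement is for all `k`; `u 0` is constant, so treat
the family `fun k => u (k + 1)` and add `u 0` (`max` of the two bounds). `iter_lim`: `u_k` decreases and is bounded below, so it converges at every point; `CauchyL`: dominated convergence on `Q R` (`tendsto_integral_of_dominated_convergence`, limit function `U z = ⨅ k, u k z`; `n0 R (u n - u m) ≤ 2 n0 (u n - U) + 2 n0 (u m - U)`), `LB_ULim` (A2); the limit is invariant;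
the equation: `Lp_ULim` (P1) along `k + 1`. -/

open MeasureTheory Set Filter Topology
open scoped ContDiff unitInterval

namespace U36

open BGS QR

variable {Γ : Type} [Group Γ] [MulAction Γ Pl] {D : Set Pl}

theorem X3_shift {j : ℕ} {v : ℕ → Pl → ℝ} (h : LB j v) : LB j (fun k => v (k + 1)) := by
  intro l hl R
  obtain ⟨C, hC⟩ := h l hl R
  exact ⟨C, fun i => hC (i + 1)⟩

theorem X3_unshift {j : ℕ} {v : ℕ → Pl → ℝ} (h : LB j (fun k => v (k + 1))) : LB j v := by
  intro l hl R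
  obtain ⟨C, hC⟩ := h l hl R
  refine ⟨max C (n0 R (Dw l (v 0))), fun i => ?_⟩
  cases i with
  | zero => exact le_max_right _ _
  | succ i => exact (hC i).trans (le_max_left _ _)

theorem X3_Lu (m : Mt Γ D) (v : Pl → ℝ) (z : Pl) :
    Lu (coefM m) v z = -vol m z * Lp m v z := by
  unfold Lp
  have h := (vol_pos m z).ne'
  field_simp

/-- The right hand side of the equation, and the operator. -/
theorem X3_rhs (hX : Surface Γ D) (m : Mt Γ D) {lam : ℝ} {u : ℕ → TestS Γ} {j : ℕ}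
    (he : ∀ k z, lam * (u (k + 1)).1 z + Lp m (u (k + 1)).1 z =
      lam * (u k).1 z - 2 * Real.exp ((u k).1 z) - 2 * curv m.1.1 z)
    (h1 : LB j (fun k => (u k).1)) (h2 : LB j (fun k z => Real.exp ((u k).1 z))) :
    LB j (fun k => Lu (coefM m) (u (k + 1)).1) := by
  have hK : ContDiff ℝ ∞ (curv m.1.1) := (curvT hX m).1
  have hus : ∀ k, ContDiff ℝ ∞ (u k).1 := fun k => (u k).2.1
  have hes : ∀ k, ContDiff ℝ ∞ fun z => Real.exp ((u k).1 z) := fun k => (hus k).exp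
  have cd : ∀ c : ℝ, ContDiff ℝ ∞ fun _ : Pl => c := fun c => contDiff_const
  have a1 : LB j (fun k z => lam * (u k).1 z) := LB_mulV (cd lam) hus h1
  have a2 : LB j (fun k z => lam * (u (k + 1)).1 z) :=
    LB_mulV (cd lam) (fun k => hus (k + 1)) (X3_shift h1)
  have a3 : LB j (fun k z => 2 * Real.exp ((u k).1 z)) := LB_mulV (cd 2) hes h2
  have a4 : LB j (fun (_ : ℕ) z => 2 * curv m.1.1 z) := LB_const
  have s1 : ∀ k, ContDiff ℝ ∞ fun z => lam * (u k).1 z := fun k => (cd lam).mul (hus k)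
  have s2 : ∀ k, ContDiff ℝ ∞ fun z => lam * (u (k + 1)).1 z := fun k => (cd lam).mul (hus (k + 1))
  have s3 : ∀ k, ContDiff ℝ ∞ fun z => 2 * Real.exp ((u k).1 z) := fun k => (cd 2).mul (hes k)
  have s4 : ∀ _ : ℕ, ContDiff ℝ ∞ fun z => 2 * curv m.1.1 z := fun _ => (cd 2).mul hK
  have b1 := LB_sub s1 s2 a1 a2
  have b2 := LB_sub (fun k => (s1 k).sub (s2 k)) s3 b1 a3
  have b3 := LB_sub (fun k => ((s1 k).sub (s2 k)).sub (s3 k)) s4 b2 a4
  have b4 := LB_mulV (V := fun z => -vol m z) (smooth_vol m).neg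
    (fun k => (((s1 k).sub (s2 k)).sub (s3 k)).sub (s4 k)) b3
  have e : (fun k => Lu (coefM m) (u (k + 1)).1) = fun k z => -vol m z *
      (lam * (u k).1 z - lam * (u (k + 1)).1 z - 2 * Real.exp ((u k).1 z) -
        2 * curv m.1.1 z) := by
    funext k z
    rw [X3_Lu]
    have := he k z
    congr 1
    linarith
  rw [e]
  exact b4

theorem X3_SB0 {c0 c1 : ℝ} {u : ℕ → TestS Γ} (hb : ∀ k z, c0 ≤ (u k).1 z ∧ (u k).1 z ≤ c1) :
    SB 0 (fun k => (u k).1) :=
  SB_of (M := max |c0| |c1|) fun k z => abs_le_max_abs_abs (hb k z).1 (hb k z).2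

theorem X3_LB1 (hX : Surface Γ D) (m : Mt Γ D) {c0 c1 lam : ℝ} {u : ℕ → TestS Γ}
    (hc : ∀ z, Real.exp c0 ≤ -curv m.1.1 z ∧ -curv m.1.1 z ≤ Real.exp c1)
    (hb : ∀ k z, c0 ≤ (u k).1 z ∧ (u k).1 z ≤ c1)
    (he : ∀ k z, lam * (u (k + 1)).1 z + Lp m (u (k + 1)).1 z =
      lam * (u k).1 z - 2 * Real.exp ((u k).1 z) - 2 * curv m.1.1 z) :
    LB 1 (fun k => (u (k + 1)).1) := by
  have hus : ∀ k, ContDiff ℝ ∞ (u k).1 := fun k => (u k).2.1
  have h0 : LB 0 (fun k => (u (k + 1)).1) :=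
    X3_shift (v := fun k => (u k).1) (LB_of_SB hus (X3_SB0 hb))
  set M : ℝ := max |c0| |c1| with hM
  have hM0 : 0 ≤ M := (abs_nonneg _).trans (le_max_left _ _)
  have hbM : ∀ k z, |(u k).1 z| ≤ M := fun k z => abs_le_max_abs_abs (hb k z).1 (hb k z).2
  set B : ℝ := |lam| * (2 * M) + 4 * Real.exp c1 with hB
  have hLp : ∀ k z, |Lp m (u (k + 1)).1 z| ≤ B := by
    intro k z
    have e1 : Lp m (u (k + 1)).1 z = lam * ((u k).1 z - (u (k + 1)).1 z) -
        2 * Real.exp ((u k).1 z) - 2 * curv m.1.1 z := by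
      have := he k z
      linarith
    have e2 : |lam * ((u k).1 z - (u (k + 1)).1 z)| ≤ |lam| * (2 * M) := by
      rw [abs_mul]
      refine mul_le_mul_of_nonneg_left ?_ (abs_nonneg _)
      refine (abs_sub _ _).trans ?_
      have := hbM k z
      have := hbM (k + 1) z
      linarith
    have e3 := abs_le.1 e2
    have e4 : Real.exp ((u k).1 z) ≤ Real.exp c1 := Real.exp_le_exp.2 (hb k z).2
    have e5 := Real.exp_pos ((u k).1 z)
    have e6 := Real.exp_pos c0
    have e7 := hc z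
    rw [e1, abs_le]
    constructor <;> linarith [e3.1, e3.2, e7.1, e7.2]
  have hB0 : 0 ≤ B := by positivity
  have haF : ∀ k, aF hX m (u (k + 1)) (u (k + 1)) ≤ ∫ z in D, B * M * √(dt (m.1.1 z)) := by
    intro k
    rw [← green, bF_apply]
    refine integral_mono
      (Cmp_int hX (BGR_b_cont m (oneT Γ).2.1 (LT hX m (u (k + 1))).2.1 (u (k + 1)).2.1))
      (Cmp_int hX (continuous_const.mul (BGR_rho m))) fun z => ?_
    show 1 * Lp m (u (k + 1)).1 z * (u (k + 1)).1 z * √(dt (m.1.1 z)) ≤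
      B * M * √(dt (m.1.1 z))
    refine mul_le_mul_of_nonneg_right ?_ (Real.sqrt_nonneg _)
    rw [one_mul]
    refine (le_abs_self _).trans ?_
    rw [abs_mul]
    exact mul_le_mul (hLp k z) (hbM (k + 1) z) (abs_nonneg _) hB0
  refine LB_succ.2 ⟨h0, fun b => ?_⟩
  intro l hl R
  obtain rfl : l = [] := List.length_eq_zero_iff.1 (Nat.le_zero.1 hl)
  obtain ⟨C, hC, hC1⟩ := n1_le hX m R
  refine ⟨C * ∫ z in D, B * M * √(dt (m.1.1 z)), fun k => ?_⟩
  have h1 := (hC1 (u (k + 1))).trans (mul_le_mul_of_nonneg_left (haF k) hC.le)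
  rw [IT2_n1 R (hus (k + 1))] at h1
  have h2 := n0_nonneg R (Dw [true] (u (k + 1)).1)
  have h3 := n0_nonneg R (Dw [false] (u (k + 1)).1)
  cases b
  · show n0 R (Dw [false] (u (k + 1)).1) ≤ _
    linarith
  · show n0 R (Dw [true] (u (k + 1)).1) ≤ _
    linarith

theorem iter_LB (hX : Surface Γ D) (m : Mt Γ D) {c0 c1 lam : ℝ} {u : ℕ → TestS Γ}
    (hc : ∀ z, Real.exp c0 ≤ -curv m.1.1 z ∧ -curv m.1.1 z ≤ Real.exp c1)
    (h0 : ∀ z, (u 0).1 z = c1) (hb : ∀ k z, c0 ≤ (u k).1 z ∧ (u k).1 z ≤ c1)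
    (he : ∀ k z, lam * (u (k + 1)).1 z + Lp m (u (k + 1)).1 z =
      lam * (u k).1 z - 2 * Real.exp ((u k).1 z) - 2 * curv m.1.1 z) (j : ℕ) :
    LB j (fun k => (u k).1) := by
  have hus : ∀ k, ContDiff ℝ ∞ (u k).1 := fun k => (u k).2.1
  have hes : ∀ k, ContDiff ℝ ∞ fun z => Real.exp ((u k).1 z) := fun k => (hus k).exp
  have hS0 := X3_SB0 hb
  have hL0 : LB 0 (fun k => (u k).1) := LB_of_SB hus hS0
  have hE0 : LB 0 (fun k z => Real.exp ((u k).1 z)) := LB_of_SB hes (SB_exp hus hS0)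
  have hL1 := X3_LB1 hX m hc hb he
  have hmain : ∀ j : ℕ, LB (j + 2) (fun k => (u k).1) := by
    intro j
    induction j with
    | zero =>
      refine X3_unshift (v := fun k => (u k).1) ?_
      exact LB_step (coefM m) (fun k => hus (k + 1)) hL1
        (X3_rhs hX m he hL0 hE0)
    | succ j ih =>
      refine X3_unshift (v := fun k => (u k).1) ?_
      have h1 : SB j (fun k => (u k).1) := LB_SB hus ih
      have h2 : LB (j + 1) (fun k => (u k).1) := LB_mono (by omega) ih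
      have h3 : LB (j + 1) (fun k z => Real.exp ((u k).1 z)) := LB_exp hus h1 h2
      exact LB_step (coefM m) (fun k => hus (k + 1))
        (X3_shift (v := fun k => (u k).1) ih)
        (X3_rhs hX m he h2 h3)
  exact LB_mono (by omega) (hmain j)

theorem X3_le {c0 c1 : ℝ} {u : ℕ → TestS Γ} (hb : ∀ k z, c0 ≤ (u k).1 z ∧ (u k).1 z ≤ c1)
    (hd : ∀ k z, (u (k + 1)).1 z ≤ (u k).1 z) (R : ℝ) {n m : ℕ} (h : n ≤ m) :
    n0 R (fun z => (u n).1 z - (u m).1 z) ≤
      (c1 - c0) * ((∫ z in Q R, (u n).1 z) - ∫ z in Q R, (u m).1 z) := by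
  have hus : ∀ k, Continuous (u k).1 := fun k => (u k).2.1.continuous
  have han : ∀ z, (u m).1 z ≤ (u n).1 z := fun z =>
    (antitone_nat_of_succ_le (f := fun k => (u k).1 z) fun k => hd k z) h
  rw [← integral_sub (intQ (hus n) R) (intQ (hus m) R), ← integral_const_mul]
  unfold n0
  refine integral_mono (intQ (((hus n).sub (hus m)).pow 2) R)
    ((intQ ((hus n).sub (hus m)) R).const_mul _) fun z => ?_
  have h1 := han z
  have h2 := (hb n z).2
  have h3 := (hb m z).1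
  show ((u n).1 z - (u m).1 z) ^ 2 ≤ (c1 - c0) * ((u n).1 z - (u m).1 z)
  nlinarith

theorem X3_cauchy {c0 c1 : ℝ} {u : ℕ → TestS Γ} (hb : ∀ k z, c0 ≤ (u k).1 z ∧ (u k).1 z ≤ c1)
    (hd : ∀ k z, (u (k + 1)).1 z ≤ (u k).1 z) : CauchyL (fun k => (u k).1) := by
  intro R δ hδ
  have hus : ∀ k, Continuous (u k).1 := fun k => (u k).2.1.continuous
  set a : ℕ → ℝ := fun n => ∫ z in Q R, (u n).1 z with ha
  have ha1 : Antitone a := antitone_nat_of_succ_le fun n =>
    integral_mono (intQ (hus (n + 1)) R) (intQ (hus n) R) fun z => hd n z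
  have ha2 : BddBelow (range a) := by
    refine ⟨∫ _ in Q R, c0, ?_⟩
    rintro _ ⟨n, rfl⟩
    exact integral_mono (intQ continuous_const R) (intQ (hus n) R) fun z => (hb n z).1
  have ha3 := (tendsto_atTop_ciInf ha1 ha2).cauchySeq
  have hd0 : 0 ≤ c1 - c0 := by
    have h1 := hb 0 0
    linarith [h1.1, h1.2]
  obtain ⟨N, hN⟩ := Metric.cauchySeq_iff.1 ha3 (δ / (c1 - c0 + 1)) (by positivity)
  have key : ∀ n, N ≤ n → ∀ m, N ≤ m → n ≤ m →
      n0 R (fun z => (u n).1 z - (u m).1 z) ≤ δ := by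
    intro n hn m hm hnm
    refine (X3_le hb hd R hnm).trans ?_
    have h1 := hN n hn m hm
    rw [Real.dist_eq] at h1
    have h2 : a n - a m ≤ δ / (c1 - c0 + 1) := (le_abs_self _).trans h1.le
    calc (c1 - c0) * (a n - a m) ≤ (c1 - c0) * (δ / (c1 - c0 + 1)) :=
          mul_le_mul_of_nonneg_left h2 hd0
      _ ≤ (c1 - c0 + 1) * (δ / (c1 - c0 + 1)) :=
          mul_le_mul_of_nonneg_right (by linarith) (by positivity)
      _ = δ := by field_simp
  refine ⟨N, fun n hn m hm => ?_⟩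
  rcases le_total n m with h | h
  · exact key n hn m hm h
  · have h1 := key m hm n hn h
    have h2 : n0 R (fun z => (u n).1 z - (u m).1 z) =
        n0 R (fun z => (u m).1 z - (u n).1 z) := by
      unfold n0
      congr 1
      funext z
      ring
    exact h2.le.trans h1

theorem X3_pt {v : ℕ → Pl → ℝ} {V : Pl → ℝ} (h : ULim v V) (z : Pl) :
    Tendsto (fun n => v n z) atTop (𝓝 (V z)) := by
  rw [Metric.tendsto_atTop]
  intro ε hε
  obtain ⟨N, hN⟩ := h.2 [] ‖z‖ (ε / 2) (by positivity)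
  refine ⟨N, fun n hn => ?_⟩
  have h1 : |v n z - V z| ≤ ε / 2 := hN n hn z (by
    rw [Q, mem_closedBall_zero_iff])
  rw [Real.dist_eq]
  linarith

theorem iter_lim (hX : Surface Γ D) (m : Mt Γ D) {c0 c1 lam : ℝ} {u : ℕ → TestS Γ}
    (hc : ∀ z, Real.exp c0 ≤ -curv m.1.1 z ∧ -curv m.1.1 z ≤ Real.exp c1)
    (h0 : ∀ z, (u 0).1 z = c1) (hb : ∀ k z, c0 ≤ (u k).1 z ∧ (u k).1 z ≤ c1)
    (hd : ∀ k z, (u (k + 1)).1 z ≤ (u k).1 z)
    (he : ∀ k z, lam * (u (k + 1)).1 z + Lp m (u (k + 1)).1 z =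
      lam * (u k).1 z - 2 * Real.exp ((u k).1 z) - 2 * curv m.1.1 z) :
    ∃ w ∈ Test Γ, ∀ z, Lp m w z = -2 * Real.exp (w z) - 2 * curv m.1.1 z := by
  have hus : ∀ k, ContDiff ℝ ∞ (u k).1 := fun k => (u k).2.1
  obtain ⟨V, hV⟩ := LB_ULim hus (fun j => iter_LB hX m hc h0 hb he j) (X3_cauchy hb hd)
  have hpt := fun z => X3_pt hV z
  refine ⟨V, ⟨hV.1, fun γ z => ?_⟩, fun z => ?_⟩
  · refine tendsto_nhds_unique (hpt (γ • z)) ?_
    have h1 : (fun n => (u n).1 (γ • z)) = fun n => (u n).1 z := by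
      funext n
      exact (u n).2.2 γ z
    rw [h1]
    exact hpt z
  · have h1 := (Lp_ULim m hus hV z).comp (tendsto_add_atTop_nat 1)
    have h2 := (hpt z).comp (tendsto_add_atTop_nat 1)
    have h3 : Tendsto (fun n => lam * (u n).1 z - lam * (u (n + 1)).1 z -
        2 * Real.exp ((u n).1 z) - 2 * curv m.1.1 z) atTop
        (𝓝 (lam * V z - lam * V z - 2 * Real.exp (V z) - 2 * curv m.1.1 z)) :=
      ((((hpt z).const_mul lam).sub (h2.const_mul lam)).sub
        (((Real.continuous_exp.tendsto _).comp (hpt z)).const_mul 2)).sub tendsto_const_nhds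
    have h4 : Tendsto (fun n => lam * (u n).1 z - lam * (u (n + 1)).1 z -
        2 * Real.exp ((u n).1 z) - 2 * curv m.1.1 z) atTop (𝓝 (Lp m V z)) := by
      refine h1.congr fun n => ?_
      have := he n z
      show Lp m (u (n + 1)).1 z = _
      linarith
    have h5 := tendsto_nhds_unique h4 h3
    rw [h5]
    ring

end U36
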