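import Pool.Agent.LibU36.Defs
import Pool.Agent.LibB35.FA0

/-! ROW X4 : the curvature of a conformal metric. MEDIUM. PLAN. `F0_conf` in LibB35/FA0 (private; copy it with its lemmas) is the formula with explicit coefficients; it remains to identify `∑ F0_c F0_j` with `Lp m w / 2`: `Lu (coefM m) w = dx ((G w_x - F w_y) / W) + dy ((- F w_x + E w_y) / W)`, `W = √(E G - F²)` (`vol`), `dx W = dx (W²) / (2 W)` etc. (`vol_sq`, `smooth_vol`, `fderiv` of a quotient),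
`field_simp`, `ring`. Also `dy (dx w) = dx (dy w)` (`Egr_symm`). -/

open MeasureTheory Set Filter Topology
open scoped ContDiff unitInterval

namespace U36

open BGS QR

variable {Γ : Type} [Group Γ] [MulAction Γ Pl] {D : Set Pl}

section X4aux

variable {m : Pl → Co}

/-! ### derivatives of `exp f * g` (as in LibBGM20/E2l) -/

/-- The derivative in the direction `v`. -/
private noncomputable def X4_d (v : Pl) (g : Pl → ℝ) (z : Pl) : ℝ := fderiv ℝ g z v

private theorem X4_smooth (v : Pl) {g : Pl → ℝ} (hg : ContDiff ℝ ∞ g) :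
    ContDiff ℝ ∞ (X4_d v g) := Egr_smooth_v hg v

private theorem X4_df {g : Pl → ℝ} (hg : ContDiff ℝ ∞ g) (z : Pl) : DifferentiableAt ℝ g z :=
  (hg.differentiable (by simp)) z

private theorem X4_mul (v : Pl) {f g : Pl → ℝ} (hf : ContDiff ℝ ∞ f) (hg : ContDiff ℝ ∞ g)
    (z : Pl) : X4_d v (fun z => f z * g z) z = f z * X4_d v g z + X4_d v f z * g z := by
  unfold X4_d
  rw [fderiv_fun_mul (X4_df hf z) (X4_df hg z)]
  simp only [add_apply, smul_apply, smul_eq_mul]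
  ring

private theorem X4_add (v : Pl) {f g : Pl → ℝ} (hf : ContDiff ℝ ∞ f) (hg : ContDiff ℝ ∞ g)
    (z : Pl) : X4_d v (fun z => f z + g z) z = X4_d v f z + X4_d v g z := by
  unfold X4_d
  rw [fderiv_fun_add (X4_df hf z) (X4_df hg z)]
  rfl

private theorem X4_exp (v : Pl) {f : Pl → ℝ} (hf : ContDiff ℝ ∞ f) (z : Pl) :
    X4_d v (fun z => Real.exp (f z)) z = Real.exp (f z) * X4_d v f z := by
  unfold X4_d
  rw [((X4_df hf z).hasFDerivAt.exp).fderiv]
  simp only [smul_apply, smul_eq_mul]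

private theorem X4_one (v : Pl) {f g : Pl → ℝ} (hf : ContDiff ℝ ∞ f) (hg : ContDiff ℝ ∞ g) :
    X4_d v (fun z => Real.exp (f z) * g z) =
      fun z => Real.exp (f z) * (X4_d v f z * g z + X4_d v g z) := by
  funext z
  have he : ContDiff ℝ ∞ fun z => Real.exp (f z) := Real.contDiff_exp.comp hf
  rw [X4_mul v he hg, X4_exp v hf]
  ring

private theorem X4_two (v w : Pl) {f g : Pl → ℝ} (hf : ContDiff ℝ ∞ f) (hg : ContDiff ℝ ∞ g)
    (z : Pl) : X4_d w (X4_d v (fun z => Real.exp (f z) * g z)) z =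
      Real.exp (f z) * (X4_d w f z * (X4_d v f z * g z + X4_d v g z) +
        (X4_d v f z * X4_d w g z + X4_d w (X4_d v f) z * g z + X4_d w (X4_d v g) z)) := by
  rw [X4_one v hf hg]
  have h1 : ContDiff ℝ ∞ (fun z => X4_d v f z * g z) := (X4_smooth v hf).mul hg
  rw [X4_one w hf (h1.add (X4_smooth v hg))]
  show Real.exp (f z) * (X4_d w f z * (X4_d v f z * g z + X4_d v g z) +
    X4_d w (fun z => X4_d v f z * g z + X4_d v g z) z) = _
  rw [X4_add w h1 (X4_smooth v hg), X4_mul w (X4_smooth v hf) hg]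

/-! ### the curvature of `exp f * m` -/

/-- The derivatives of the determinant. -/
private noncomputable def X4_W (w : (Pl → ℝ) → Pl → ℝ) (m : Pl → Co) (z : Pl) : ℝ :=
  w (fun w => (m w).1) z * (m z).2.2 + (m z).1 * w (fun w => (m w).2.2) z -
    2 * (m z).2.1 * w (fun w => (m w).2.1) z

/-- The coefficients of the linear operator `f ↦ -Δf / 2`. -/
private noncomputable def X4_c (m : Pl → Co) (i : Fin 5) (z : Pl) : ℝ :=
  match i with
  | 0 => -(1 / 2) * (dt (m z) * (dx (fun w => (m w).2.2) z - dy (fun w => (m w).2.1) z) -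
      1 / 2 * ((m z).2.2 * X4_W dx m z - (m z).2.1 * X4_W dy m z)) / dt (m z) ^ 2
  | 1 => -(1 / 2) * (dt (m z) * (dy (fun w => (m w).1) z - dx (fun w => (m w).2.1) z) -
      1 / 2 * ((m z).1 * X4_W dy m z - (m z).2.1 * X4_W dx m z)) / dt (m z) ^ 2
  | 2 => -(1 / 2) * (dt (m z) * (m z).2.2) / dt (m z) ^ 2
  | 3 => dt (m z) * (m z).2.1 / dt (m z) ^ 2
  | 4 => -(1 / 2) * (dt (m z) * (m z).1) / dt (m z) ^ 2

/-- The derivatives of order one and two. -/
private noncomputable def X4_j (i : Fin 5) (f : Pl → ℝ) (z : Pl) : ℝ :=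
  match i with
  | 0 => dx f z
  | 1 => dy f z
  | 2 => dx (dx f) z
  | 3 => dy (dx f) z
  | 4 => dy (dy f) z

private theorem X4_alg {E F G Ex Ey Eyy Fx Fy Fxy Gx Gy Gxx fx fy fxx fxy fyy e W N0 c1 c2 : ℝ}
    (he : e ≠ 0) (hW : W ≠ 0) (hWd : W = E * G - F ^ 2)
    (h0 : N0 = (-Eyy / 2 + Fxy - Gxx / 2) * (E * G - F * F) +
        (-(Ex / 2)) * ((Fy - Gx / 2) * G - F * (Gy / 2)) +
        (Fx - Ey / 2) * ((Fy - Gx / 2) * F - E * (Gy / 2)) +
        Ey / 2 * (Ey / 2 * G - F * (Gx / 2)) +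
        (-(Gx / 2)) * (Ey / 2 * F - E * (Gx / 2)))
    (h1 : c1 = -(1 / 2) * (W * (Gx - Fy) - 1 / 2 * (G * (Ex * G + E * Gx - 2 * F * Fx) -
          F * (Ey * G + E * Gy - 2 * F * Fy))))
    (h2 : c2 = -(1 / 2) * (W * (Ey - Fx) - 1 / 2 * (E * (Ey * G + E * Gy - 2 * F * Fy) -
          F * (Ex * G + E * Gx - 2 * F * Fx)))) :
    ((-(e * (fy * (fy * E + Ey) + (fy * Ey + fyy * E + Eyy))) / 2 +
        e * (fy * (fx * F + Fx) + (fx * Fy + fxy * F + Fxy)) -
        e * (fx * (fx * G + Gx) + (fx * Gx + fxx * G + Gxx)) / 2) *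
        (e * E * (e * G) - e * F * (e * F)) +
      (-(e * (fx * E + Ex) / 2)) * ((e * (fy * F + Fy) - e * (fx * G + Gx) / 2) * (e * G) -
        e * F * (e * (fy * G + Gy) / 2)) +
      (e * (fx * F + Fx) - e * (fy * E + Ey) / 2) *
        ((e * (fy * F + Fy) - e * (fx * G + Gx) / 2) * (e * F) -
        e * E * (e * (fy * G + Gy) / 2)) +
      e * (fy * E + Ey) / 2 * (e * (fy * E + Ey) / 2 * (e * G) -
        e * F * (e * (fx * G + Gx) / 2)) +
      (-(e * (fx * G + Gx) / 2)) * (e * (fy * E + Ey) / 2 * (e * F) -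
        e * E * (e * (fx * G + Gx) / 2))) / (e ^ 2 * W) ^ 2 =
    e⁻¹ * (N0 / W ^ 2 + (c1 / W ^ 2 * fx + c2 / W ^ 2 * fy +
        -(1 / 2) * (W * G) / W ^ 2 * fxx + W * F / W ^ 2 * fxy +
        -(1 / 2) * (W * E) / W ^ 2 * fyy)) := by
  have key : ((-(e * (fy * (fy * E + Ey) + (fy * Ey + fyy * E + Eyy))) / 2 +
        e * (fy * (fx * F + Fx) + (fx * Fy + fxy * F + Fxy)) -
        e * (fx * (fx * G + Gx) + (fx * Gx + fxx * G + Gxx)) / 2) *
        (e * E * (e * G) - e * F * (e * F)) +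
      (-(e * (fx * E + Ex) / 2)) * ((e * (fy * F + Fy) - e * (fx * G + Gx) / 2) * (e * G) -
        e * F * (e * (fy * G + Gy) / 2)) +
      (e * (fx * F + Fx) - e * (fy * E + Ey) / 2) *
        ((e * (fy * F + Fy) - e * (fx * G + Gx) / 2) * (e * F) -
        e * E * (e * (fy * G + Gy) / 2)) +
      e * (fy * E + Ey) / 2 * (e * (fy * E + Ey) / 2 * (e * G) -
        e * F * (e * (fx * G + Gx) / 2)) +
      (-(e * (fx * G + Gx) / 2)) * (e * (fy * E + Ey) / 2 * (e * F) -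
        e * E * (e * (fx * G + Gx) / 2))) =
      e ^ 3 * (N0 + (c1 * fx + c2 * fy + -(1 / 2) * (W * G) * fxx + W * F * fxy +
        -(1 / 2) * (W * E) * fyy)) := by
    rw [h0, h1, h2, hWd]
    ring
  rw [key]
  field_simp

/-- The curvature of a conformal metric. -/
private theorem X4_conf {f : Pl → ℝ} (hf : ContDiff ℝ ∞ f) (hm : ContDiff ℝ ∞ m) (z : Pl)
    (hd : dt (m z) ≠ 0) : curv (BGM.cf f m) z =
      (Real.exp (f z))⁻¹ * (curv m z + ∑ i, X4_c m i z * X4_j i f z) := by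
  have hE : ContDiff ℝ ∞ fun w => (m w).1 := hm.fst
  have hF : ContDiff ℝ ∞ fun w => (m w).2.1 := hm.snd.fst
  have hG : ContDiff ℝ ∞ fun w => (m w).2.2 := hm.snd.snd
  have hdt : dt (BGM.cf f m z) = Real.exp (f z) ^ 2 * dt (m z) := by
    unfold BGM.cf dt
    simp only [Prod.smul_fst, Prod.smul_snd, smul_eq_mul]
    ring
  have x1 : ∀ {g : Pl → ℝ}, ContDiff ℝ ∞ g → dx (fun w => Real.exp (f w) * g w) z =
      Real.exp (f z) * (dx f z * g z + dx g z) := fun hg => congrFun (X4_one (1, 0) hf hg) z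
  have y1 : ∀ {g : Pl → ℝ}, ContDiff ℝ ∞ g → dy (fun w => Real.exp (f w) * g w) z =
      Real.exp (f z) * (dy f z * g z + dy g z) := fun hg => congrFun (X4_one (0, 1) hf hg) z
  have yy : ∀ {g : Pl → ℝ}, ContDiff ℝ ∞ g → dy (dy (fun w => Real.exp (f w) * g w)) z =
      Real.exp (f z) * (dy f z * (dy f z * g z + dy g z) +
        (dy f z * dy g z + dy (dy f) z * g z + dy (dy g) z)) :=
    fun hg => X4_two (0, 1) (0, 1) hf hg z
  have yx : ∀ {g : Pl → ℝ}, ContDiff ℝ ∞ g → dy (dx (fun w => Real.exp (f w) * g w)) z =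
      Real.exp (f z) * (dy f z * (dx f z * g z + dx g z) +
        (dx f z * dy g z + dy (dx f) z * g z + dy (dx g) z)) :=
    fun hg => X4_two (1, 0) (0, 1) hf hg z
  have xx : ∀ {g : Pl → ℝ}, ContDiff ℝ ∞ g → dx (dx (fun w => Real.exp (f w) * g w)) z =
      Real.exp (f z) * (dx f z * (dx f z * g z + dx g z) +
        (dx f z * dx g z + dx (dx f) z * g z + dx (dx g) z)) :=
    fun hg => X4_two (1, 0) (1, 0) hf hg z
  rw [BGM.E2_form, BGM.E2_form, hdt]
  show BGM.E2_N (fun w => Real.exp (f w) * (m w).1) (fun w => Real.exp (f w) * (m w).2.1)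
    (fun w => Real.exp (f w) * (m w).2.2) z / _ = _
  unfold BGM.E2_N
  simp only [x1 hE, y1 hE, yy hE, x1 hF, y1 hF, yx hF, x1 hG, y1 hG, xx hG]
  rw [X4_alg (Real.exp_pos (f z)).ne' hd rfl rfl rfl rfl]
  simp only [Fin.sum_univ_five, X4_c, X4_j, X4_W]

end X4aux

/-! ### the Laplacian -/

/-- The derivative of the area density. -/
private theorem X4_vol (v : Pl) (m : Mt Γ D) (z : Pl) :
    X4_d v (vol m) z = (X4_d v (fun w => (m.1.1 w).1) z * (m.1.1 z).2.2 +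
      (m.1.1 z).1 * X4_d v (fun w => (m.1.1 w).2.2) z -
      2 * (m.1.1 z).2.1 * X4_d v (fun w => (m.1.1 w).2.1) z) / (2 * vol m z) := by
  have hE : ContDiff ℝ ∞ fun w => (m.1.1 w).1 := m.1.2.fst
  have hF : ContDiff ℝ ∞ fun w => (m.1.1 w).2.1 := m.1.2.snd.fst
  have hG : ContDiff ℝ ∞ fun w => (m.1.1 w).2.2 := m.1.2.snd.snd
  have hV := smooth_vol m
  have hV0 : vol m z ≠ 0 := (vol_pos m z).ne'
  have h1 := X4_mul v hV hV z
  have h2 : (fun z => vol m z * vol m z) =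
      fun z => (m.1.1 z).1 * (m.1.1 z).2.2 + -((m.1.1 z).2.1) * (m.1.1 z).2.1 := by
    funext z
    have := vol_sq m z
    unfold dt at this
    rw [← pow_two, this]
    ring
  have hn : ContDiff ℝ ∞ fun w => -((m.1.1 w).2.1) := hF.neg
  have h3 : X4_d v (fun w => -((m.1.1 w).2.1)) z = -(X4_d v (fun w => (m.1.1 w).2.1) z) := by
    unfold X4_d
    rw [fderiv_fun_neg]
    rfl
  rw [h2, X4_add v (hE.mul hG) (hn.mul hF) z, X4_mul v hE hG z, X4_mul v hn hF z, h3] at h1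
  rw [eq_div_iff (by positivity)]
  linear_combination -h1

/-- The derivative of a quotient by the area density. -/
private theorem X4_quo (v : Pl) (m : Mt Γ D) {g : Pl → ℝ} (hg : ContDiff ℝ ∞ g) (z : Pl) :
    X4_d v (fun z => g z / vol m z) z =
      (X4_d v g z - g z / vol m z * X4_d v (vol m) z) / vol m z := by
  have hV := smooth_vol m
  have hq : ContDiff ℝ ∞ fun z => g z / vol m z := hg.div hV fun z => (vol_pos m z).ne'
  have h1 := X4_mul v hq hV z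
  have h2 : (fun z => g z / vol m z * vol m z) = g := by
    funext z
    exact div_mul_cancel₀ _ (vol_pos m z).ne'
  rw [h2] at h1
  rw [eq_div_iff (vol_pos m z).ne']
  linear_combination -h1

private theorem X4_alg2 {E F G Ey Fx Fy Gx wx wy wxx wxy wyy V Dx Dy : ℝ} (hV : V ≠ 0) :
    -(1 / 2) * (V ^ 2 * (Gx - Fy) - 1 / 2 * (G * Dx - F * Dy)) / (V ^ 2) ^ 2 * wx +
      -(1 / 2) * (V ^ 2 * (Ey - Fx) - 1 / 2 * (E * Dy - F * Dx)) / (V ^ 2) ^ 2 * wy +
      -(1 / 2) * (V ^ 2 * G) / (V ^ 2) ^ 2 * wxx + V ^ 2 * F / (V ^ 2) ^ 2 * wxy +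
      -(1 / 2) * (V ^ 2 * E) / (V ^ 2) ^ 2 * wyy =
    -(((G / V * wxx + (Gx - G / V * (Dx / (2 * V))) / V * wx +
        (-F / V * wxy + (-Fx - -F / V * (Dx / (2 * V))) / V * wy) +
        (-F / V * wxy + (-Fy - -F / V * (Dy / (2 * V))) / V * wx +
        (E / V * wyy + (Ey - E / V * (Dy / (2 * V))) / V * wy))) / V)) / 2 := by
  field_simp
  ring

theorem curv_conf (m : Mt Γ D) {w : Pl → ℝ} (hw : ContDiff ℝ ∞ w) (z : Pl) :
    curv (BGM.cf w m.1.1) z = (Real.exp (w z))⁻¹ * (curv m.1.1 z + Lp m w z / 2) := by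
  have hE : ContDiff ℝ ∞ fun w => (m.1.1 w).1 := m.1.2.fst
  have hF : ContDiff ℝ ∞ fun w => (m.1.1 w).2.1 := m.1.2.snd.fst
  have hG : ContDiff ℝ ∞ fun w => (m.1.1 w).2.2 := m.1.2.snd.snd
  have hn : ContDiff ℝ ∞ fun w => -((m.1.1 w).2.1) := hF.neg
  have hV0 : vol m z ≠ 0 := (vol_pos m z).ne'
  rw [X4_conf hw m.1.2 z (m.2.pos z).2.ne']
  congr 2
  have hneg : ∀ v : Pl, X4_d v (fun w => -((m.1.1 w).2.1)) z = -(X4_d v (fun w => (m.1.1 w).2.1) z) := by
    intro v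
    unfold X4_d
    rw [fderiv_fun_neg]
    rfl
  have hwx : ContDiff ℝ ∞ (X4_d (1, 0) w) := X4_smooth _ hw
  have hwy : ContDiff ℝ ∞ (X4_d (0, 1) w) := X4_smooth _ hw
  have ha : ContDiff ℝ ∞ (fun z => (m.1.1 z).2.2 / vol m z) := (coefM m).ha
  have hb : ContDiff ℝ ∞ (fun z => -((m.1.1 z).2.1) / vol m z) := (coefM m).hb
  have hc : ContDiff ℝ ∞ (fun z => (m.1.1 z).1 / vol m z) := (coefM m).hc
  have hsym : X4_d (1, 0) (X4_d (0, 1) w) z = X4_d (0, 1) (X4_d (1, 0) w) z := (Egr_symm hw z).symm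
  have hL : Lu (coefM m) w z =
      X4_d (1, 0) (fun z => (m.1.1 z).2.2 / vol m z * X4_d (1, 0) w z +
        -((m.1.1 z).2.1) / vol m z * X4_d (0, 1) w z) z +
      X4_d (0, 1) (fun z => -((m.1.1 z).2.1) / vol m z * X4_d (1, 0) w z +
        (m.1.1 z).1 / vol m z * X4_d (0, 1) w z) z := rfl
  rw [X4_add _ (ha.mul hwx) (hb.mul hwy), X4_add _ (hb.mul hwx) (hc.mul hwy), X4_mul _ ha hwx,
    X4_mul _ hb hwy, X4_mul _ hb hwx, X4_mul _ hc hwy, X4_quo _ m hG, X4_quo _ m hn, X4_quo _ m hn,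
    X4_quo _ m hE, hneg, hneg, X4_vol, X4_vol, hsym] at hL
  unfold Lp
  rw [hL]
  simp only [Fin.sum_univ_five, X4_c, X4_j, X4_W]
  rw [← vol_sq m z]
  exact X4_alg2 hV0

end U36
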