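import Pool.Agent.LibU36.X2
import Pool.Agent.LibU36.X3
import Pool.Agent.LibU36.X4

/-! Every metric of negative curvature is conformal to one of curvature `-1`. -/

open MeasureTheory Set Filter Topology
open scoped ContDiff unitInterval

namespace U36

open BGS QR

open BR

variable {Γ : Type} [Group Γ] [MulAction Γ Pl] {D : Set Pl}

theorem exists_hyp (hX : Surface Γ D) (m : Mt Γ D) : ∃ w ∈ Test Γ,
    HM Γ (BGM.cf w m.1.1) ∧ ∀ z, curv (BGM.cf w m.1.1) z = -1 := by
  obtain ⟨c0, c1, h01, hc⟩ := exists_const hX m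
  obtain ⟨u, h0, hb, hd, he⟩ := iter hX m h01 hc
  obtain ⟨w, hw, hL⟩ := iter_lim hX m hc h0 hb hd he
  have hK : ∀ z, curv (BGM.cf w m.1.1) z = -1 := by
    intro z
    rw [curv_conf m hw.1 z, hL z]
    have := (Real.exp_pos (w z)).ne'
    field_simp
    ring
  refine ⟨w, hw, ⟨?_, ?_, ?_, fun z => by rw [hK z]; norm_num⟩, hK⟩
  · exact (Real.contDiff_exp.comp hw.1).smul m.1.2
  · intro z
    have h1 := m.2.pos z
    have h2 := Real.exp_pos (w z)
    refine ⟨mul_pos h2 h1.1, ?_⟩
    have h3 : dt (BGM.cf w m.1.1 z) = Real.exp (w z) ^ 2 * dt (m.1.1 z) := by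
      unfold BGM.cf dt
      simp only [Prod.smul_fst, Prod.smul_snd, smul_eq_mul]
      ring
    rw [h3]
    exact mul_pos (pow_pos h2 2) h1.2
  · intro γ z v
    have h1 := m.2.inv γ z v
    unfold BGM.cf qf at *
    simp only [Prod.smul_fst, Prod.smul_snd, smul_eq_mul]
    rw [hw.2 γ z]
    linear_combination Real.exp (w z) * h1

end U36
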